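import Mathlib

/-!
Derivations on fields that are algebraic over a rational function field.
-/

namespace Pool.Agent.H286R3

open TensorProduct

theorem exists_derivation {ι : Type} {K T : Type} [Field K] [Field T]
    [Algebra ℂ K] [Algebra (MvPolynomial ι ℂ) K] [IsScalarTower ℂ (MvPolynomial ι ℂ) K]
    [IsFractionRing (MvPolynomial ι ℂ) K]
    [Algebra ℂ T] [Algebra (MvPolynomial ι ℂ) T] [Algebra K T]
    [IsScalarTower ℂ (MvPolynomial ι ℂ) T] [IsScalarTower (MvPolynomial ι ℂ) K T]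
    [Algebra.IsAlgebraic K T] (v : ι → T) :
    ∃ D : Derivation ℂ T T, ∀ i, D (algebraMap (MvPolynomial ι ℂ) T (MvPolynomial.X i)) = v i := by
  have hchar : CharZero K := charZero_of_injective_algebraMap (algebraMap ℂ K).injective
  haveI : Algebra.FormallyEtale (MvPolynomial ι ℂ) K :=
    Algebra.FormallyEtale.of_isLocalization (Rₘ := K) (nonZeroDivisors (MvPolynomial ι ℂ))
  haveI : Algebra.FormallyEtale K T := Algebra.FormallyEtale.of_isSeparable K T
  haveI : Algebra.FormallyEtale (MvPolynomial ι ℂ) T :=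
    Algebra.FormallyEtale.comp (MvPolynomial ι ℂ) K T
  let e := KaehlerDifferential.tensorKaehlerEquivOfFormallyEtale ℂ (MvPolynomial ι ℂ) T
  let d : Derivation ℂ (MvPolynomial ι ℂ) T := MvPolynomial.mkDerivation ℂ v
  let l : Ω[MvPolynomial ι ℂ⁄ℂ] →ₗ[MvPolynomial ι ℂ] T := d.liftKaehlerDifferential
  let lt : T ⊗[MvPolynomial ι ℂ] Ω[MvPolynomial ι ℂ⁄ℂ] →ₗ[T] T := LinearMap.liftBaseChange T l
  let m : Ω[T⁄ℂ] →ₗ[T] T := lt.comp e.symm.toLinearMap
  refine ⟨m.compDer (KaehlerDifferential.D ℂ T), ?_⟩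
  intro i
  show lt (e.symm (KaehlerDifferential.D ℂ T (algebraMap (MvPolynomial ι ℂ) T
    (MvPolynomial.X i)))) = v i
  rw [KaehlerDifferential.tensorKaehlerEquivOfFormallyEtale_symm_D_algebraMap]
  show lt (1 ⊗ₜ[MvPolynomial ι ℂ] (KaehlerDifferential.D ℂ (MvPolynomial ι ℂ))
    (MvPolynomial.X i)) = v i
  rw [LinearMap.liftBaseChange_tmul, one_smul]
  show d.liftKaehlerDifferential _ = v i
  rw [Derivation.liftKaehlerDifferential_comp_D]
  exact MvPolynomial.mkDerivation_X ℂ v i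

end Pool.Agent.H286R3
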