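import Mathlib

/-!
Linear algebra for reciprocal linear spaces: orthogonal complement in `E → ℂ`, pairing after
extension of scalars.
-/

namespace Pool.Agent.H286R3

open Module

section Perp

variable {E : Type*} [Fintype E]

/-- The orthogonal complement of `L` for the standard bilinear form of `E → ℂ`. -/
def perp (L : Submodule ℂ (E → ℂ)) : Submodule ℂ (E → ℂ) where
  carrier := {y | ∀ z ∈ L, ∑ i, y i * z i = 0}
  add_mem' := by
    intro a b ha hb z hz
    simp only [Pi.add_apply, add_mul, Finset.sum_add_distrib]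
    rw [ha z hz, hb z hz, add_zero]
  zero_mem' := by intro z _; simp
  smul_mem' := by
    intro r a ha z hz
    simp only [Pi.smul_apply, smul_eq_mul, mul_assoc]
    rw [← Finset.mul_sum, ha z hz, mul_zero]

theorem mem_perp {L : Submodule ℂ (E → ℂ)} {y : E → ℂ} :
    y ∈ perp L ↔ ∀ z ∈ L, ∑ i, y i * z i = 0 := Iff.rfl

/-- the standard form -/
noncomputable def stdForm (E : Type*) [Fintype E] : LinearMap.BilinForm ℂ (E → ℂ) :=
  dotProductBilin ℂ ℂ

theorem stdForm_apply (x y : E → ℂ) : stdForm E x y = ∑ i, x i * y i := rfl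

theorem stdForm_refl : (stdForm E).IsRefl := by
  intro x y h
  rw [stdForm_apply] at *
  rw [← h]
  exact Finset.sum_congr rfl fun i _ => mul_comm _ _

theorem stdForm_nondeg : (stdForm E).Nondegenerate := by
  classical
  have key : ∀ x : E → ℂ, (∀ y, stdForm E x y = 0) → x = 0 := by
    intro x hx
    funext i
    have := hx (Pi.single i 1)
    rw [stdForm_apply] at this
    simpa [Pi.single_apply] using this
  refine ⟨key, ?_⟩
  intro y hy
  apply key
  intro x
  exact stdForm_refl _ _ (hy x)

theorem perp_eq (L : Submodule ℂ (E → ℂ)) : perp L = (stdForm E).orthogonal L := by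
  ext y
  constructor
  · intro h z hz
    show stdForm E z y = 0
    rw [stdForm_apply, ← h z hz]
    exact Finset.sum_congr rfl fun i _ => mul_comm _ _
  · intro h z hz
    have : stdForm E z y = 0 := h z hz
    rw [stdForm_apply] at this
    rw [← this]
    exact Finset.sum_congr rfl fun i _ => mul_comm _ _

theorem perp_perp (L : Submodule ℂ (E → ℂ)) : perp (perp L) = L := by
  rw [perp_eq, perp_eq]
  exact LinearMap.BilinForm.orthogonal_orthogonal stdForm_nondeg stdForm_refl L

theorem finrank_perp_add (L : Submodule ℂ (E → ℂ)) :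
    finrank ℂ (perp L) + finrank ℂ L = Fintype.card E := by
  have h := LinearMap.BilinForm.finrank_orthogonal (B := stdForm E) stdForm_nondeg L
  rw [← perp_eq] at h
  have h2 : finrank ℂ L ≤ finrank ℂ (E → ℂ) := Submodule.finrank_le L
  rw [finrank_fintype_fun_eq_card] at h h2
  omega

theorem mem_of_perp {L : Submodule ℂ (E → ℂ)} {z : E → ℂ} (h : ∀ y ∈ perp L, ∑ i, z i * y i = 0) :
    z ∈ L := by
  rw [← perp_perp L]; exact h

/-- `x ∈ T^E` satisfies the linear equations of `L`. -/
def Ext {T : Type*} [CommRing T] [Algebra ℂ T] (L : Submodule ℂ (E → ℂ)) (x : E → T) : Prop :=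
  ∀ y ∈ perp L, ∑ i, y i • x i = 0

theorem Ext.map {T T' : Type*} [CommRing T] [Algebra ℂ T] [CommRing T'] [Algebra ℂ T']
    {L : Submodule ℂ (E → ℂ)} {x : E → T} (h : Ext L x) (f : T →ₐ[ℂ] T') :
    Ext L (fun i => f (x i)) := by
  intro y hy
  have := congrArg f (h y hy)
  simpa [map_sum] using this

theorem Ext.linmap {T T' : Type*} [CommRing T] [Algebra ℂ T] [CommRing T'] [Algebra ℂ T']
    {L : Submodule ℂ (E → ℂ)} {x : E → T} (h : Ext L x) (f : T →ₗ[ℂ] T') :
    Ext L (fun i => f (x i)) := by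
  intro y hy
  have := congrArg f (h y hy)
  simpa [map_sum] using this

theorem Ext.mul {T : Type*} [CommRing T] [Algebra ℂ T]
    {L : Submodule ℂ (E → ℂ)} {x : E → T} (h : Ext L x) (a : T) :
    Ext L (fun i => x i * a) := by
  intro y hy
  have := congrArg (· * a) (h y hy)
  simpa [Finset.sum_mul] using this

theorem ext_point {L : Submodule ℂ (E → ℂ)} {x : E → ℂ} (h : Ext L x) : x ∈ L := by
  apply mem_of_perp
  intro y hy
  have := h y hy
  simp only [smul_eq_mul] at this
  rw [← this]
  exact Finset.sum_congr rfl fun i _ => mul_comm _ _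

theorem point_ext {L : Submodule ℂ (E → ℂ)} {x : E → ℂ} (h : x ∈ L) : Ext L x := by
  intro y hy
  exact hy x h

theorem Ext.linmap_mem {T : Type*} [CommRing T] [Algebra ℂ T]
    {L : Submodule ℂ (E → ℂ)} {x : E → T} (h : Ext L x) (f : T →ₗ[ℂ] ℂ) :
    (fun i => f (x i)) ∈ L := ext_point (h.linmap f)

/-- elements of `L` written with coefficients in `T` satisfy the equations -/
theorem point_ext_smul {T : Type*} [CommRing T] [Algebra ℂ T]
    {L : Submodule ℂ (E → ℂ)} {z : E → ℂ} (h : z ∈ L) (a : T) : Ext L (fun i => z i • a) := by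
  intro y hy
  have := hy z h
  simp only [smul_smul]
  rw [← Finset.sum_smul, this, zero_smul]

theorem Ext.add {T : Type*} [CommRing T] [Algebra ℂ T]
    {L : Submodule ℂ (E → ℂ)} {x x' : E → T} (h : Ext L x) (h' : Ext L x') :
    Ext L (fun i => x i + x' i) := by
  intro y hy
  simp only [smul_add, Finset.sum_add_distrib, h y hy, h' y hy, add_zero]

theorem Ext.sub {T : Type*} [CommRing T] [Algebra ℂ T]
    {L : Submodule ℂ (E → ℂ)} {x x' : E → T} (h : Ext L x) (h' : Ext L x') :
    Ext L (fun i => x i - x' i) := by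
  intro y hy
  simp only [smul_sub, Finset.sum_sub_distrib, h y hy, h' y hy, sub_zero]

/-- There is a linear projection onto `L`, written as a matrix: finitely many pairs
`(b k, f k)`, `b k ∈ L` a basis, `f k` dual. -/
theorem exists_frame (L : Submodule ℂ (E → ℂ)) :
    ∃ (m : ℕ) (b : Fin m → E → ℂ) (f : Fin m → E → ℂ), (∀ k, b k ∈ L) ∧
      (∀ k l, ∑ i, f k i * b l i = if k = l then 1 else 0) ∧
      ∀ z ∈ L, ∀ i, z i = ∑ k, (∑ j, f k j * z j) * b k i := by
  classical
  obtain ⟨P, hP⟩ := LinearMap.exists_leftInverse_of_injective L.subtype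
    (LinearMap.ker_eq_bot.mpr L.injective_subtype)
  let B := finBasis ℂ L
  refine ⟨finrank ℂ L, fun k => (B k : E → ℂ), fun k j => B.coord k (P (Pi.single j 1)),
    fun k => (B k).2, ?_, ?_⟩
  · have hf : ∀ k (z : E → ℂ), ∑ j, B.coord k (P (Pi.single j 1)) * z j = B.coord k (P z) := by
      intro k z
      have hz : z = ∑ j, z j • (Pi.single j (1 : ℂ) : E → ℂ) := by
        funext i
        simp [Finset.sum_apply, Pi.single_apply]
      conv_rhs => rw [hz]
      rw [map_sum, map_sum]
      refine Finset.sum_congr rfl fun j _ => ?_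
      rw [map_smul, map_smul, smul_eq_mul, mul_comm]
    intro k l
    rw [hf k (B l)]
    have : P (B l : E → ℂ) = B l := LinearMap.congr_fun hP (B l)
    rw [this]
    simp [Finsupp.single_apply, eq_comm]
  · have hf : ∀ k (z : E → ℂ), ∑ j, B.coord k (P (Pi.single j 1)) * z j = B.coord k (P z) := by
      intro k z
      have hz : z = ∑ j, z j • (Pi.single j (1 : ℂ) : E → ℂ) := by
        funext i
        simp [Finset.sum_apply, Pi.single_apply]
      conv_rhs => rw [hz]
      rw [map_sum, map_sum]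
      refine Finset.sum_congr rfl fun j _ => ?_
      rw [map_smul, map_smul, smul_eq_mul, mul_comm]
    intro z hz i
    simp only [hf]
    have : P z = ⟨z, hz⟩ := LinearMap.congr_fun hP ⟨z, hz⟩
    rw [this]
    have h2 := B.sum_repr ⟨z, hz⟩
    have h3 := congrArg (fun v : L => (v : E → ℂ) i) h2
    simp only at h3
    rw [← h3, AddSubmonoidClass.coe_finset_sum, Finset.sum_apply]
    rfl

theorem Ext.frame {T : Type*} [CommRing T] [Algebra ℂ T]
    {L : Submodule ℂ (E → ℂ)} {x : E → T} (h : Ext L x) {m : ℕ} {b f : Fin m → E → ℂ}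
    (hf : ∀ z ∈ L, ∀ i, z i = ∑ k, (∑ j, f k j * z j) * b k i) (i : E) :
    x i = ∑ k, b k i • (∑ j, f k j • x j) := by
  classical
  -- the row `e_i - Σ_k b k i f k` lies in `perp L`
  have hy : (fun j => (if j = i then (1 : ℂ) else 0) - ∑ k, b k i * f k j) ∈ perp L := by
    intro z hz
    have h1 := hf z hz i
    simp only [sub_mul, Finset.sum_sub_distrib]
    have h2 : ∑ j, (if j = i then (1 : ℂ) else 0) * z j = z i := by simp
    rw [h2, sub_eq_zero, h1]
    simp only [Finset.sum_mul]
    rw [Finset.sum_comm]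
    refine Finset.sum_congr rfl fun j _ => Finset.sum_congr rfl fun k _ => by ring
  have h3 := h _ hy
  simp only [sub_smul, Finset.sum_sub_distrib] at h3
  have h4 : ∑ j, (if j = i then (1 : ℂ) else 0) • x j = x i := by simp [ite_smul]
  rw [h4, sub_eq_zero] at h3
  rw [h3]
  simp only [Finset.sum_smul, Finset.smul_sum, smul_smul]
  rw [Finset.sum_comm]

/-- The pairing of `L ⊗ T` and `perp L ⊗ T` vanishes. -/
theorem pairing {T : Type*} [CommRing T] [Algebra ℂ T]
    {L : Submodule ℂ (E → ℂ)} {x c : E → T} (hx : Ext L x) (hc : Ext (perp L) c) :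
    ∑ i, x i * c i = 0 := by
  obtain ⟨m, b, f, hb, -, hf⟩ := exists_frame L
  have h1 : ∀ i, x i * c i = ∑ k, (b k i • c i) * (∑ j, f k j • x j) := by
    intro i
    conv_lhs => rw [hx.frame hf i]
    rw [Finset.sum_mul]
    refine Finset.sum_congr rfl fun k _ => ?_
    rw [smul_mul_assoc, smul_mul_assoc, mul_comm]
  simp only [h1]
  rw [Finset.sum_comm]
  refine Finset.sum_eq_zero fun k _ => ?_
  rw [← Finset.sum_mul]
  have : ∑ i, b k i • c i = 0 := by
    apply hc
    rw [perp_perp]
    exact hb k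
  rw [this, zero_mul]

theorem ext_perp_apply {T : Type*} [CommRing T] [Algebra ℂ T]
    {L : Submodule ℂ (E → ℂ)} {c : E → T} (hc : Ext (perp L) c) {z : E → ℂ} (hz : z ∈ L) :
    ∑ i, z i • c i = 0 := by
  apply hc
  rw [perp_perp]; exact hz

theorem ext_perp_iff {T : Type*} [CommRing T] [Algebra ℂ T]
    {L : Submodule ℂ (E → ℂ)} {c : E → T} :
    Ext (perp L) c ↔ ∀ z ∈ L, ∑ i, z i • c i = 0 := by
  unfold Ext
  rw [perp_perp]

end Perp

end Pool.Agent.H286R3
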