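import Mathlib
import Pool.Agent.H286R3.LinA

/-!
The universal pair `(x, c)` with `x ∈ L`, `x_o = 1`, `c ∈ perp L`.
-/

namespace Pool.Agent.H286R3

open Module

/-- `A` is the coordinate ring of `{x ∈ L, x_o = 1} × perp L`. -/
structure IsUniv {E : Type} [Fintype E] (o : E) (L : Submodule ℂ (E → ℂ)) {A : Type}
    [CommRing A] [Algebra ℂ A] (x c : E → A) : Prop where
  hx : Ext L x
  hc : Ext (perp L) c
  hone : x o = 1
  gen : Algebra.adjoin ℂ (Set.range x ∪ Set.range c) = ⊤
  univ : ∀ (T : Type) [CommRing T] [Algebra ℂ T] (x' c' : E → T), Ext L x' → Ext (perp L) c' →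
    x' o = 1 → ∃ φ : A →ₐ[ℂ] T, (∀ i, φ (x i) = x' i) ∧ (∀ i, φ (c i) = c' i)

section
variable {E : Type} [Fintype E] {o : E} {L : Submodule ℂ (E → ℂ)}

theorem IsUniv.hom_ext {A : Type} [CommRing A] [Algebra ℂ A] {x c : E → A}
    (h : IsUniv o L x c) {T : Type} [CommRing T] [Algebra ℂ T] {f g : A →ₐ[ℂ] T}
    (hx : ∀ i, f (x i) = g (x i)) (hc : ∀ i, f (c i) = g (c i)) : f = g := by
  apply AlgHom.ext_of_adjoin_eq_top h.gen
  rintro _ (⟨i, rfl⟩ | ⟨i, rfl⟩)
  · exact hx i
  · exact hc i

theorem IsUniv.equiv {A B : Type} [CommRing A] [Algebra ℂ A] [CommRing B] [Algebra ℂ B]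
    {x c : E → A} {x' c' : E → B} (h : IsUniv o L x c) (h' : IsUniv o L x' c') :
    ∃ φ : A ≃ₐ[ℂ] B, (∀ i, φ (x i) = x' i) ∧ (∀ i, φ (c i) = c' i) := by
  obtain ⟨f, hf1, hf2⟩ := h.univ B x' c' h'.hx h'.hc h'.hone
  obtain ⟨g, hg1, hg2⟩ := h'.univ A x c h.hx h.hc h.hone
  refine ⟨AlgEquiv.ofAlgHom f g ?_ ?_, hf1, hf2⟩
  · apply h'.hom_ext
    · intro i; simp [hg1, hf1]
    · intro i; simp [hg2, hf2]
  · apply h.hom_ext
    · intro i; simp [hg1, hf1]
    · intro i; simp [hg2, hf2]

/-- the polynomial model -/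
theorem exists_model (hL : ∃ z ∈ L, z o = 1) :
    ∃ (a b : ℕ) (x c : E → MvPolynomial (Fin a ⊕ Fin b) ℂ), IsUniv o L x c := by
  classical
  obtain ⟨w, hw, hwo⟩ := hL
  let L' : Submodule ℂ (E → ℂ) := L ⊓ LinearMap.ker (LinearMap.proj o : (E → ℂ) →ₗ[ℂ] ℂ)
  have hL' : ∀ z, z ∈ L' ↔ z ∈ L ∧ z o = 0 := by
    intro z
    simp [L']
  obtain ⟨m, b, f, hb, hbf, hf⟩ := exists_frame L'
  obtain ⟨m', b', f', hb', hbf', hf'⟩ := exists_frame (perp L)
  let M := MvPolynomial (Fin m ⊕ Fin m') ℂ
  let x : E → M := fun i => MvPolynomial.C (w i) +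
    ∑ k, b k i • (MvPolynomial.X (Sum.inl k) : M)
  let c : E → M := fun i => ∑ k, b' k i • (MvPolynomial.X (Sum.inr k) : M)
  have hxE : Ext L x := by
    intro y hy
    simp only [x, smul_add, Finset.sum_add_distrib]
    have h1 : ∑ i, y i • (MvPolynomial.C (w i) : M) = 0 := by
      have h2 := hy w hw
      have h3 : ∑ i, y i • (MvPolynomial.C (w i) : M) = MvPolynomial.C (∑ i, y i * w i) := by
        rw [map_sum]
        refine Finset.sum_congr rfl fun i _ => ?_
        rw [MvPolynomial.smul_eq_C_mul, ← map_mul]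
      rw [h3, h2, map_zero]
    rw [h1, zero_add]
    simp only [Finset.smul_sum]
    rw [Finset.sum_comm]
    refine Finset.sum_eq_zero fun k _ => ?_
    simp only [smul_smul]
    rw [← Finset.sum_smul, hy (b k) ((hL' _).mp (hb k)).1, zero_smul]
  have hcE : Ext (perp L) c := by
    intro y hy
    simp only [c, Finset.smul_sum]
    rw [Finset.sum_comm]
    refine Finset.sum_eq_zero fun k _ => ?_
    simp only [smul_smul]
    rw [← Finset.sum_smul, hy (b' k) (hb' k), zero_smul]
  have hone : x o = 1 := by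
    have h1 : ∀ k, b k o = 0 := fun k => ((hL' _).mp (hb k)).2
    simp [x, h1, hwo]
  -- the coordinate combinations
  have hXl : ∀ k, (MvPolynomial.X (Sum.inl k) : M) = ∑ j, f k j • (x j - MvPolynomial.C (w j)) := by
    intro k
    have h1 : ∀ j, x j - MvPolynomial.C (w j) = ∑ l, b l j • (MvPolynomial.X (Sum.inl l) : M) := by
      intro j; simp [x]
    simp only [h1, Finset.smul_sum, smul_smul]
    rw [Finset.sum_comm]
    simp only [← Finset.sum_smul, hbf]
    simp
  have hXr : ∀ k, (MvPolynomial.X (Sum.inr k) : M) = ∑ j, f' k j • c j := by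
    intro k
    simp only [c, Finset.smul_sum, smul_smul]
    rw [Finset.sum_comm]
    simp only [← Finset.sum_smul, hbf']
    simp
  refine ⟨m, m', x, c, hxE, hcE, hone, ?_, ?_⟩
  · rw [eq_top_iff, ← MvPolynomial.adjoin_range_X, Algebra.adjoin_le_iff]
    rintro _ ⟨k | k, rfl⟩
    · show MvPolynomial.X (Sum.inl k) ∈ Algebra.adjoin ℂ (Set.range x ∪ Set.range c)
      rw [hXl]
      refine sum_mem fun j _ => Subalgebra.smul_mem _ (sub_mem ?_ ?_) _
      · exact Algebra.subset_adjoin (Or.inl ⟨j, rfl⟩)
      · exact Subalgebra.algebraMap_mem _ (w j)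
    · show MvPolynomial.X (Sum.inr k) ∈ Algebra.adjoin ℂ (Set.range x ∪ Set.range c)
      rw [hXr]
      refine sum_mem fun j _ => Subalgebra.smul_mem _ ?_ _
      exact Algebra.subset_adjoin (Or.inr ⟨j, rfl⟩)
  · intro T _ _ x' c' hx' hc' hone'
    let φ : M →ₐ[ℂ] T := MvPolynomial.aeval (Sum.elim
      (fun k => ∑ j, f k j • (x' j - algebraMap ℂ T (w j))) (fun k => ∑ j, f' k j • c' j))
    refine ⟨φ, ?_, ?_⟩
    · intro i
      have h1 : Ext L' (fun j => x' j - algebraMap ℂ T (w j)) := by
        -- perp L' = perp L + ℂ e_o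
        intro y hy
        have h2 : (fun j => y j - (∑ i, y i * w i) * (if j = o then 1 else 0)) ∈ perp L := by
          intro z hz
          have h3 : z - z o • w ∈ L' := by
            rw [hL']
            refine ⟨sub_mem hz (Submodule.smul_mem _ _ hw), ?_⟩
            simp [hwo]
          have h4 := hy _ h3
          simp only [Pi.sub_apply, Pi.smul_apply, smul_eq_mul, mul_sub,
            Finset.sum_sub_distrib] at h4
          simp only [sub_mul, Finset.sum_sub_distrib]
          have h5 : ∑ j, (∑ i, y i * w i) * (if j = o then (1 : ℂ) else 0) * z j =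
              (∑ i, y i * w i) * z o := by
            simp
          rw [h5]
          have h6 : ∑ i, y i * (z o * w i) = (∑ i, y i * w i) * z o := by
            rw [Finset.sum_mul]
            exact Finset.sum_congr rfl fun i _ => by ring
          rw [h6] at h4
          exact h4
        have h7 := hx' _ h2
        simp only [sub_smul, Finset.sum_sub_distrib] at h7
        have h8 : ∑ j, ((∑ i, y i * w i) * (if j = o then (1 : ℂ) else 0)) • x' j =
            algebraMap ℂ T (∑ i, y i * w i) := by
          simp only [mul_ite, mul_one, mul_zero, ite_smul, zero_smul, Finset.sum_ite_eq',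
            Finset.mem_univ, if_true]
          rw [hone', Algebra.smul_def, mul_one]
        rw [h8] at h7
        simp only [smul_sub, Finset.sum_sub_distrib]
        have h9 : ∑ j, y j • algebraMap ℂ T (w j) = algebraMap ℂ T (∑ i, y i * w i) := by
          rw [map_sum]
          refine Finset.sum_congr rfl fun j _ => ?_
          rw [Algebra.smul_def, ← map_mul]
        rw [h9]
        exact h7
      have h2 := h1.frame hf i
      have h3 : φ (x i) = algebraMap ℂ T (w i) +
          ∑ k, b k i • ∑ j, f k j • (x' j - algebraMap ℂ T (w j)) := by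
        simp only [x, φ, map_add, map_sum, map_smul]
        congr 1
        · exact MvPolynomial.aeval_C _ _
        · refine Finset.sum_congr rfl fun k _ => ?_
          congr 1
          exact MvPolynomial.aeval_X _ _
      rw [h3, ← h2]
      ring
    · intro i
      have h2 := hc'.frame hf' i
      have h3 : φ (c i) = ∑ k, b' k i • ∑ j, f' k j • c' j := by
        simp only [c, φ, map_sum, map_smul]
        refine Finset.sum_congr rfl fun k _ => ?_
        congr 1
        exact MvPolynomial.aeval_X _ _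
      rw [h3, ← h2]

theorem IsUniv.isDomain {A : Type} [CommRing A] [Algebra ℂ A] {x c : E → A}
    (h : IsUniv o L x c) (hL : ∃ z ∈ L, z o = 1) : IsDomain A := by
  obtain ⟨a, b, x', c', h'⟩ := exists_model hL
  obtain ⟨φ, -, -⟩ := h.equiv h'
  exact φ.toMulEquiv.isDomain

/-- polynomial identities in `A` can be tested at points -/
theorem IsUniv.eq_zero_iff {A : Type} [CommRing A] [Algebra ℂ A] {x c : E → A}
    (h : IsUniv o L x c) (hL : ∃ z ∈ L, z o = 1) (G : MvPolynomial (E ⊕ E) ℂ) :
    MvPolynomial.aeval (Sum.elim x c) G = 0 ↔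
      ∀ z ∈ L, z o = 1 → ∀ y ∈ perp L, MvPolynomial.eval (Sum.elim z y) G = 0 := by
  constructor
  · intro h0 z hz hz1 y hy
    obtain ⟨φ, hφ1, hφ2⟩ := h.univ ℂ z y (point_ext hz) (point_ext hy) hz1
    have h1 := congrArg φ h0
    rw [map_zero, MvPolynomial.comp_aeval_apply] at h1
    rw [← h1, ← MvPolynomial.coe_aeval_eq_eval]
    show MvPolynomial.aeval (Sum.elim z y) G = _
    congr 2
    funext i
    cases i with
    | inl i => simp [hφ1]
    | inr i => simp [hφ2]
  · intro h0
    obtain ⟨a, b, x', c', h'⟩ := exists_model hL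
    obtain ⟨φ, hφ1, hφ2⟩ := h.equiv h'
    apply φ.injective
    rw [map_zero]
    have h1 : φ (MvPolynomial.aeval (Sum.elim x c) G) = MvPolynomial.aeval (Sum.elim x' c') G := by
      have := MvPolynomial.comp_aeval_apply (f := Sum.elim x c) φ.toAlgHom G
      refine this.trans ?_
      congr 2
      funext i
      cases i with
      | inl i => simp [hφ1]
      | inr i => simp [hφ2]
    rw [h1]
    apply MvPolynomial.funext
    intro p
    rw [map_zero]
    let ev : MvPolynomial (Fin a ⊕ Fin b) ℂ →ₐ[ℂ] ℂ := MvPolynomial.aeval p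
    have h3 : MvPolynomial.eval p (MvPolynomial.aeval (Sum.elim x' c') G) =
        MvPolynomial.eval (Sum.elim (fun i => ev (x' i)) (fun i => ev (c' i))) G := by
      have h4 := MvPolynomial.comp_aeval_apply (f := Sum.elim x' c') ev G
      rw [← MvPolynomial.coe_aeval_eq_eval]
      show ev _ = _
      rw [h4, ← MvPolynomial.coe_aeval_eq_eval]
      show MvPolynomial.aeval _ G = MvPolynomial.aeval _ G
      congr 2
      funext i
      cases i with
      | inl i => simp
      | inr i => simp
    rw [h3]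
    apply h0
    · exact ext_point (h'.hx.map ev)
    · show ev (x' o) = 1
      rw [h'.hone, map_one]
    · exact ext_point (h'.hc.map ev)

end

end Pool.Agent.H286R3
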