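import Mathlib
import Pool.Agent.H286R3.Univ
import Pool.Agent.H286R3.Der

/-!
Birationality: the element `c_o` generates the function field.
-/

namespace Pool.Agent.H286R3

open Module

theorem algebraic_of_rank {R A : Type} [CommRing R] [IsDomain R] [CommRing A] [Algebra R A]
    (N : ℕ) (h : Module.rank R A = N) : Algebra.IsAlgebraic R A := by
  constructor
  intro a
  by_contra ha
  have h1 : LinearIndependent R (fun n : ℕ => a ^ n) := by
    have h2 := (Polynomial.basisMonomials R).linearIndependent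
    have h3 := h2.map' (Polynomial.aeval a).toLinearMap (by
      rw [LinearMap.ker_eq_bot]
      exact transcendental_iff_injective.mp ha)
    have h4 : (fun n : ℕ => a ^ n) =
        (⇑(Polynomial.aeval a).toLinearMap ∘ ⇑(Polynomial.basisMonomials R)) := by
      funext n
      simp
    rw [h4]
    exact h3
  have h2 := h1.cardinal_le_rank
  rw [h, Cardinal.mk_nat] at h2
  exact absurd (Cardinal.natCast_lt_aleph0 (n := N)) (not_lt.mpr h2)

theorem primitive_aux {ι : Type} [Fintype ι] {A K Ω T : Type} [CommRing A] [IsDomain A]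
    [Field K] [Field Ω] [Field T] [Algebra ℂ A] [Algebra (MvPolynomial ι ℂ) A]
    [IsScalarTower ℂ (MvPolynomial ι ℂ) A] [Algebra (MvPolynomial ι ℂ) K]
    [IsFractionRing (MvPolynomial ι ℂ) K] [Algebra ℂ K] [IsScalarTower ℂ (MvPolynomial ι ℂ) K]
    [Algebra A Ω] [IsFractionRing A Ω] [Algebra K Ω] [Algebra (MvPolynomial ι ℂ) Ω]
    [IsScalarTower (MvPolynomial ι ℂ) A Ω] [IsScalarTower (MvPolynomial ι ℂ) K Ω]
    [Algebra K T] [Algebra.IsAlgebraic K T] [Algebra (MvPolynomial ι ℂ) T]
    [IsScalarTower (MvPolynomial ι ℂ) K T] [Algebra ℂ T] [IsScalarTower ℂ (MvPolynomial ι ℂ) T]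
    (L : Submodule ℂ (Option ι → ℂ)) (x c : Option ι → A) (hU : IsUniv none L x c)
    (hX : ∀ i, algebraMap (MvPolynomial ι ℂ) A (MvPolynomial.X i) = x (some i) ^ 2 * c (some i))
    (hx0 : ∀ i, x i ≠ 0) (φ ψ : Ω →ₐ[K] T)
    (h : φ (algebraMap A Ω (c none)) = ψ (algebraMap A Ω (c none))) : φ = ψ := by
  classical
  have hmap : ∀ (φ : Ω →ₐ[K] T) (p : MvPolynomial ι ℂ),
      φ (algebraMap A Ω (algebraMap (MvPolynomial ι ℂ) A p)) =
        algebraMap (MvPolynomial ι ℂ) T p := by
    intro φ p
    rw [← IsScalarTower.algebraMap_apply (MvPolynomial ι ℂ) A Ω,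
      IsScalarTower.algebraMap_apply (MvPolynomial ι ℂ) K Ω, AlgHom.commutes,
      ← IsScalarTower.algebraMap_apply (MvPolynomial ι ℂ) K T]
  let g : (Ω →ₐ[K] T) → (A →ₐ[ℂ] T) := fun φ =>
    { (φ : Ω →+* T).comp (algebraMap A Ω) with
      commutes' := by
        intro r
        show φ (algebraMap A Ω (algebraMap ℂ A r)) = algebraMap ℂ T r
        rw [IsScalarTower.algebraMap_apply ℂ (MvPolynomial ι ℂ) A, hmap,
          ← IsScalarTower.algebraMap_apply] }
  have hg : ∀ φ a, g φ a = φ (algebraMap A Ω a) := fun φ a => rfl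
  have hgx : ∀ φ i, g φ (x i) ≠ 0 := by
    intro φ i h0
    rw [hg] at h0
    have h1 : algebraMap A Ω (x i) = 0 := φ.toRingHom.injective (by
      rw [map_zero]; exact h0)
    exact hx0 i (IsFractionRing.injective A Ω (by rw [h1, map_zero]))
  have hgu : ∀ φ (i : ι), g φ (x (some i)) ^ 2 * g φ (c (some i)) =
      algebraMap (MvPolynomial ι ℂ) T (MvPolynomial.X i) := by
    intro φ i
    rw [← map_pow, ← map_mul, ← hX, hg, hmap]
  have key : ∀ (φ : Ω →ₐ[K] T) (v : ι → T) (D : Derivation ℂ T T)
      (_ : ∀ i, D (algebraMap (MvPolynomial ι ℂ) T (MvPolynomial.X i)) = v i),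
      D (g φ (c none)) + ∑ i, (g φ (x (some i)))⁻¹ * v i = 0 := by
    intro φ v D hD
    have hx1 : Ext L (fun i => g φ (x i)) := hU.hx.map (g φ)
    have hc1 : Ext (perp L) (fun i => g φ (c i)) := hU.hc.map (g φ)
    have p1 : ∑ i, D (g φ (x i)) * g φ (c i) = 0 := pairing (hx1.linmap D.toLinearMap) hc1
    have p2 : ∑ i, g φ (x i) * D (g φ (c i)) = 0 := pairing hx1 (hc1.linmap D.toLinearMap)
    have h3 : ∀ i : ι, (g φ (x (some i)))⁻¹ * v i =
        g φ (x (some i)) * D (g φ (c (some i))) + 2 * (D (g φ (x (some i))) * g φ (c (some i))) := by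
      intro i
      rw [← hD i, ← hgu φ i, Derivation.leibniz, Derivation.leibniz_pow]
      simp only [smul_eq_mul, nsmul_eq_mul]
      have := hgx φ (some i)
      field_simp
      push_cast
      ring
    have h4 : D (g φ (c none)) =
        g φ (x none) * D (g φ (c none)) + 2 * (D (g φ (x none)) * g φ (c none)) := by
      rw [hU.hone, map_one, Derivation.map_one_eq_zero]
      ring
    rw [h4]
    simp only [h3]
    rw [Finset.sum_add_distrib, ← Finset.mul_sum]
    rw [Fintype.sum_option] at p1 p2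
    linear_combination p2 + 2 * p1
  have hxeq : ∀ i, g φ (x i) = g ψ (x i) := by
    intro i
    rcases i with _ | i
    · rw [hU.hone, map_one, map_one]
    · obtain ⟨D, hD⟩ := exists_derivation (K := K) (T := T)
        (fun j : ι => if j = i then (1 : T) else 0)
      have h1 := key φ _ D hD
      have h2 := key ψ _ D hD
      rw [hg ψ (c none), ← h, ← hg φ (c none)] at h2
      simp only [mul_ite, mul_one, mul_zero, Finset.sum_ite_eq', Finset.mem_univ, if_true] at h1 h2
      have h3 : (g φ (x (some i)))⁻¹ = (g ψ (x (some i)))⁻¹ := by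
        linear_combination h1 - h2
      exact inv_injective h3
  have hceq : ∀ i, g φ (c i) = g ψ (c i) := by
    intro i
    rcases i with _ | i
    · exact h
    · have h1 := hgu φ i
      have h2 := hgu ψ i
      rw [← h2, hxeq] at h1
      exact mul_left_cancel₀ (pow_ne_zero 2 (hgx ψ (some i))) h1
  have hgeq : g φ = g ψ := hU.hom_ext hxeq hceq
  have h5 : (φ : Ω →+* T) = (ψ : Ω →+* T) := by
    apply IsLocalization.ringHom_ext (nonZeroDivisors A)
    ext a
    exact AlgHom.congr_fun hgeq a
  apply AlgHom.ext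
  intro w
  exact RingHom.congr_fun h5 w

end Pool.Agent.H286R3
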