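import Mathlib
import Pool.Agent.H286R3.LinA
import Pool.Agent.H286R3.Univ

/-!
Deletion and contraction of the element `some none` of `Option (Option ι)`.
-/

namespace Pool.Agent.H286R3

open Module

section
variable {ι : Type} [Fintype ι]

/-- the embedding of the smaller ground set -/
def jj : Option ι → Option (Option ι) := Option.map some

@[simp] theorem jj_none : (jj (none : Option ι)) = none := rfl
@[simp] theorem jj_some (i : ι) : jj (some i) = some (some i) := rfl

theorem jj_injective : Function.Injective (jj : Option ι → Option (Option ι)) :=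
  Option.map_injective (Option.some_injective _)

theorem jj_ne (i : Option ι) : jj i ≠ some none := by
  cases i <;> simp

theorem exists_jj (i : Option (Option ι)) (h : i ≠ some none) : ∃ i', jj i' = i := by
  rcases i with _ | _ | i
  · exact ⟨none, rfl⟩
  · exact absurd rfl h
  · exact ⟨some i, rfl⟩

theorem sum_jj {M : Type*} [AddCommMonoid M] (f : Option (Option ι) → M) :
    ∑ i, f i = ∑ i, f (jj i) + f (some none) := by
  rw [Fintype.sum_option, Fintype.sum_option, Fintype.sum_option]
  simp only [jj_none, jj_some]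
  abel

/-- extension of a vector by a value at the removed element -/
def ext1 {T : Type*} (v : Option ι → T) (a : T) : Option (Option ι) → T
  | none => v none
  | some none => a
  | some (some i) => v (some i)

@[simp] theorem ext1_jj {T : Type*} (v : Option ι → T) (a : T) (i : Option ι) :
    ext1 v a (jj i) = v i := by
  cases i <;> rfl

@[simp] theorem ext1_rem {T : Type*} (v : Option ι → T) (a : T) :
    ext1 v a (some none) = a := rfl

theorem ext1_self {T : Type*} (v : Option (Option ι) → T) :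
    ext1 (fun i => v (jj i)) (v (some none)) = v := by
  funext i
  rcases i with _ | _ | i <;> rfl

/-- deletion -/
def del (L : Submodule ℂ (Option (Option ι) → ℂ)) : Submodule ℂ (Option ι → ℂ) where
  carrier := {v | ∃ z ∈ L, ∀ i, v i = z (jj i)}
  add_mem' := by
    rintro a b ⟨z, hz, h⟩ ⟨w, hw, h'⟩
    exact ⟨z + w, add_mem hz hw, fun i => by simp [h i, h' i]⟩
  zero_mem' := ⟨0, zero_mem _, fun _ => rfl⟩
  smul_mem' := by
    rintro r a ⟨z, hz, h⟩
    exact ⟨r • z, Submodule.smul_mem _ _ hz, fun i => by simp [h i]⟩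

/-- contraction -/
def ctr (L : Submodule ℂ (Option (Option ι) → ℂ)) : Submodule ℂ (Option ι → ℂ) where
  carrier := {v | ext1 v 0 ∈ L}
  add_mem' := by
    intro a b ha hb
    have h : ext1 (a + b) 0 = ext1 a 0 + ext1 b 0 := by
      funext i
      rcases i with _ | _ | i
      · rfl
      · show (0 : ℂ) = 0 + 0
        rw [add_zero]
      · rfl
    show ext1 (a + b) 0 ∈ L
    rw [h]; exact add_mem ha hb
  zero_mem' := by
    have h : ext1 (0 : Option ι → ℂ) 0 = 0 := by
      funext i
      rcases i with _ | _ | i <;> rfl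
    show ext1 (0 : Option ι → ℂ) 0 ∈ L
    rw [h]; exact zero_mem _
  smul_mem' := by
    intro r a ha
    have h : ext1 (r • a) 0 = r • ext1 a 0 := by
      funext i
      rcases i with _ | _ | i
      · rfl
      · show (0 : ℂ) = r * 0
        rw [mul_zero]
      · rfl
    show ext1 (r • a) 0 ∈ L
    rw [h]; exact Submodule.smul_mem _ _ ha

variable {L : Submodule ℂ (Option (Option ι) → ℂ)}

theorem mem_del {v : Option ι → ℂ} : v ∈ del L ↔ ∃ z ∈ L, ∀ i, v i = z (jj i) := Iff.rfl
theorem mem_ctr {v : Option ι → ℂ} : v ∈ ctr L ↔ ext1 v 0 ∈ L := Iff.rfl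

theorem mem_del_of {z : Option (Option ι) → ℂ} (hz : z ∈ L) : (fun i => z (jj i)) ∈ del L :=
  ⟨z, hz, fun _ => rfl⟩

theorem mem_ctr_of {z : Option (Option ι) → ℂ} (hz : z ∈ L) (h0 : z (some none) = 0) :
    (fun i => z (jj i)) ∈ ctr L := by
  rw [mem_ctr, ← h0, ext1_self]; exact hz

theorem perp_del : perp (del L) = ctr (perp L) := by
  ext y
  rw [mem_ctr, mem_perp, mem_perp]
  constructor
  · intro h z hz
    rw [sum_jj]
    simp only [ext1_jj, ext1_rem, zero_mul, add_zero]
    exact h _ (mem_del_of hz)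
  · rintro h v ⟨z, hz, hv⟩
    have h1 := h z hz
    rw [sum_jj] at h1
    simp only [ext1_jj, ext1_rem, zero_mul, add_zero] at h1
    rw [← h1]
    exact Finset.sum_congr rfl fun i _ => by rw [hv i]

theorem perp_ctr : perp (ctr L) = del (perp L) := by
  have h := perp_del (L := perp L)
  rw [perp_perp] at h
  rw [← h, perp_perp]

variable {A : Type} [CommRing A] [Algebra ℂ A] {x c : Option (Option ι) → A}

theorem IsUniv.contract (h : IsUniv none L x c) (hw : ∃ w ∈ L, w (some none) = 1) :
    IsUniv none (ctr L)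
      (fun i => Ideal.Quotient.mk (Ideal.span {x (some none)}) (x (jj i)))
      (fun i => Ideal.Quotient.mk (Ideal.span {x (some none)}) (c (jj i))) := by
  obtain ⟨w, hw, hw1⟩ := hw
  let I : Ideal A := Ideal.span {x (some none)}
  let mk : A →ₐ[ℂ] A ⧸ I := Ideal.Quotient.mkₐ ℂ I
  have hxe : mk (x (some none)) = 0 := by
    show Ideal.Quotient.mk I (x (some none)) = 0
    rw [Ideal.Quotient.eq_zero_iff_mem]
    exact Ideal.subset_span rfl
  have hce : mk (c (some none)) = - ∑ i, w (jj i) • mk (c (jj i)) := by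
    have h1 : ∑ i, w i • mk (c i) = 0 := ext_perp_apply (h.hc.map mk) hw
    rw [sum_jj, hw1, one_smul] at h1
    exact (neg_eq_of_add_eq_zero_right h1).symm
  refine ⟨?_, ?_, ?_, ?_, ?_⟩
  · intro y hy
    rw [perp_ctr] at hy
    obtain ⟨y', hy', hyy⟩ := hy
    have h1 : ∑ i, y' i • mk (x i) = 0 := (h.hx.map mk) y' hy'
    rw [sum_jj, hxe, smul_zero, add_zero] at h1
    refine Eq.trans ?_ h1
    exact Finset.sum_congr rfl fun i _ => by rw [hyy i]; rfl
  · rw [ext_perp_iff]
    intro z hz
    rw [mem_ctr] at hz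
    have h1 : ∑ i, (ext1 z 0) i • mk (c i) = 0 := ext_perp_apply (h.hc.map mk) hz
    rw [sum_jj] at h1
    simp only [ext1_jj, ext1_rem, zero_smul, add_zero] at h1
    exact h1
  · show mk (x none) = 1
    rw [h.hone, map_one]
  · rw [eq_top_iff]
    have h1 : (⊤ : Subalgebra ℂ (A ⧸ I)) = (Algebra.adjoin ℂ (Set.range x ∪ Set.range c)).map mk := by
      rw [h.gen, Algebra.map_top]
      symm
      rw [AlgHom.range_eq_top]
      exact Ideal.Quotient.mk_surjective
    rw [h1, AlgHom.map_adjoin, Algebra.adjoin_le_iff]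
    rintro _ ⟨_, ⟨i, rfl⟩ | ⟨i, rfl⟩, rfl⟩
    · by_cases hi : i = some none
      · rw [hi, hxe]; exact zero_mem _
      · obtain ⟨i', rfl⟩ := exists_jj i hi
        exact Algebra.subset_adjoin (Or.inl ⟨i', rfl⟩)
    · by_cases hi : i = some none
      · rw [hi, hce]
        refine neg_mem (sum_mem fun i' _ => Subalgebra.smul_mem _ ?_ _)
        exact Algebra.subset_adjoin (Or.inr ⟨i', rfl⟩)
      · obtain ⟨i', rfl⟩ := exists_jj i hi
        exact Algebra.subset_adjoin (Or.inr ⟨i', rfl⟩)
  · intro T _ _ x' c' hx' hc' hone'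
    obtain ⟨φ, hφ1, hφ2⟩ := h.univ T (ext1 x' 0) (ext1 c' (- ∑ i, w (jj i) • c' i)) (by
      intro y hy
      rw [sum_jj]
      simp only [ext1_jj, ext1_rem, smul_zero, add_zero]
      apply hx'
      rw [perp_ctr]
      exact mem_del_of hy) (by
      rw [ext_perp_iff]
      intro z hz
      rw [sum_jj]
      simp only [ext1_jj, ext1_rem]
      have h1 : z - z (some none) • w ∈ L := sub_mem hz (Submodule.smul_mem _ _ hw)
      have h2 := mem_ctr_of h1 (by simp [hw1])
      have h3 := ext_perp_apply hc' h2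
      simp only [Pi.sub_apply, Pi.smul_apply, smul_eq_mul, sub_smul,
        Finset.sum_sub_distrib] at h3
      rw [smul_neg, Finset.smul_sum]
      simp only [smul_smul]
      rw [← sub_eq_add_neg]
      exact h3) hone'
    let ψ : (A ⧸ I) →ₐ[ℂ] T := Ideal.Quotient.liftₐ I φ (by
      intro a ha
      obtain ⟨b, rfl⟩ := Ideal.mem_span_singleton'.mp ha
      rw [map_mul, hφ1, ext1_rem, mul_zero])
    refine ⟨ψ, ?_, ?_⟩
    · intro i
      show φ (x (jj i)) = _
      rw [hφ1, ext1_jj]
    · intro i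
      show φ (c (jj i)) = _
      rw [hφ2, ext1_jj]

theorem IsUniv.delete (h : IsUniv none L x c) (hw : ∃ w ∈ perp L, w (some none) = 1) :
    IsUniv none (del L)
      (fun i => Ideal.Quotient.mk (Ideal.span {c (some none)}) (x (jj i)))
      (fun i => Ideal.Quotient.mk (Ideal.span {c (some none)}) (c (jj i))) := by
  obtain ⟨w, hw, hw1⟩ := hw
  let I : Ideal A := Ideal.span {c (some none)}
  let mk : A →ₐ[ℂ] A ⧸ I := Ideal.Quotient.mkₐ ℂ I
  have hce : mk (c (some none)) = 0 := by
    show Ideal.Quotient.mk I (c (some none)) = 0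
    rw [Ideal.Quotient.eq_zero_iff_mem]
    exact Ideal.subset_span rfl
  have hxe : mk (x (some none)) = - ∑ i, w (jj i) • mk (x (jj i)) := by
    have h1 : ∑ i, w i • mk (x i) = 0 := (h.hx.map mk) w hw
    rw [sum_jj, hw1, one_smul] at h1
    exact (neg_eq_of_add_eq_zero_right h1).symm
  refine ⟨?_, ?_, ?_, ?_, ?_⟩
  · intro y hy
    rw [perp_del, mem_ctr] at hy
    have h1 : ∑ i, (ext1 y 0) i • mk (x i) = 0 := (h.hx.map mk) _ hy
    rw [sum_jj] at h1
    simp only [ext1_jj, ext1_rem, zero_smul, add_zero] at h1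
    exact h1
  · rw [ext_perp_iff]
    rintro z ⟨z', hz', hzz⟩
    have h1 : ∑ i, z' i • mk (c i) = 0 := ext_perp_apply (h.hc.map mk) hz'
    rw [sum_jj, hce, smul_zero, add_zero] at h1
    refine Eq.trans ?_ h1
    exact Finset.sum_congr rfl fun i _ => by rw [hzz i]; rfl
  · show mk (x none) = 1
    rw [h.hone, map_one]
  · rw [eq_top_iff]
    have h1 : (⊤ : Subalgebra ℂ (A ⧸ I)) = (Algebra.adjoin ℂ (Set.range x ∪ Set.range c)).map mk := by
      rw [h.gen, Algebra.map_top]
      symm
      rw [AlgHom.range_eq_top]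
      exact Ideal.Quotient.mk_surjective
    rw [h1, AlgHom.map_adjoin, Algebra.adjoin_le_iff]
    rintro _ ⟨_, ⟨i, rfl⟩ | ⟨i, rfl⟩, rfl⟩
    · by_cases hi : i = some none
      · rw [hi, hxe]
        refine neg_mem (sum_mem fun i' _ => Subalgebra.smul_mem _ ?_ _)
        exact Algebra.subset_adjoin (Or.inl ⟨i', rfl⟩)
      · obtain ⟨i', rfl⟩ := exists_jj i hi
        exact Algebra.subset_adjoin (Or.inl ⟨i', rfl⟩)
    · by_cases hi : i = some none
      · rw [hi, hce]; exact zero_mem _
      · obtain ⟨i', rfl⟩ := exists_jj i hi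
        exact Algebra.subset_adjoin (Or.inr ⟨i', rfl⟩)
  · intro T _ _ x' c' hx' hc' hone'
    obtain ⟨φ, hφ1, hφ2⟩ := h.univ T (ext1 x' (- ∑ i, w (jj i) • x' i)) (ext1 c' 0) (by
      intro z hz
      rw [sum_jj]
      simp only [ext1_jj, ext1_rem]
      have h1 : z - z (some none) • w ∈ perp L := sub_mem hz (Submodule.smul_mem _ _ hw)
      have h2 := mem_ctr_of h1 (by simp [hw1])
      rw [← perp_del] at h2
      have h3 := hx' _ h2
      simp only [Pi.sub_apply, Pi.smul_apply, smul_eq_mul, sub_smul,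
        Finset.sum_sub_distrib] at h3
      rw [smul_neg, Finset.smul_sum]
      simp only [smul_smul]
      rw [← sub_eq_add_neg]
      exact h3) (by
      rw [ext_perp_iff]
      intro z hz
      rw [sum_jj]
      simp only [ext1_jj, ext1_rem, smul_zero, add_zero]
      exact ext_perp_apply hc' (mem_del_of hz)) hone'
    let ψ : (A ⧸ I) →ₐ[ℂ] T := Ideal.Quotient.liftₐ I φ (by
      intro a ha
      obtain ⟨b, rfl⟩ := Ideal.mem_span_singleton'.mp ha
      rw [map_mul, hφ2, ext1_rem, mul_zero])
    refine ⟨ψ, ?_, ?_⟩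
    · intro i
      show φ (x (jj i)) = _
      rw [hφ1, ext1_jj]
    · intro i
      show φ (c (jj i)) = _
      rw [hφ2, ext1_jj]

end

end Pool.Agent.H286R3
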