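import Mathlib
import Pool.Agent.H286R3.LinA
import Pool.Agent.H286R3.Minor

/-!
The rank function of a linear subspace, the beta invariant, deletion-contraction.
-/

namespace Pool.Agent.H286R3

open Module

section
variable {E : Type} [Fintype E]

/-- vectors of `L` vanishing on `S` -/
def kerS (L : Submodule ℂ (E → ℂ)) (S : Finset E) : Submodule ℂ (E → ℂ) where
  carrier := {z | z ∈ L ∧ ∀ i ∈ S, z i = 0}
  add_mem' := by
    rintro a b ⟨ha, ha'⟩ ⟨hb, hb'⟩
    exact ⟨add_mem ha hb, fun i hi => by simp [ha' i hi, hb' i hi]⟩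
  zero_mem' := ⟨zero_mem _, fun _ _ => rfl⟩
  smul_mem' := by
    rintro r a ⟨ha, ha'⟩
    exact ⟨Submodule.smul_mem _ _ ha, fun i hi => by simp [ha' i hi]⟩

theorem mem_kerS {L : Submodule ℂ (E → ℂ)} {S : Finset E} {z : E → ℂ} :
    z ∈ kerS L S ↔ z ∈ L ∧ ∀ i ∈ S, z i = 0 := Iff.rfl

/-- the rank of `S` -/
noncomputable def rk (L : Submodule ℂ (E → ℂ)) (S : Finset E) : ℤ :=
  (finrank ℂ L : ℤ) - finrank ℂ (kerS L S)

/-- the beta invariant -/
noncomputable def beta (L : Submodule ℂ (E → ℂ)) : ℤ :=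
  (-1) ^ (finrank ℂ L) * ∑ S : Finset E, (-1) ^ S.card * rk L S

theorem kerS_le (L : Submodule ℂ (E → ℂ)) (S : Finset E) : kerS L S ≤ L := fun _ h => h.1

theorem kerS_anti (L : Submodule ℂ (E → ℂ)) {S T : Finset E} (h : S ⊆ T) :
    kerS L T ≤ kerS L S := fun _ hz => ⟨hz.1, fun i hi => hz.2 i (h hi)⟩

theorem kerS_univ (L : Submodule ℂ (E → ℂ)) : kerS L Finset.univ = ⊥ := by
  rw [eq_bot_iff]
  rintro z ⟨_, hz⟩
  rw [Submodule.mem_bot]
  funext i
  exact hz i (Finset.mem_univ i)

theorem kerS_empty (L : Submodule ℂ (E → ℂ)) : kerS L ∅ = L := by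
  apply le_antisymm (kerS_le _ _)
  intro z hz
  exact ⟨hz, fun i hi => absurd hi (Finset.notMem_empty i)⟩

theorem rk_univ (L : Submodule ℂ (E → ℂ)) : rk L Finset.univ = finrank ℂ L := by
  rw [rk, kerS_univ, finrank_bot, Nat.cast_zero, sub_zero]

theorem rk_empty (L : Submodule ℂ (E → ℂ)) : rk L ∅ = 0 := by
  rw [rk, kerS_empty, sub_self]

theorem rk_nonneg (L : Submodule ℂ (E → ℂ)) (S : Finset E) : 0 ≤ rk L S := by
  have := Submodule.finrank_mono (kerS_le L S)
  rw [rk]; omega

theorem rk_mono (L : Submodule ℂ (E → ℂ)) {S T : Finset E} (h : S ⊆ T) : rk L S ≤ rk L T := by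
  have := Submodule.finrank_mono (kerS_anti L h)
  rw [rk, rk]; omega

theorem rk_submod [DecidableEq E] (L : Submodule ℂ (E → ℂ)) (S T : Finset E) :
    rk L (S ∪ T) + rk L (S ∩ T) ≤ rk L S + rk L T := by
  have h1 := Submodule.finrank_sup_add_finrank_inf_eq (kerS L S) (kerS L T)
  have h2 : kerS L S ⊓ kerS L T = kerS L (S ∪ T) := by
    ext z
    rw [Submodule.mem_inf, mem_kerS, mem_kerS, mem_kerS]
    constructor
    · rintro ⟨⟨a, b⟩, ⟨_, d⟩⟩
      refine ⟨a, fun i hi => ?_⟩
      rcases Finset.mem_union.mp hi with h | h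
      · exact b i h
      · exact d i h
    · rintro ⟨a, b⟩
      exact ⟨⟨a, fun i hi => b i (Finset.mem_union_left _ hi)⟩,
        ⟨a, fun i hi => b i (Finset.mem_union_right _ hi)⟩⟩
  have h3 : kerS L S ⊔ kerS L T ≤ kerS L (S ∩ T) :=
    sup_le (kerS_anti L Finset.inter_subset_left) (kerS_anti L Finset.inter_subset_right)
  have h4 := Submodule.finrank_mono h3
  rw [h2] at h1
  rw [rk, rk, rk, rk]
  omega

/-- adding an element raises the rank by at most one -/
theorem rk_insert_le [DecidableEq E] (L : Submodule ℂ (E → ℂ)) (S : Finset E) (e : E) :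
    rk L (insert e S) ≤ rk L S + rk L {e} := by
  have h := rk_submod L S {e}
  have h1 : S ∪ {e} = insert e S := by
    ext i; simp [or_comm]
  rw [h1] at h
  have := rk_nonneg L (S ∩ {e})
  omega

theorem kerS_insert [DecidableEq E] (L : Submodule ℂ (E → ℂ)) (S : Finset E) (e : E) {z : E → ℂ} :
    z ∈ kerS L (insert e S) ↔ z ∈ kerS L S ∧ z e = 0 := by
  rw [mem_kerS, mem_kerS]
  simp only [Finset.mem_insert, forall_eq_or_imp]
  tauto

/-- loop: adding it does not change the rank -/
theorem rk_insert_loop [DecidableEq E] (L : Submodule ℂ (E → ℂ)) (S : Finset E) (e : E)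
    (he : ∀ z ∈ L, z e = 0) : rk L (insert e S) = rk L S := by
  have : kerS L (insert e S) = kerS L S := by
    ext z
    rw [kerS_insert]
    exact ⟨fun h => h.1, fun h => ⟨h, he z h.1⟩⟩
  rw [rk, rk, this]

/-- a subspace cut by one nonzero coordinate drops dimension by one -/
theorem finrank_cut (K K' : Submodule ℂ (E → ℂ)) (e : E)
    (hK : ∀ z, z ∈ K' ↔ z ∈ K ∧ z e = 0) (hw : ∃ w ∈ K, w e = 1) :
    (finrank ℂ K : ℤ) = finrank ℂ K' + 1 := by
  obtain ⟨w, hw, hw1⟩ := hw
  let f : K →ₗ[ℂ] ℂ := (LinearMap.proj e : (E → ℂ) →ₗ[ℂ] ℂ).comp K.subtype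
  have h1 := LinearMap.finrank_range_add_finrank_ker f
  have h2 : LinearMap.range f = ⊤ := by
    rw [LinearMap.range_eq_top]
    intro a
    exact ⟨a • ⟨w, hw⟩, by simp [f, hw1]⟩
  have h3 : finrank ℂ (LinearMap.ker f) = finrank ℂ K' := by
    have h4 : Submodule.map K.subtype (LinearMap.ker f) = K' := by
      ext z
      rw [Submodule.mem_map, hK]
      constructor
      · rintro ⟨⟨v, hv⟩, hv2, rfl⟩
        exact ⟨hv, by simpa [f] using hv2⟩
      · rintro ⟨hz, hz0⟩
        exact ⟨⟨z, hz⟩, by simpa [f] using hz0, rfl⟩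
    rw [← h4]
    exact (Submodule.equivMapOfInjective K.subtype K.injective_subtype
      (LinearMap.ker f)).finrank_eq
  rw [h2, finrank_top, finrank_self, h3] at h1
  omega

/-- coloop: adding it raises the rank by one -/
theorem rk_insert_coloop [DecidableEq E] (L : Submodule ℂ (E → ℂ)) (S : Finset E) (e : E)
    (heS : e ∉ S) (he : ∃ z ∈ L, z e = 1 ∧ ∀ i, i ≠ e → z i = 0) :
    rk L (insert e S) = rk L S + 1 := by
  obtain ⟨z, hz, hz1, hz2⟩ := he
  have := finrank_cut (kerS L S) (kerS L (insert e S)) e (fun z => kerS_insert L S e)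
    ⟨z, ⟨hz, fun i hi => hz2 i (by rintro rfl; exact heS hi)⟩, hz1⟩
  rw [rk, rk]
  omega

theorem sum_subsets [DecidableEq E] (f : Finset E → ℤ) (e : E) :
    ∑ S, f S = ∑ S ∈ (Finset.univ.erase e).powerset, (f S + f (insert e S)) := by
  have h1 : (Finset.univ : Finset (Finset E)) = (insert e (Finset.univ.erase e)).powerset := by
    rw [Finset.insert_erase (Finset.mem_univ e), Finset.powerset_univ]
  rw [h1, Finset.sum_powerset_insert (Finset.notMem_erase e _), Finset.sum_add_distrib]

theorem card_ins [DecidableEq E] {S : Finset E} {e : E} (h : S ∈ (Finset.univ.erase e).powerset) :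
    (-1 : ℤ) ^ (insert e S).card = - (-1) ^ S.card := by
  have h1 : e ∉ S := fun h2 => by
    have := (Finset.mem_powerset.mp h) h2
    exact (Finset.mem_erase.mp this).1 rfl
  rw [Finset.card_insert_of_notMem h1, pow_succ]
  ring

theorem beta_loop [DecidableEq E] (L : Submodule ℂ (E → ℂ)) (e : E)
    (he : ∀ z ∈ L, z e = 0) : beta L = 0 := by
  rw [beta, sum_subsets _ e]
  rw [Finset.sum_eq_zero, mul_zero]
  intro S hS
  rw [card_ins hS, rk_insert_loop L S e he]
  ring

theorem alt_sum [DecidableEq E] (e o : E) (h : o ≠ e) :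
    ∑ S ∈ (Finset.univ.erase e).powerset, (-1 : ℤ) ^ S.card = 0 := by
  apply Finset.sum_powerset_neg_one_pow_card_of_nonempty
  exact ⟨o, Finset.mem_erase.mpr ⟨h, Finset.mem_univ _⟩⟩

theorem beta_coloop [DecidableEq E] (L : Submodule ℂ (E → ℂ)) (e o : E) (h : o ≠ e)
    (he : ∃ z ∈ L, z e = 1 ∧ ∀ i, i ≠ e → z i = 0) : beta L = 0 := by
  rw [beta, sum_subsets _ e]
  have : ∑ S ∈ (Finset.univ.erase e).powerset, ((-1) ^ S.card * rk L S +
      (-1) ^ (insert e S).card * rk L (insert e S)) =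
      ∑ S ∈ (Finset.univ.erase e).powerset, - (-1 : ℤ) ^ S.card := by
    refine Finset.sum_congr rfl fun S hS => ?_
    have h1 : e ∉ S := fun h2 => by
      have := (Finset.mem_powerset.mp hS) h2
      exact (Finset.mem_erase.mp this).1 rfl
    rw [card_ins hS, rk_insert_coloop L S e h1 he]
    ring
  rw [this, Finset.sum_neg_distrib, alt_sum e o h, neg_zero, mul_zero]

end

section
variable {ι : Type} [Fintype ι] [DecidableEq ι] (L : Submodule ℂ (Option (Option ι) → ℂ))

/-- the embedding of subsets -/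
def jS (S : Finset (Option ι)) : Finset (Option (Option ι)) := S.map ⟨jj, jj_injective⟩

omit [DecidableEq ι] in
theorem mem_jS {S : Finset (Option ι)} {i : Option (Option ι)} :
    i ∈ jS S ↔ ∃ i' ∈ S, jj i' = i := by
  simp [jS]

omit [DecidableEq ι] in
theorem card_jS (S : Finset (Option ι)) : (jS S).card = S.card := Finset.card_map _

omit [DecidableEq ι] in
theorem notMem_jS (S : Finset (Option ι)) : some none ∉ jS S := by
  rw [mem_jS]
  rintro ⟨i, _, h⟩
  exact jj_ne i h

omit [DecidableEq ι] in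
/-- `L → del L` is injective when the removed element is not a coloop -/
theorem finrank_del_aux (K : Submodule ℂ (Option (Option ι) → ℂ))
    (K' : Submodule ℂ (Option ι → ℂ)) (hK : ∀ v, v ∈ K' ↔ ∃ z ∈ K, ∀ i, v i = z (jj i))
    (hinj : ∀ z ∈ K, (∀ i, z (jj i) = 0) → z (some none) = 0) :
    finrank ℂ K' = finrank ℂ K := by
  let f : K →ₗ[ℂ] (Option ι → ℂ) :=
    (LinearMap.funLeft ℂ ℂ (jj : Option ι → Option (Option ι))).comp K.subtype
  have h1 : LinearMap.range f = K' := by
    ext v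
    rw [LinearMap.mem_range, hK]
    constructor
    · rintro ⟨⟨z, hz⟩, rfl⟩
      exact ⟨z, hz, fun _ => rfl⟩
    · rintro ⟨z, hz, h⟩
      exact ⟨⟨z, hz⟩, by funext i; exact (h i).symm⟩
  have h2 : Function.Injective f := by
    rw [← LinearMap.ker_eq_bot, eq_bot_iff]
    rintro ⟨z, hz⟩ hz0
    rw [LinearMap.mem_ker] at hz0
    have h3 : ∀ i, z (jj i) = 0 := fun i => congrFun hz0 i
    have h4 := hinj z hz h3
    rw [Submodule.mem_bot]
    apply Subtype.ext
    funext i
    by_cases hi : i = some none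
    · rw [hi]; exact h4
    · obtain ⟨i', rfl⟩ := exists_jj i hi
      exact h3 i'
  rw [← h1, LinearMap.finrank_range_of_inj h2]

omit [DecidableEq ι] in
theorem finrank_del (hco : ∀ z ∈ L, (∀ i, i ≠ some none → z i = 0) → z (some none) = 0) :
    finrank ℂ (del L) = finrank ℂ L := by
  apply finrank_del_aux L (del L) (fun v => mem_del)
  intro z hz h
  apply hco z hz
  intro i hi
  obtain ⟨i', rfl⟩ := exists_jj i hi
  exact h i'

omit [DecidableEq ι] in
theorem rk_del (hco : ∀ z ∈ L, (∀ i, i ≠ some none → z i = 0) → z (some none) = 0)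
    (S : Finset (Option ι)) : rk (del L) S = rk L (jS S) := by
  rw [rk, rk, finrank_del L hco]
  congr 2
  apply finrank_del_aux (kerS L (jS S)) (kerS (del L) S)
  · intro v
    rw [mem_kerS, mem_del]
    constructor
    · rintro ⟨⟨z, hz, h⟩, h2⟩
      refine ⟨z, ⟨hz, fun i hi => ?_⟩, h⟩
      obtain ⟨i', hi', rfl⟩ := mem_jS.mp hi
      rw [← h i', h2 i' hi']
    · rintro ⟨z, ⟨hz, h2⟩, h⟩
      refine ⟨⟨z, hz, h⟩, fun i hi => ?_⟩
      rw [h i]
      exact h2 _ (mem_jS.mpr ⟨i, hi, rfl⟩)
  · intro z hz h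
    apply hco z hz.1
    intro i hi
    obtain ⟨i', rfl⟩ := exists_jj i hi
    exact h i'

theorem finrank_ctr_aux (S : Finset (Option ι)) :
    finrank ℂ (kerS (ctr L) S) = finrank ℂ (kerS L (insert (some none) (jS S))) := by
  apply finrank_del_aux (kerS L (insert (some none) (jS S))) (kerS (ctr L) S)
  · intro v
    rw [mem_kerS, mem_ctr]
    constructor
    · rintro ⟨h, h2⟩
      refine ⟨ext1 v 0, ?_, fun i => by simp⟩
      rw [mem_kerS]
      refine ⟨h, fun i hi => ?_⟩
      rcases Finset.mem_insert.mp hi with rfl | hi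
      · rfl
      · obtain ⟨i', hi', rfl⟩ := mem_jS.mp hi
        rw [ext1_jj, h2 i' hi']
    · rintro ⟨z, ⟨hz, h2⟩, h⟩
      have h3 : v = fun i => z (jj i) := funext h
      have h4 : z (some none) = 0 := h2 _ (Finset.mem_insert_self _ _)
      refine ⟨?_, fun i hi => ?_⟩
      · rw [h3, ← h4, ext1_self]; exact hz
      · rw [h i]
        exact h2 _ (Finset.mem_insert_of_mem (mem_jS.mpr ⟨i, hi, rfl⟩))
  · intro z hz _
    exact hz.2 _ (Finset.mem_insert_self _ _)

omit [DecidableEq ι] in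
theorem finrank_ctr (hw : ∃ w ∈ L, w (some none) = 1) :
    (finrank ℂ L : ℤ) = finrank ℂ (ctr L) + 1 := by
  classical
  have h1 := finrank_ctr_aux L ∅
  rw [kerS_empty] at h1
  rw [h1]
  apply finrank_cut L _ (some none) _ hw
  intro z
  rw [kerS_insert]
  have : jS (∅ : Finset (Option ι)) = ∅ := by simp [jS]
  rw [this, kerS_empty]

theorem rk_ctr (hw : ∃ w ∈ L, w (some none) = 1) (S : Finset (Option ι)) :
    rk (ctr L) S = rk L (insert (some none) (jS S)) - 1 := by
  rw [rk, rk, finrank_ctr_aux, finrank_ctr L hw]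
  ring

theorem sum_jS (f : Finset (Option (Option ι)) → ℤ) :
    ∑ S ∈ (Finset.univ.erase (some none)).powerset, f S = ∑ S : Finset (Option ι), f (jS S) := by
  symm
  refine Finset.sum_bij (fun S _ => jS S) ?_ ?_ ?_ ?_
  · intro S _
    rw [Finset.mem_powerset]
    intro i hi
    rw [Finset.mem_erase]
    refine ⟨?_, Finset.mem_univ _⟩
    rintro rfl
    exact notMem_jS S hi
  · intro S _ T _ h
    exact Finset.map_injective _ h
  · intro S hS
    rw [Finset.mem_powerset] at hS
    have h1 : S ⊆ (Finset.univ : Finset (Option ι)).map ⟨jj, jj_injective⟩ := by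
      intro i hi
      have h2 := (Finset.mem_erase.mp (hS hi)).1
      obtain ⟨i', rfl⟩ := exists_jj i h2
      simp
    obtain ⟨u, _, hu⟩ := Finset.subset_map_iff.mp h1
    exact ⟨u, Finset.mem_univ _, hu.symm⟩
  · intro S _
    rfl

/-- deletion-contraction for the beta invariant -/
theorem beta_rec (hco : ∀ z ∈ L, (∀ i, i ≠ some none → z i = 0) → z (some none) = 0)
    (hw : ∃ w ∈ L, w (some none) = 1) : beta L = beta (del L) + beta (ctr L) := by
  have h1 : ∑ S : Finset (Option (Option ι)), (-1) ^ S.card * rk L S =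
      ∑ S : Finset (Option ι), (-1) ^ S.card * rk (del L) S -
      ∑ S : Finset (Option ι), (-1) ^ S.card * rk (ctr L) S := by
    rw [sum_subsets _ (some none)]
    have h2 : ∀ S ∈ (Finset.univ.erase (some none : Option (Option ι))).powerset,
        ((-1) ^ S.card * rk L S + (-1) ^ (insert (some none) S).card *
          rk L (insert (some none) S)) =
        ((-1) ^ S.card * rk L S - (-1) ^ S.card * rk L (insert (some none) S)) := by
      intro S hS
      rw [card_ins hS]; ring
    rw [Finset.sum_congr rfl h2, sum_jS]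
    have h3 : ∀ S : Finset (Option ι), ((-1) ^ (jS S).card * rk L (jS S) -
        (-1) ^ (jS S).card * rk L (insert (some none) (jS S))) =
        ((-1) ^ S.card * rk (del L) S - (-1) ^ S.card * rk (ctr L) S) - (-1) ^ S.card := by
      intro S
      rw [rk_del L hco, rk_ctr L hw, card_jS]
      ring
    rw [Finset.sum_congr rfl (fun S _ => h3 S), Finset.sum_sub_distrib, Finset.sum_sub_distrib]
    have h4 : ∑ S : Finset (Option ι), (-1 : ℤ) ^ S.card = 0 := by
      rw [← Finset.powerset_univ]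
      apply Finset.sum_powerset_neg_one_pow_card_of_nonempty
      exact ⟨none, Finset.mem_univ _⟩
    rw [h4, sub_zero]
  rw [beta, h1, beta, beta, finrank_del L hco]
  have h5 : finrank ℂ L = finrank ℂ (ctr L) + 1 := by
    have := finrank_ctr L hw
    omega
  rw [h5, pow_succ]
  ring

end

end Pool.Agent.H286R3
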