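import Mathlib

/-!
Rank of an algebra over `R'[X]` which is finite over the localization at the prime `(X)`:
it equals the rank over `R'` of the fibre at `X = 0`.
-/

namespace Pool.Agent.H286R3

open Module Polynomial

section

variable {R' A : Type} [CommRing R'] [IsDomain R'] [CommRing A] [IsDomain A]
    [Algebra R' A] [Algebra R'[X] A] [IsScalarTower R' R'[X] A]

/-- the ideal generated by the image of `X` -/
abbrev tIdeal (R' A : Type) [CommRing R'] [CommRing A] [Algebra R'[X] A] : Ideal A :=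
  Ideal.span {algebraMap R'[X] A X}

theorem poly_decomp (f : R'[X]) : ∃ g : R'[X], f = C (f.coeff 0) + X * g := by
  refine ⟨f.divX, ?_⟩
  conv_lhs => rw [← Polynomial.X_mul_divX_add f]
  ring

theorem smul_mod (f : R'[X]) (a : A) :
    Submodule.Quotient.mk (p := tIdeal R' A) (f • a) =
      (f.coeff 0) • (Submodule.Quotient.mk (p := tIdeal R' A) a) := by
  obtain ⟨g, hg⟩ := poly_decomp f
  have h1 : f • a = (f.coeff 0) • a + algebraMap R'[X] A X * (g • a) := by
    conv_lhs => rw [hg]
    rw [add_smul, mul_smul, Algebra.smul_def X, ← Polynomial.algebraMap_eq, algebraMap_smul]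
  rw [h1, Submodule.Quotient.mk_add]
  have h2 : Submodule.Quotient.mk (p := tIdeal R' A) (algebraMap R'[X] A X * (g • a)) = 0 := by
    rw [Submodule.Quotient.mk_eq_zero]
    exact Ideal.mul_mem_right _ _ (Ideal.subset_span rfl)
  rw [h2, add_zero]
  rfl

theorem rank_fibre_noninj (ht : algebraMap R'[X] A X ≠ 0)
    (hni : ¬ Function.Injective (algebraMap R'[X] A)) :
    Module.rank R'[X] A = 0 ∧ Module.rank R' (A ⧸ tIdeal R' A) = 0 := by
  rw [injective_iff_map_eq_zero] at hni
  push Not at hni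
  obtain ⟨f, hf, hf0⟩ := hni
  obtain ⟨g, hg, hd⟩ := Polynomial.exists_eq_pow_rootMultiplicity_mul_and_not_dvd f hf0 0
  rw [C_0, sub_zero] at hg hd
  have hgt : algebraMap R'[X] A g = 0 := by
    rw [hg, map_mul, map_pow] at hf
    rcases mul_eq_zero.mp hf with h | h
    · exact absurd (eq_zero_of_pow_eq_zero h) ht
    · exact h
  have hg0 : g.coeff 0 ≠ 0 := by
    intro h
    exact hd (Polynomial.X_dvd_iff.mpr h)
  constructor
  · rw [rank_eq_zero_iff]
    intro a
    refine ⟨g, ?_, ?_⟩
    · rintro rfl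
      exact hg0 (by simp)
    · rw [Algebra.smul_def, hgt, zero_mul]
  · rw [rank_eq_zero_iff]
    intro q
    obtain ⟨a, rfl⟩ := Submodule.Quotient.mk_surjective _ q
    refine ⟨g.coeff 0, hg0, ?_⟩
    rw [← smul_mod, Algebra.smul_def, hgt, zero_mul]
    rfl

theorem linInd_lift (ht : algebraMap R'[X] A X ≠ 0) {m : ℕ} (b : Fin m → A)
    (hb : LinearIndependent R' (fun i => Submodule.Quotient.mk (p := tIdeal R' A) (b i))) :
    LinearIndependent R'[X] b := by
  rw [Fintype.linearIndependent_iff] at hb ⊢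
  intro f hf
  have key : ∀ n : ℕ, ∀ i, X ^ n ∣ f i := by
    intro n
    induction n with
    | zero => intro i; simp
    | succ n ih =>
      choose g hg using ih
      have h1 : ∑ i, g i • b i = 0 := by
        have h2 : (algebraMap R'[X] A X) ^ n * ∑ i, g i • b i = 0 := by
          rw [← hf, Finset.mul_sum]
          refine Finset.sum_congr rfl fun i _ => ?_
          rw [hg i, mul_smul, Algebra.smul_def (X ^ n), map_pow]
        rcases mul_eq_zero.mp h2 with h | h
        · exact absurd (eq_zero_of_pow_eq_zero h) ht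
        · exact h
      have h2 : ∑ i, (g i).coeff 0 • Submodule.Quotient.mk (p := tIdeal R' A) (b i) = 0 := by
        have h3 := congrArg (Submodule.Quotient.mk (p := tIdeal R' A)) h1
        rw [← Submodule.mkQ_apply, map_sum] at h3
        simp only [Submodule.mkQ_apply, smul_mod] at h3
        rw [h3]
        rfl
      intro i
      have h4 := hb _ h2 i
      obtain ⟨h, hh⟩ := Polynomial.X_dvd_iff.mpr h4
      refine ⟨h, ?_⟩
      rw [hg i, hh]
      ring
  intro i
  ext n
  have := key (n + 1) i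
  rw [Polynomial.X_pow_dvd_iff] at this
  rw [this n (Nat.lt_succ_self n), Polynomial.coeff_zero]

variable {Ω : Type} [Field Ω] [Algebra A Ω] [Algebra R'[X] Ω] [IsScalarTower R'[X] A Ω]

/-- the subring of fractions with denominators of nonzero constant term -/
def locSub (R' Ω : Type) [CommRing R'] [IsDomain R'] [Field Ω] [Algebra R'[X] Ω] : Subring Ω where
  carrier := {a | ∃ r s : R'[X], s.coeff 0 ≠ 0 ∧ a * algebraMap R'[X] Ω s = algebraMap R'[X] Ω r}
  mul_mem' := by
    rintro a b ⟨r, s, hs, h⟩ ⟨r', s', hs', h'⟩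
    refine ⟨r * r', s * s', ?_, ?_⟩
    · rw [Polynomial.mul_coeff_zero]; exact mul_ne_zero hs hs'
    · rw [map_mul, map_mul, ← h, ← h']; ring
  one_mem' := ⟨1, 1, by simp, by simp⟩
  add_mem' := by
    rintro a b ⟨r, s, hs, h⟩ ⟨r', s', hs', h'⟩
    refine ⟨r * s' + r' * s, s * s', ?_, ?_⟩
    · rw [Polynomial.mul_coeff_zero]; exact mul_ne_zero hs hs'
    · rw [map_mul, map_add, map_mul, map_mul, ← h, ← h']; ring
  zero_mem' := ⟨0, 1, by simp, by simp⟩
  neg_mem' := by
    rintro a ⟨r, s, hs, h⟩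
    exact ⟨-r, s, hs, by rw [map_neg, ← h]; ring⟩

theorem mem_locSub {a : Ω} : a ∈ locSub R' Ω ↔
    ∃ r s : R'[X], s.coeff 0 ≠ 0 ∧ a * algebraMap R'[X] Ω s = algebraMap R'[X] Ω r := Iff.rfl

theorem algebraMap_mem_locSub (p : R'[X]) : algebraMap R'[X] Ω p ∈ locSub R' Ω :=
  ⟨p, 1, by simp, by simp⟩

theorem isIntegral_of_val (g : Ω)
    (hg : ∀ V : ValuationSubring Ω, (locSub R' Ω : Set Ω) ⊆ V → g ∈ V) :
    IsIntegral (locSub R' Ω) g := by
  have h1 : g ∈ (integralClosure (locSub R' Ω) Ω).toSubring := by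
    have h2 := iInf_valuationSubring_superset (K := Ω) (s := (locSub R' Ω : Set Ω))
    rw [Subring.closure_eq] at h2
    rw [← h2, Subring.mem_iInf]
    rintro ⟨V, hV⟩
    exact hg V hV
  exact h1

open scoped Pointwise in
theorem rank_fibre_inj (hAΩ : Function.Injective (algebraMap A Ω))
    (ht : algebraMap R'[X] A X ≠ 0)
    (hinj : Function.Injective (algebraMap R'[X] A))
    (s : Set A) (hsf : s.Finite) (hs : Algebra.adjoin R'[X] s = ⊤)
    (hint : ∀ g ∈ s, ∀ V : ValuationSubring Ω, (locSub R' Ω : Set Ω) ⊆ V → algebraMap A Ω g ∈ V)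
    (m : ℕ) (hm : Module.rank R' (A ⧸ tIdeal R' A) = m) :
    Module.rank R'[X] A = m := by
  classical
  have hRΩ : Function.Injective (algebraMap R'[X] Ω) := by
    rw [IsScalarTower.algebraMap_eq R'[X] A Ω]
    exact hAΩ.comp hinj
  have hne : ∀ p : R'[X], p ≠ 0 → algebraMap R'[X] Ω p ≠ 0 := by
    intro p hp h
    exact hp (hRΩ (by rw [h, map_zero]))
  have hne' : ∀ p : R'[X], p.coeff 0 ≠ 0 → algebraMap R'[X] Ω p ≠ 0 := by
    intro p hp
    apply hne
    rintro rfl
    exact hp (by simp)
  have hinvmem : ∀ p : R'[X], p.coeff 0 ≠ 0 → (algebraMap R'[X] Ω p)⁻¹ ∈ locSub R' Ω := by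
    intro p hp
    exact ⟨1, p, hp, by rw [inv_mul_cancel₀ (hne' p hp), map_one]⟩
  -- lifts of a maximal independent family
  obtain ⟨bbar, hbbar⟩ := exists_linearIndependent_of_le_rank (R := R')
    (M := A ⧸ tIdeal R' A) (n := m) hm.ge
  choose b hb using fun i => Submodule.Quotient.mk_surjective _ (bbar i)
  have hbb : (fun i => Submodule.Quotient.mk (p := tIdeal R' A) (b i)) = bbar := funext hb
  have hbind : LinearIndependent R'[X] b := by
    apply linInd_lift ht
    rw [hbb]; exact hbbar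
  -- torsion quotient
  have htors : ∀ a : A, ∃ f : R', f ≠ 0 ∧ f • Submodule.Quotient.mk (p := tIdeal R' A) a ∈
      Submodule.span R' (Set.range bbar) := by
    intro a
    have h1 := rank_quotient_add_rank_of_isDomain (R := R') (Submodule.span R' (Set.range bbar))
    rw [hm, rank_span hbbar, Cardinal.mk_range_eq bbar hbbar.injective, Cardinal.mk_fin] at h1
    have h2 : Module.rank R' ((A ⧸ tIdeal R' A) ⧸ Submodule.span R' (Set.range bbar)) = 0 := by
      have h3 : Module.rank R' ((A ⧸ tIdeal R' A) ⧸ Submodule.span R' (Set.range bbar)) ≤ m := by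
        rw [← h1]; exact le_self_add
      obtain ⟨q, hq⟩ := Cardinal.lt_aleph0.mp (lt_of_le_of_lt h3 (Cardinal.natCast_lt_aleph0))
      rw [hq] at h1 ⊢
      have h4 : q + m = m := by exact_mod_cast h1
      have h5 : q = 0 := by omega
      rw [h5, Nat.cast_zero]
    rw [rank_eq_zero_iff] at h2
    obtain ⟨f, hf, hf2⟩ := h2 (Submodule.Quotient.mk (Submodule.Quotient.mk a))
    refine ⟨f, hf, ?_⟩
    rw [← Submodule.Quotient.mk_smul, Submodule.Quotient.mk_eq_zero] at hf2
    exact hf2
  have htors' : ∀ a : A, ∃ (f : R') (g : Fin m → R') (a' : A), f ≠ 0 ∧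
      (C f : R'[X]) • a = ∑ i, (C (g i) : R'[X]) • b i + algebraMap R'[X] A X * a' := by
    intro a
    obtain ⟨f, hf, h1⟩ := htors a
    obtain ⟨g, hg⟩ := (Submodule.mem_span_range_iff_exists_fun R').mp h1
    have h2 : Submodule.Quotient.mk (p := tIdeal R' A)
        ((C f : R'[X]) • a - ∑ i, (C (g i) : R'[X]) • b i) = 0 := by
      rw [Submodule.Quotient.mk_sub, smul_mod, Polynomial.coeff_C_zero, ← hg]
      have h3 : Submodule.Quotient.mk (p := tIdeal R' A) (∑ i, (C (g i) : R'[X]) • b i) =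
          ∑ i, g i • bbar i := by
        rw [← Submodule.mkQ_apply, map_sum]
        refine Finset.sum_congr rfl fun i _ => ?_
        rw [Submodule.mkQ_apply, smul_mod, Polynomial.coeff_C_zero, hb i]
      rw [h3, sub_self]
    rw [Submodule.Quotient.mk_eq_zero, Ideal.mem_span_singleton'] at h2
    obtain ⟨a', ha'⟩ := h2
    refine ⟨f, g, a', hf, ?_⟩
    rw [mul_comm, ha']
    ring
  -- the subalgebra B
  let O := locSub R' Ω
  let B : Subalgebra O Ω :=
    { carrier := {w | ∃ (a : A) (p : R'[X]), p.coeff 0 ≠ 0 ∧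
        w * algebraMap R'[X] Ω p = algebraMap A Ω a}
      mul_mem' := by
        rintro w w' ⟨a, p, hp, h⟩ ⟨a', p', hp', h'⟩
        refine ⟨a * a', p * p', ?_, ?_⟩
        · rw [Polynomial.mul_coeff_zero]; exact mul_ne_zero hp hp'
        · rw [map_mul, map_mul, ← h, ← h']; ring
      add_mem' := by
        rintro w w' ⟨a, p, hp, h⟩ ⟨a', p', hp', h'⟩
        refine ⟨a * algebraMap R'[X] A p' + a' * algebraMap R'[X] A p, p * p', ?_, ?_⟩
        · rw [Polynomial.mul_coeff_zero]; exact mul_ne_zero hp hp'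
        · rw [map_mul, map_add, map_mul, map_mul, ← h, ← h', ← IsScalarTower.algebraMap_apply,
            ← IsScalarTower.algebraMap_apply]; ring
      algebraMap_mem' := by
        rintro ⟨w, r, p, hp, h⟩
        refine ⟨algebraMap R'[X] A r, p, hp, ?_⟩
        rw [← IsScalarTower.algebraMap_apply]
        exact h }
  have hBmem : ∀ w : Ω, w ∈ B ↔ ∃ (a : A) (p : R'[X]), p.coeff 0 ≠ 0 ∧
        w * algebraMap R'[X] Ω p = algebraMap A Ω a := fun w => Iff.rfl
  have hAB : ∀ a : A, algebraMap A Ω a ∈ B := fun a => ⟨a, 1, by simp, by simp⟩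
  have hBadj : B = Algebra.adjoin O (algebraMap A Ω '' s) := by
    apply le_antisymm
    · have h1 : ∀ a : A, algebraMap A Ω a ∈ Algebra.adjoin O (algebraMap A Ω '' s) := by
        intro a
        have ha : a ∈ Algebra.adjoin R'[X] s := by rw [hs]; trivial
        induction ha using Algebra.adjoin_induction with
        | mem x hx => exact Algebra.subset_adjoin ⟨x, hx, rfl⟩
        | algebraMap r =>
          rw [← IsScalarTower.algebraMap_apply]
          exact Subalgebra.algebraMap_mem (Algebra.adjoin O (algebraMap A Ω '' s))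
            (⟨_, algebraMap_mem_locSub r⟩ : O)
        | add x y _ _ hx hy => rw [map_add]; exact add_mem hx hy
        | mul x y _ _ hx hy => rw [map_mul]; exact mul_mem hx hy
      rintro w ⟨a, p, hp, h⟩
      have h2 : w = (⟨_, hinvmem p hp⟩ : O) • algebraMap A Ω a := by
        rw [← h]
        show w = (algebraMap R'[X] Ω p)⁻¹ * (w * algebraMap R'[X] Ω p)
        have := hne' p hp
        field_simp
      rw [h2]
      exact Subalgebra.smul_mem _ (h1 a) _
    · apply Algebra.adjoin_le
      rintro _ ⟨a, _, rfl⟩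
      exact hAB a
  have hBfg : (Subalgebra.toSubmodule B).FG := by
    rw [hBadj]
    apply fg_adjoin_of_finite (hsf.image _)
    rintro _ ⟨g, hg, rfl⟩
    exact isIntegral_of_val _ (hint g hg)
  let N : Submodule O Ω := Submodule.span O (Set.range fun i => algebraMap A Ω (b i))
  let t : O := ⟨_, algebraMap_mem_locSub X⟩
  have hjac : Ideal.span {t} ≤ Ideal.jacobson (⊥ : Ideal O) := by
    rw [Ideal.span_le, Set.singleton_subset_iff]
    show t ∈ Ideal.jacobson (⊥ : Ideal O)
    rw [Ideal.mem_jacobson_bot]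
    rintro ⟨w, r, p, hp, h⟩
    have hc : (p + X * r).coeff 0 ≠ 0 := by
      rw [Polynomial.coeff_add, Polynomial.mul_coeff_zero, Polynomial.coeff_X_zero, zero_mul,
        add_zero]
      exact hp
    have h1 : algebraMap R'[X] Ω (p + X * r) ≠ 0 := hne' _ hc
    have h2 : (algebraMap R'[X] Ω X * w + 1) * algebraMap R'[X] Ω p =
        algebraMap R'[X] Ω (p + X * r) := by
      rw [map_add, map_mul, ← h]; ring
    have hw : algebraMap R'[X] Ω X * w + 1 ≠ 0 := by
      intro h0
      rw [h0, zero_mul] at h2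
      exact h1 h2.symm
    have h3 : (algebraMap R'[X] Ω X * w + 1)⁻¹ ∈ locSub R' Ω := by
      refine ⟨p, p + X * r, hc, ?_⟩
      rw [← h2]
      field_simp
    refine isUnit_iff_exists_inv.mpr ⟨⟨_, h3⟩, ?_⟩
    apply Subtype.ext
    exact mul_inv_cancel₀ hw
  have hNak : Subalgebra.toSubmodule B ≤ N := by
    refine Submodule.le_of_le_smul_of_le_jacobson_bot hBfg hjac ?_
    rintro w ⟨a, p, hp, h⟩
    obtain ⟨f, g, a', hf, h1⟩ := htors' a
    have hCf : (C f : R'[X]).coeff 0 ≠ 0 := by rwa [Polynomial.coeff_C_zero]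
    have h2 := congrArg (algebraMap A Ω) h1
    rw [map_add, map_sum, map_mul, ← IsScalarTower.algebraMap_apply, Algebra.smul_def, map_mul,
      ← IsScalarTower.algebraMap_apply, ← h] at h2
    have hne1 := hne' p hp
    have hne2 := hne' _ hCf
    have h3 : w = (∑ i, ((algebraMap R'[X] Ω p)⁻¹ * (algebraMap R'[X] Ω (C f))⁻¹ *
        algebraMap R'[X] Ω (C (g i))) * algebraMap A Ω (b i)) +
        algebraMap R'[X] Ω X * ((algebraMap R'[X] Ω p)⁻¹ * (algebraMap R'[X] Ω (C f))⁻¹ *
          algebraMap A Ω a') := by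
      have h4 : ∑ i, ((algebraMap R'[X] Ω p)⁻¹ * (algebraMap R'[X] Ω (C f))⁻¹ *
        algebraMap R'[X] Ω (C (g i))) * algebraMap A Ω (b i) =
          (algebraMap R'[X] Ω p)⁻¹ * (algebraMap R'[X] Ω (C f))⁻¹ *
          ∑ i, algebraMap A Ω ((C (g i) : R'[X]) • b i) := by
        rw [Finset.mul_sum]
        refine Finset.sum_congr rfl fun i _ => ?_
        rw [Algebra.smul_def, map_mul, ← IsScalarTower.algebraMap_apply]
        ring
      rw [h4]
      have h5 : w = (algebraMap R'[X] Ω p)⁻¹ * (algebraMap R'[X] Ω (C f))⁻¹ *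
          (algebraMap R'[X] Ω (C f) * (w * algebraMap R'[X] Ω p)) := by
        field_simp
      rw [h5, h2]
      ring
    rw [h3]
    apply Submodule.add_mem_sup
    · apply Submodule.sum_mem
      intro i _
      have hmem : (algebraMap R'[X] Ω p)⁻¹ * (algebraMap R'[X] Ω (C f))⁻¹ *
        algebraMap R'[X] Ω (C (g i)) ∈ locSub R' Ω :=
        mul_mem (mul_mem (hinvmem p hp) (hinvmem _ hCf)) (algebraMap_mem_locSub _)
      exact Submodule.smul_mem N (⟨_, hmem⟩ : O) (Submodule.subset_span ⟨i, rfl⟩)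
    · have hmem : (algebraMap R'[X] Ω p)⁻¹ * (algebraMap R'[X] Ω (C f))⁻¹ ∈ locSub R' Ω :=
        mul_mem (hinvmem p hp) (hinvmem _ hCf)
      have h6 : (algebraMap R'[X] Ω p)⁻¹ * (algebraMap R'[X] Ω (C f))⁻¹ * algebraMap A Ω a' ∈ B :=
        Subalgebra.smul_mem B (hAB a') (⟨_, hmem⟩ : O)
      exact Submodule.smul_mem_smul (r := t) (Ideal.subset_span rfl) h6
  -- conclusion
  have hfin : ∀ a : A, ∃ p : R'[X], p ≠ 0 ∧ p • a ∈ Submodule.span R'[X] (Set.range b) := by
    intro a
    have h1 : algebraMap A Ω a ∈ N := hNak (hAB a)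
    have h2 : ∀ w ∈ N, ∃ p : R'[X], p ≠ 0 ∧
        algebraMap R'[X] Ω p * w ∈ Submodule.span R'[X] (Set.range fun i => algebraMap A Ω (b i)) := by
      intro w hw
      induction hw using Submodule.span_induction with
      | mem x hx => exact ⟨1, one_ne_zero, by rw [map_one, one_mul]; exact Submodule.subset_span hx⟩
      | zero => exact ⟨1, one_ne_zero, by rw [mul_zero]; exact zero_mem _⟩
      | add x y _ _ hx hy =>
        obtain ⟨p, hp, h⟩ := hx
        obtain ⟨q, hq, h'⟩ := hy
        refine ⟨p * q, mul_ne_zero hp hq, ?_⟩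
        have : algebraMap R'[X] Ω (p * q) * (x + y) =
            q • (algebraMap R'[X] Ω p * x) + p • (algebraMap R'[X] Ω q * y) := by
          rw [Algebra.smul_def, Algebra.smul_def, map_mul]; ring
        rw [this]
        exact add_mem (Submodule.smul_mem _ _ h) (Submodule.smul_mem _ _ h')
      | smul o x _ hx =>
        obtain ⟨p, hp, h⟩ := hx
        obtain ⟨o, r, q, hq, ho⟩ := o
        have hq0 : q ≠ 0 := by rintro rfl; exact hq (by simp)
        refine ⟨p * q, mul_ne_zero hp hq0, ?_⟩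
        have : algebraMap R'[X] Ω (p * q) * (o * x) = r • (algebraMap R'[X] Ω p * x) := by
          rw [Algebra.smul_def, map_mul, ← ho]; ring
        show algebraMap R'[X] Ω (p * q) * (o * x) ∈ _
        rw [this]
        exact Submodule.smul_mem _ _ h
    obtain ⟨p, hp, h3⟩ := h2 _ h1
    refine ⟨p, hp, ?_⟩
    have h4 : Set.range (fun i => algebraMap A Ω (b i)) =
        (IsScalarTower.toAlgHom R'[X] A Ω).toLinearMap '' (Set.range b) := by
      rw [← Set.range_comp]; rfl
    rw [h4, ← Submodule.map_span] at h3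
    obtain ⟨y, hy, hy2⟩ := h3
    have h5 : y = p • a := by
      apply hAΩ
      rw [Algebra.smul_def, map_mul, ← IsScalarTower.algebraMap_apply]
      exact hy2
    rwa [h5] at hy
  have h1 := rank_quotient_add_rank_of_isDomain (R := R'[X]) (Submodule.span R'[X] (Set.range b))
  rw [rank_span hbind, Cardinal.mk_range_eq b hbind.injective, Cardinal.mk_fin] at h1
  have h2 : Module.rank R'[X] (A ⧸ Submodule.span R'[X] (Set.range b)) = 0 := by
    rw [rank_eq_zero_iff]
    intro q
    obtain ⟨a, rfl⟩ := Submodule.Quotient.mk_surjective _ q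
    obtain ⟨p, hp, h⟩ := hfin a
    refine ⟨p, hp, ?_⟩
    rw [← Submodule.Quotient.mk_smul, Submodule.Quotient.mk_eq_zero]
    exact h
  rw [← h1, h2, zero_add]

end

end Pool.Agent.H286R3
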