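import Mathlib
import Pool.Agent.H286R3.LinA

/-!
The dimension lemma: if `X ∈ κ^P` lies in `M ⊗ κ`, `C ∈ κ^P` lies in `(perp M) ⊗ κ` and one
coordinate of `X` is `1`, then the products `X i ^ 2 * C i` are algebraically dependent over `ℂ`.
-/

namespace Pool.Agent.H286R3

open Module

theorem finrank_span_le_of_rel {P : Type} [Fintype P] {κ : Type*} [Field κ] [Algebra ℂ κ]
    (N : Submodule ℂ (P → ℂ)) (X : P → κ) (hX : ∀ a ∈ N, ∑ i, a i • X i = 0) :
    finrank ℂ (Submodule.span ℂ (Set.range X)) + finrank ℂ N ≤ Fintype.card P := by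
  have h1 := LinearMap.finrank_range_add_finrank_ker (Fintype.linearCombination ℂ X)
  rw [finrank_fintype_fun_eq_card, Fintype.range_linearCombination] at h1
  have h2 : N ≤ LinearMap.ker (Fintype.linearCombination ℂ X) := by
    intro a ha
    rw [LinearMap.mem_ker, Fintype.linearCombination_apply]
    exact hX a ha
  have h3 := Submodule.finrank_mono h2
  omega

theorem dim_lemma {P : Type} [Fintype P] {κ : Type} [Field κ] [Algebra ℂ κ]
    (M : Submodule ℂ (P → ℂ)) (X C : P → κ)
    (hX : ∀ a ∈ perp M, ∑ i, a i • X i = 0) (hC : ∀ a ∈ M, ∑ i, a i • C i = 0)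
    (j : P) (hj : X j = 1) :
    ∃ G : MvPolynomial P ℂ, G ≠ 0 ∧ MvPolynomial.aeval (fun i => X i ^ 2 * C i) G = 0 := by
  classical
  by_contra hcon
  push Not at hcon
  have hind : AlgebraicIndependent ℂ (fun i => X i ^ 2 * C i) := by
    rw [algebraicIndependent_iff]
    intro p hp
    by_contra hp0
    exact hcon p hp0 hp
  have hb1 := finrank_span_le_of_rel (perp M) X hX
  have hb2 := finrank_span_le_of_rel M C hC
  have hb3 := finrank_perp_add M
  -- bases
  have h1 : LinearIndepOn ℂ (id : κ → κ) {(1 : κ)} := by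
    rw [linearIndepOn_singleton_iff]
    exact one_ne_zero
  have h1' : ({(1 : κ)} : Set κ) ⊆ Set.range X := by
    rintro _ rfl
    exact ⟨j, hj⟩
  obtain ⟨b, hbX, hb1', hbspan, hbind⟩ := exists_linearIndepOn_id_extension h1 h1'
  obtain ⟨b', hbC, -, hbspan', hbind'⟩ := exists_linearIndepOn_id_extension
    (K := ℂ) (t := Set.range C) (linearIndepOn_empty ℂ (id : κ → κ)) (Set.empty_subset _)
  have hbfin : b.Finite := (Set.finite_range X).subset hbX
  have hbfin' : b'.Finite := (Set.finite_range C).subset hbC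
  have hspan : Submodule.span ℂ b = Submodule.span ℂ (Set.range X) :=
    le_antisymm (Submodule.span_mono hbX) (Submodule.span_le.mpr hbspan)
  have hspan' : Submodule.span ℂ b' = Submodule.span ℂ (Set.range C) :=
    le_antisymm (Submodule.span_mono hbC) (Submodule.span_le.mpr hbspan')
  haveI : Fintype b := hbfin.fintype
  haveI : Fintype b' := hbfin'.fintype
  have hc1 := finrank_span_set_eq_card hbind
  have hc2 := finrank_span_set_eq_card hbind'
  rw [hspan] at hc1
  rw [hspan'] at hc2
  let s : Finset κ := (b.toFinset.erase 1) ∪ b'.toFinset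
  have hs : s.card < Fintype.card P := by
    have h2 : (b.toFinset.erase 1).card = b.toFinset.card - 1 := by
      apply Finset.card_erase_of_mem
      rw [Set.mem_toFinset]
      exact hb1' rfl
    have h3 : 0 < b.toFinset.card := by
      apply Finset.card_pos.mpr
      exact ⟨1, by rw [Set.mem_toFinset]; exact hb1' rfl⟩
    have h4 := Finset.card_union_le (b.toFinset.erase 1) b'.toFinset
    show ((b.toFinset.erase 1) ∪ b'.toFinset).card < _
    omega
  -- everything is generated by s
  let f : MvPolynomial s ℂ →ₐ[ℂ] κ := MvPolynomial.aeval (fun x => (x : κ))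
  have hsf : ∀ x ∈ s, x ∈ f.range := by
    intro x hx
    exact ⟨MvPolynomial.X ⟨x, hx⟩, by simp [f]⟩
  have hbf : ∀ x ∈ b, x ∈ f.range := by
    intro x hx
    by_cases hx1 : x = 1
    · rw [hx1]; exact one_mem _
    · apply hsf
      simp only [s, Finset.mem_union, Finset.mem_erase, Set.mem_toFinset]
      exact Or.inl ⟨hx1, hx⟩
  have hbf' : ∀ x ∈ b', x ∈ f.range := by
    intro x hx
    apply hsf
    simp only [s, Finset.mem_union, Finset.mem_erase, Set.mem_toFinset]
    exact Or.inr hx
  have hXf : ∀ i, X i ∈ f.range := by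
    intro i
    have h5 : X i ∈ Submodule.span ℂ b := hspan ▸ Submodule.subset_span ⟨i, rfl⟩
    have h6 : Submodule.span ℂ b ≤ Subalgebra.toSubmodule f.range := Submodule.span_le.mpr hbf
    exact h6 h5
  have hCf : ∀ i, C i ∈ f.range := by
    intro i
    have h5 : C i ∈ Submodule.span ℂ b' := hspan' ▸ Submodule.subset_span ⟨i, rfl⟩
    have h6 : Submodule.span ℂ b' ≤ Subalgebra.toSubmodule f.range := Submodule.span_le.mpr hbf'
    exact h6 h5
  have hw : ∀ i, ∃ g : MvPolynomial s ℂ, f g = X i ^ 2 * C i := fun i =>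
    mul_mem (pow_mem (hXf i) 2) (hCf i)
  choose g hg using hw
  have hgind : AlgebraicIndependent ℂ g := by
    apply AlgebraicIndependent.of_comp f
    convert hind using 1
    funext i
    exact hg i
  have hcard := hgind.cardinalMk_le_trdeg
  rw [MvPolynomial.trdeg_of_isDomain] at hcard
  simp only [Cardinal.mk_fintype, Cardinal.lift_natCast, Fintype.card_coe, Nat.cast_le] at hcard
  omega

end Pool.Agent.H286R3
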