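import Mathlib
import Pool.Agent.H286R3.LinA
import Pool.Agent.H286R3.LinD

/-!
Valuation argument: finiteness of the pair `(x, c)` over the local ring at `u_k = 0`.
-/

namespace Pool.Agent.H286R3

open Module

theorem restrict_space {E P' : Type} [Fintype E] [Fintype P'] {κ : Type} [Field κ] [Algebra ℂ κ]
    (emb : P' → E) (hinj : Function.Injective emb) (P : E → Prop) (W : Submodule ℂ (E → ℂ))
    (Y Z : E → κ) (hY : Ext W Y) (hYs : ∀ i, ¬ P i → Y i = 0)
    (hZ : ∀ z ∈ W, (∀ i, ¬ P i → z i = 0) → ∑ i, z i • Z i = 0)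
    (hZ' : ∀ i, P i → i ∉ Set.range emb → Z i = 0) :
    ∃ M : Submodule ℂ (P' → ℂ), (∀ a ∈ M, ∑ p, a p • Z (emb p) = 0) ∧
      (∀ a ∈ perp M, ∑ p, a p • Y (emb p) = 0) := by
  classical
  let M : Submodule ℂ (P' → ℂ) :=
    { carrier := {a | ∃ z ∈ W, (∀ i, ¬ P i → z i = 0) ∧ ∀ p, a p = z (emb p)}
      add_mem' := by
        rintro a b ⟨z, hz, hz1, hz2⟩ ⟨w, hw, hw1, hw2⟩
        refine ⟨z + w, add_mem hz hw, fun i hi => ?_, fun p => ?_⟩
        · simp [hz1 i hi, hw1 i hi]
        · simp [hz2 p, hw2 p]
      zero_mem' := ⟨0, zero_mem _, fun _ _ => rfl, fun _ => rfl⟩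
      smul_mem' := by
        rintro r a ⟨z, hz, hz1, hz2⟩
        refine ⟨r • z, Submodule.smul_mem _ _ hz, fun i hi => ?_, fun p => ?_⟩
        · simp [hz1 i hi]
        · simp [hz2 p] }
  refine ⟨M, ?_, ?_⟩
  · rintro a ⟨z, hz, hz1, hz2⟩
    rw [← hZ z hz hz1]
    refine Fintype.sum_of_injective emb hinj _ _ (fun i hi => ?_) (fun p => by rw [hz2 p])
    by_cases hP : P i
    · rw [hZ' i hP hi, smul_zero]
    · rw [hz1 i hP, zero_smul]
  · intro a ha
    rw [← Module.forall_dual_apply_eq_zero_iff ℂ]
    intro l
    rw [map_sum]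
    have h1 : (fun p => l (Y (emb p))) ∈ M := by
      refine ⟨fun i => l (Y i), hY.linmap_mem l, fun i hi => ?_, fun p => rfl⟩
      simp only [hYs i hi, map_zero]
    have h2 := ha _ h1
    rw [← h2]
    refine Finset.sum_congr rfl fun p _ => ?_
    rw [map_smul, smul_eq_mul]

section

variable {ι : Type} [Fintype ι] {Ω : Type} [Field Ω] [Algebra ℂ Ω] (V : ValuationSubring Ω)
  [Algebra ℂ V] [IsScalarTower ℂ V Ω]

/-- the residue map -/
noncomputable def resHom : V →ₐ[ℂ] IsLocalRing.ResidueField V :=
  IsScalarTower.toAlgHom ℂ V (IsLocalRing.ResidueField V)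

theorem resHom_eq_zero_iff (a : V) : resHom V a = 0 ↔ V.valuation (a : Ω) < 1 := by
  rw [← ValuationSubring.valuation_lt_one_iff]
  exact IsLocalRing.residue_eq_zero_iff a

/-- the residue of an element of `Ω` (zero outside `V`) -/
noncomputable def res (a : Ω) : IsLocalRing.ResidueField V := by
  classical
  exact if h : a ∈ V then resHom V ⟨a, h⟩ else 0

theorem res_of_mem {a : Ω} (h : a ∈ V) : res V a = resHom V ⟨a, h⟩ := by
  classical
  simp [res, h]

theorem res_eq_zero {a : Ω} (h : V.valuation a < 1) : res V a = 0 := by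
  have h1 : a ∈ V := (ValuationSubring.valuation_le_one_iff V a).mp h.le
  rw [res_of_mem V h1, resHom_eq_zero_iff]
  exact h

theorem res_ne_zero {a : Ω} (h : V.valuation a = 1) : res V a ≠ 0 := by
  have h1 : a ∈ V := (ValuationSubring.valuation_le_one_iff V a).mp h.le
  rw [res_of_mem V h1, Ne, resHom_eq_zero_iff, h]
  exact lt_irrefl _

theorem res_one : res V (1 : Ω) = 1 := by
  rw [res_of_mem V (one_mem V)]
  exact map_one _

theorem res_mul {a b : Ω} (ha : a ∈ V) (hb : b ∈ V) : res V (a * b) = res V a * res V b := by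
  rw [res_of_mem V ha, res_of_mem V hb, res_of_mem V (mul_mem ha hb), ← map_mul]
  rfl

theorem smul_mem_V (z : ℂ) {a : Ω} (ha : a ∈ V) : z • a ∈ V := by
  have : z • a = ((z • (⟨a, ha⟩ : V) : V) : Ω) := by
    have h1 := algebraMap_smul V z a
    rw [← h1]
    rw [Algebra.smul_def z (⟨a, ha⟩ : V)]
    rfl
  rw [this]
  exact SetLike.coe_mem _

theorem res_smul (z : ℂ) {a : Ω} (ha : a ∈ V) : res V (z • a) = z • res V a := by
  rw [res_of_mem V ha, res_of_mem V (smul_mem_V V z ha), ← map_smul]
  congr 1
  apply Subtype.ext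
  have h1 := algebraMap_smul V z a
  show z • a = ((z • (⟨a, ha⟩ : V) : V) : Ω)
  rw [← h1, Algebra.smul_def z (⟨a, ha⟩ : V)]
  rfl

theorem res_sum {E : Type} (s : Finset E) (f : E → Ω) (hf : ∀ i ∈ s, f i ∈ V) :
    res V (∑ i ∈ s, f i) = ∑ i ∈ s, res V (f i) := by
  classical
  induction s using Finset.induction_on with
  | empty =>
    simp only [Finset.sum_empty]
    rw [res_of_mem V (zero_mem V)]
    exact map_zero _
  | insert a s ha ih =>
    rw [Finset.sum_insert ha, Finset.sum_insert ha]
    have h1 : f a ∈ V := hf a (Finset.mem_insert_self _ _)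
    have h2 : ∑ i ∈ s, f i ∈ V := sum_mem fun i hi => hf i (Finset.mem_insert_of_mem hi)
    rw [← ih fun i hi => hf i (Finset.mem_insert_of_mem hi)]
    rw [res_of_mem V h1, res_of_mem V h2, res_of_mem V (add_mem h1 h2), ← map_add]
    rfl

theorem res_lin {E : Type} [Fintype E] (z : E → ℂ) (a : E → Ω)
    (h : ∀ i, z i ≠ 0 → a i ∈ V) :
    res V (∑ i, z i • a i) = ∑ i, z i • res V (a i) := by
  have h0 : ∀ i, z i • a i ∈ V := by
    intro i
    by_cases hz : z i = 0
    · rw [hz, zero_smul]; exact zero_mem V
    · exact smul_mem_V V _ (h i hz)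
  rw [res_sum V _ _ (fun i _ => h0 i)]
  refine Finset.sum_congr rfl fun i _ => ?_
  by_cases hz : z i = 0
  · rw [hz, zero_smul, zero_smul, res_of_mem V (zero_mem V)]
    exact map_zero _
  · exact res_smul V _ (h i hz)

theorem res_zero : res V (0 : Ω) = 0 := by
  rw [res_of_mem V (zero_mem V)]
  exact map_zero _

theorem res_ext {E : Type} [Fintype E] {L : Submodule ℂ (E → ℂ)} {a : E → Ω}
    (ha : ∀ i, a i ∈ V) (h : Ext L a) : Ext L (fun i => res V (a i)) := by
  intro y hy
  rw [← res_lin V y a (fun i _ => ha i), h y hy, res_zero]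

theorem res_aeval (u : ι → Ω) (hu : ∀ i, u i ∈ V) (G : MvPolynomial ι ℂ) :
    MvPolynomial.aeval u G ∈ V ∧
    res V (MvPolynomial.aeval u G) = MvPolynomial.aeval (fun i => res V (u i)) G := by
  have h1 : MvPolynomial.aeval u G =
      ((MvPolynomial.aeval (fun i => (⟨u i, hu i⟩ : V)) G : V) : Ω) := by
    have := MvPolynomial.aeval_algebraMap_apply (R := ℂ) Ω (fun i => (⟨u i, hu i⟩ : V)) G
    exact this
  refine ⟨by rw [h1]; exact SetLike.coe_mem _, ?_⟩
  rw [h1, res_of_mem V (SetLike.coe_mem _)]
  have h2 : (fun i => res V (u i)) = fun i => resHom V (⟨u i, hu i⟩ : V) := by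
    funext i
    exact res_of_mem V (hu i)
  rw [h2]
  show resHom V (MvPolynomial.aeval (fun i => (⟨u i, hu i⟩ : V)) G) = _
  rw [← MvPolynomial.comp_aeval_apply]

/-- no nonzero polynomial relation between residues -/
theorem no_rel (k : ι) (u : ι → Ω) (hu : ∀ i, u i ∈ V)
    (hS : ∀ G : MvPolynomial ι ℂ, ¬ MvPolynomial.X k ∣ G →
      MvPolynomial.aeval u G ≠ 0 ∧ (MvPolynomial.aeval u G)⁻¹ ∈ V)
    (G : MvPolynomial ι ℂ) (hG0 : G ≠ 0)
    (hG : MvPolynomial.aeval (fun i => res V (u i)) G = 0)
    (h : ¬ MvPolynomial.X k ∣ G ∨ res V (u k) ≠ 0) : False := by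
  have key : ∀ G : MvPolynomial ι ℂ, MvPolynomial.aeval (fun i => res V (u i)) G = 0 →
      ¬ MvPolynomial.X k ∣ G → False := by
    intro G hG hd
    obtain ⟨h1, h2⟩ := hS G hd
    obtain ⟨h3, h4⟩ := res_aeval V u hu G
    rw [hG] at h4
    have h5 : V.valuation (MvPolynomial.aeval u G) = 1 := by
      apply le_antisymm
      · exact (ValuationSubring.valuation_le_one_iff V _).mpr h3
      · have h6 := (ValuationSubring.valuation_le_one_iff V _).mpr h2
        rw [map_inv₀] at h6
        have h7 : V.valuation (MvPolynomial.aeval u G) ≠ 0 := by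
          rw [Valuation.ne_zero_iff]; exact h1
        exact (inv_le_one₀ (zero_lt_iff.mpr h7)).mp h6
    exact res_ne_zero V h5 h4
  rcases h with h | h
  · exact key G hG h
  · have hfin : FiniteMultiplicity (MvPolynomial.X k : MvPolynomial ι ℂ) G := by
      apply FiniteMultiplicity.of_prime_left _ hG0
      exact MvPolynomial.X_prime
    obtain ⟨G', hG', hd⟩ := hfin.exists_eq_pow_mul_and_not_dvd
    rw [hG', map_mul, map_pow, MvPolynomial.aeval_X] at hG
    rcases mul_eq_zero.mp hG with h1 | h1
    · exact h (eq_zero_of_pow_eq_zero h1)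
    · exact key G' h1 hd

theorem no_rel' (k : ι) (u : ι → Ω) (hu : ∀ i, u i ∈ V)
    (hS : ∀ G : MvPolynomial ι ℂ, ¬ MvPolynomial.X k ∣ G →
      MvPolynomial.aeval u G ≠ 0 ∧ (MvPolynomial.aeval u G)⁻¹ ∈ V)
    (P : ι → Prop)
    (G : MvPolynomial {i : ι // P i ∧ (i ≠ k ∨ res V (u k) ≠ 0)} ℂ) (hG0 : G ≠ 0)
    (hG : MvPolynomial.aeval (fun p : {i : ι // P i ∧ (i ≠ k ∨ res V (u k) ≠ 0)} =>
      res V (u p.1)) G = 0) : False := by
  classical
  apply no_rel V k u hu hS (MvPolynomial.rename Subtype.val G)
  · intro h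
    apply hG0
    apply MvPolynomial.rename_injective _ Subtype.val_injective
    rw [h, map_zero]
  · rw [MvPolynomial.aeval_rename]
    exact hG
  · by_cases h : res V (u k) = 0
    · left
      rintro ⟨H, hH⟩
      let psi : MvPolynomial ι ℂ →ₐ[ℂ]
          MvPolynomial {i : ι // P i ∧ (i ≠ k ∨ res V (u k) ≠ 0)} ℂ :=
        MvPolynomial.aeval (fun i => if hi : P i ∧ (i ≠ k ∨ res V (u k) ≠ 0) then
          MvPolynomial.X ⟨i, hi⟩ else 0)
      have h1 : psi (MvPolynomial.rename Subtype.val G) = G := by
        have : psi.comp (MvPolynomial.rename Subtype.val) = AlgHom.id ℂ _ := by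
          apply MvPolynomial.algHom_ext
          rintro ⟨i, hi⟩
          simp [psi, hi]
        exact AlgHom.congr_fun this G
      have h2 : psi (MvPolynomial.X k) = 0 := by
        have : ¬ (P k ∧ (k ≠ k ∨ res V (u k) ≠ 0)) := by
          rintro ⟨-, h3⟩
          rcases h3 with h3 | h3
          · exact h3 rfl
          · exact h3 h
        simp [psi, h]
      rw [hH, map_mul, h2, zero_mul] at h1
      exact hG0 h1.symm
    · exact Or.inr h

theorem exists_functional {κ : Type} [Field κ] [Algebra ℂ κ] {a : κ} (ha : a ≠ 0) :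
    ∃ l : κ →ₗ[ℂ] ℂ, l a ≠ 0 := by
  by_contra h
  push Not at h
  exact ha ((Module.forall_dual_apply_eq_zero_iff ℂ a).mp h)

theorem val_finite (L : Submodule ℂ (Option ι → ℂ)) (k : ι)
    (hk1 : ∀ z ∈ L, (∀ i, i ≠ some k → z i = 0) → z (some k) = 0)
    (hk2 : ∀ y ∈ perp L, (∀ i, i ≠ some k → y i = 0) → y (some k) = 0)
    (x c : Option ι → Ω) (hx : Ext L x) (hc : Ext (perp L) c) (hx0 : x none = 1)
    (hu : ∀ i : ι, x (some i) ^ 2 * c (some i) ∈ V)
    (hS : ∀ G : MvPolynomial ι ℂ, ¬ MvPolynomial.X k ∣ G →
      MvPolynomial.aeval (fun i : ι => x (some i) ^ 2 * c (some i)) G ≠ 0 ∧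
      (MvPolynomial.aeval (fun i : ι => x (some i) ^ 2 * c (some i)) G)⁻¹ ∈ V) :
    (∀ i, x i ∈ V) ∧ (∀ i, c i ∈ V) := by
  classical
  have hv1 : ∀ a : Ω, a ∈ V ↔ V.valuation a ≤ 1 :=
    fun a => (ValuationSubring.valuation_le_one_iff V a).symm
  by_cases hall : ∀ i, x i ∈ V
  swap
  · exfalso
    push Not at hall
    obtain ⟨i0, hi0⟩ := hall
    obtain ⟨j0, -, hj0⟩ := Finset.exists_max_image Finset.univ (fun i => V.valuation (x i))
      ⟨i0, Finset.mem_univ _⟩
    have hj1 : 1 < V.valuation (x j0) := by
      have := (hv1 (x i0)).not.mp hi0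
      exact lt_of_lt_of_le (not_le.mp this) (hj0 i0 (Finset.mem_univ _))
    have hmax : ∀ i, V.valuation (x i) ≤ V.valuation (x j0) := fun i => hj0 i (Finset.mem_univ _)
    let P : Option ι → Prop := fun i => V.valuation (x i) = V.valuation (x j0)
    have hPdef : ∀ i, P i ↔ V.valuation (x i) = V.valuation (x j0) := fun i => Iff.rfl
    have hPnone : ¬ P none := by
      intro h
      rw [hPdef, hx0, map_one] at h
      exact absurd h hj1.ne
    have hpos : ∀ j, P j → 0 < V.valuation (x j) := by
      intro j hj
      rw [(hPdef j).mp hj]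
      exact lt_trans zero_lt_one hj1
    have hne : ∀ j, P j → x j ≠ 0 := by
      intro j hj h0
      have := hpos j hj
      rw [h0, map_zero] at this
      exact lt_irrefl _ this
    have hle : ∀ j, P j → ∀ i, V.valuation (x i / x j) ≤ 1 := by
      intro j hj i
      rw [map_div₀, div_le_one₀ (hpos j hj), (hPdef j).mp hj]
      exact hmax i
    have hdiv : ∀ j, P j → ∀ i, x i / x j ∈ V := fun j hj i => (hv1 _).mpr (hle j hj i)
    have hsupp : ∀ j, P j → ∀ i, ¬ P i → res V (x i / x j) = 0 := by
      intro j hj i hi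
      apply res_eq_zero
      rw [map_div₀, div_lt_one₀ (hpos j hj), (hPdef j).mp hj]
      exact lt_of_le_of_ne (hmax i) hi
    have hunit : ∀ j, P j → ∀ i, P i → V.valuation (x i / x j) = 1 := by
      intro j hj i hi
      rw [map_div₀, (hPdef j).mp hj, (hPdef i).mp hi]
      exact div_self (lt_trans zero_lt_one hj1).ne'
    have hExt : ∀ j, P j → Ext L (fun i => res V (x i / x j)) := by
      intro j hj
      apply res_ext V (hdiv j hj)
      have := hx.mul (x j)⁻¹
      simpa [div_eq_mul_inv] using this
    obtain ⟨j, hjP, hjk⟩ : ∃ j, P j ∧ j ≠ some k := by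
      by_contra hcon
      push Not at hcon
      have hj0k : j0 = some k := hcon j0 rfl
      have hne1 : res V (x (some k) / x j0) ≠ 0 := by
        apply res_ne_zero
        rw [← hj0k]
        exact hunit j0 rfl j0 rfl
      obtain ⟨l, hl⟩ := exists_functional hne1
      apply hl
      exact hk1 _ ((hExt j0 rfl).linmap_mem l) (fun i hi => by
        show l (res V (x i / x j0)) = 0
        rw [hsupp j0 rfl i (fun h => hi (hcon i h)), map_zero])
    -- the vector C
    have hCmem : ∀ i, P i → c i * x j ^ 2 ∈ V := by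
      intro i hi
      cases i with
      | none => exact absurd hi hPnone
      | some i =>
        rw [hv1, map_mul, map_pow, (hPdef j).mp hjP, ← (hPdef _).mp hi, ← map_pow, ← map_mul,
          mul_comm, ← hv1]
        exact hu i
    let Y : Option ι → IsLocalRing.ResidueField V := fun i => res V (x i / x j)
    let Z : Option ι → IsLocalRing.ResidueField V := fun i => if P i then res V (c i * x j ^ 2) else 0
    have hprod : ∀ i : ι, P (some i) →
        res V (x (some i) ^ 2 * c (some i)) = Y (some i) ^ 2 * Z (some i) := by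
      intro i hi
      have h1 : x (some i) ^ 2 * c (some i) =
          (x (some i) / x j) * (x (some i) / x j) * (c (some i) * x j ^ 2) := by
        have := hne j hjP
        field_simp
      rw [h1, res_mul V (mul_mem (hdiv j hjP _) (hdiv j hjP _)) (hCmem _ hi),
        res_mul V (hdiv j hjP _) (hdiv j hjP _)]
      simp only [Y, Z, if_pos hi]
      ring
    obtain ⟨j', rfl⟩ : ∃ j', j = some j' := by
      cases j with
      | none => exact absurd hjP hPnone
      | some j' => exact ⟨j', rfl⟩
    have hj'k : j' ≠ k := fun h => hjk (by rw [h])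
    let u : ι → Ω := fun i => x (some i) ^ 2 * c (some i)
    let P' := {i : ι // P (some i) ∧ (i ≠ k ∨ res V (u k) ≠ 0)}
    obtain ⟨M, hM1, hM2⟩ := restrict_space (P' := P') (fun p => some p.1)
      (fun a b h => Subtype.ext (Option.some_injective _ h)) P L Y Z (hExt _ hjP)
      (fun i hi => hsupp _ hjP i hi)
      (by
        intro z hz hzs
        have h1 : ∑ i, z i • (c i * x (some j') ^ 2) = 0 := ext_perp_apply (hc.mul _) hz
        have h2 := res_lin V z (fun i => c i * x (some j') ^ 2) (fun i hi => hCmem i (by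
          by_contra hP
          exact hi (hzs i hP)))
        rw [h1, res_zero] at h2
        rw [h2]
        refine Finset.sum_congr rfl fun i _ => ?_
        by_cases hP : P i
        · simp only [Z, if_pos hP]
        · rw [hzs i hP, zero_smul, zero_smul])
      (by
        intro i hi hir
        cases i with
        | none => exact absurd hi hPnone
        | some i =>
          have hik : i = k ∧ res V (u k) = 0 := by
            by_contra hcon
            apply hir
            refine ⟨⟨i, hi, ?_⟩, rfl⟩
            by_cases h1 : i = k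
            · right
              intro h2
              exact hcon ⟨h1, h2⟩
            · exact Or.inl h1
          obtain ⟨rfl, hik⟩ := hik
          have h1 := hprod i hi
          rw [show res V (x (some i) ^ 2 * c (some i)) = 0 from hik] at h1
          have h2 : Y (some i) ≠ 0 := res_ne_zero V (hunit _ hjP _ hi)
          rcases mul_eq_zero.mp h1.symm with h3 | h3
          · exact absurd (eq_zero_of_pow_eq_zero h3) h2
          · exact h3)
    obtain ⟨G, hG0, hG⟩ := dim_lemma M (fun p : P' => Y (some p.1)) (fun p : P' => Z (some p.1))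
      hM2 hM1 ⟨j', hjP, Or.inl hj'k⟩ (by
        show res V (x (some j') / x (some j')) = 1
        rw [div_self (hne _ hjP)]
        exact res_one V)
    apply no_rel' V k u hu hS (fun i => P (some i)) G hG0
    have hfun : (fun p : P' => res V (u p.1)) = (fun p : P' => Y (some p.1) ^ 2 * Z (some p.1)) :=
      funext fun p => hprod p.1 p.2.1
    exact (congrArg (fun F : P' → IsLocalRing.ResidueField V =>
      (MvPolynomial.aeval F : MvPolynomial P' ℂ →ₐ[ℂ] _) G) hfun).trans hG
  · refine ⟨hall, ?_⟩
    by_contra hcall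
    push Not at hcall
    obtain ⟨i0, hi0⟩ := hcall
    obtain ⟨j0, -, hj0⟩ := Finset.exists_max_image Finset.univ (fun i => V.valuation (c i))
      ⟨i0, Finset.mem_univ _⟩
    have hj1 : 1 < V.valuation (c j0) := by
      have := (hv1 (c i0)).not.mp hi0
      exact lt_of_lt_of_le (not_le.mp this) (hj0 i0 (Finset.mem_univ _))
    have hmax : ∀ i, V.valuation (c i) ≤ V.valuation (c j0) := fun i => hj0 i (Finset.mem_univ _)
    let P : Option ι → Prop := fun i => V.valuation (c i) = V.valuation (c j0)
    have hPdef : ∀ i, P i ↔ V.valuation (c i) = V.valuation (c j0) := fun i => Iff.rfl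
    have hpos : 0 < V.valuation (c j0) := lt_trans zero_lt_one hj1
    have hne0 : c j0 ≠ 0 := by
      intro h0
      rw [h0, map_zero] at hpos
      exact lt_irrefl _ hpos
    -- x small on P
    have hxsq : ∀ i : ι, P (some i) → V.valuation (x (some i)) ^ 2 =
        V.valuation (x (some i) ^ 2 * c (some i)) / V.valuation (c j0) := by
      intro i hi
      rw [map_mul, map_pow, (hPdef _).mp hi, mul_div_assoc, div_self hpos.ne', mul_one]
    have hxlt : ∀ i : ι, P (some i) → V.valuation (x (some i)) < 1 := by
      intro i hi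
      have h1 : V.valuation (x (some i)) ^ 2 < 1 := by
        rw [hxsq i hi, div_lt_one₀ hpos]
        exact lt_of_le_of_lt ((hv1 _).mp (hu i)) hj1
      by_contra h2
      push Not at h2
      exact absurd h1 (not_lt.mpr (one_le_pow₀ h2))
    have hCt : ∀ i, c i / c j0 ∈ V := by
      intro i
      rw [hv1, map_div₀, div_le_one₀ hpos]
      exact hmax i
    have hCts : ∀ i, ¬ P i → res V (c i / c j0) = 0 := by
      intro i hi
      apply res_eq_zero
      rw [map_div₀, div_lt_one₀ hpos]
      exact lt_of_le_of_ne (hmax i) hi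
    have hCtu : ∀ i, P i → res V (c i / c j0) ≠ 0 := by
      intro i hi
      apply res_ne_zero
      rw [map_div₀, (hPdef i).mp hi]
      exact div_self hpos.ne'
    have hCtE : Ext (perp L) (fun i => res V (c i / c j0)) := by
      apply res_ext V hCt
      have := hc.mul (c j0)⁻¹
      simpa [div_eq_mul_inv] using this
    have hxE : Ext L (fun i => res V (x i)) := res_ext V hall hx
    have hPnone : ¬ P none := by
      intro hP
      have h1 := pairing hxE hCtE
      rw [Fintype.sum_option] at h1
      have h2 : ∑ i : ι, res V (x (some i)) * res V (c (some i) / c j0) = 0 := by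
        refine Finset.sum_eq_zero fun i _ => ?_
        by_cases hPi : P (some i)
        · rw [res_eq_zero V (hxlt i hPi), zero_mul]
        · rw [hCts _ hPi, mul_zero]
      rw [h2, add_zero, hx0, res_one, one_mul] at h1
      exact hCtu none hP h1
    obtain ⟨j, hjP, hjk⟩ : ∃ j, P j ∧ j ≠ some k := by
      by_contra hcon
      push Not at hcon
      have hj0k : j0 = some k := hcon j0 rfl
      have hne1 : res V (c (some k) / c j0) ≠ 0 := by
        rw [← hj0k]
        exact hCtu j0 rfl
      obtain ⟨l, hl⟩ := exists_functional hne1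
      apply hl
      exact hk2 _ (hCtE.linmap_mem l) (fun i hi => by
        show l (res V (c i / c j0)) = 0
        rw [hCts i (fun h => hi (hcon i h)), map_zero])
    obtain ⟨j', rfl⟩ : ∃ j', j = some j' := by
      cases j with
      | none => exact absurd hjP hPnone
      | some j' => exact ⟨j', rfl⟩
    have hj'k : j' ≠ k := fun h => hjk (by rw [h])
    have huunit : ∀ i : ι, i ≠ k → V.valuation (x (some i) ^ 2 * c (some i)) = 1 := by
      intro i hi
      have h1 : ¬ (MvPolynomial.X k : MvPolynomial ι ℂ) ∣ MvPolynomial.X i := by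
        intro h
        rw [MvPolynomial.X_dvd_X] at h
        exact hi (by simpa using h.symm)
      obtain ⟨h2, h3⟩ := hS _ h1
      rw [MvPolynomial.aeval_X] at h2 h3
      apply le_antisymm ((hv1 _).mp (hu i))
      have h6 := (hv1 _).mp h3
      rw [map_inv₀] at h6
      have h7 : V.valuation (x (some i) ^ 2 * c (some i)) ≠ 0 := by
        rw [Valuation.ne_zero_iff]; exact h2
      exact (inv_le_one₀ (zero_lt_iff.mpr h7)).mp h6
    have hxj : V.valuation (x (some j')) ^ 2 = (V.valuation (c j0))⁻¹ := by
      rw [hxsq j' hjP, huunit j' hj'k, one_div]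
    have hxjpos : 0 < V.valuation (x (some j')) := by
      rw [zero_lt_iff]
      intro h0
      rw [h0, zero_pow two_ne_zero] at hxj
      exact inv_ne_zero hpos.ne' hxj.symm
    have hxjne : x (some j') ≠ 0 := by
      intro h0
      rw [h0, map_zero] at hxjpos
      exact lt_irrefl _ hxjpos
    have hXmem : ∀ i : ι, P (some i) → x (some i) / x (some j') ∈ V := by
      intro i hi
      rw [hv1, map_div₀, div_le_one₀ hxjpos]
      by_contra hlt
      push Not at hlt
      have h1 : V.valuation (x (some j')) ^ 2 < V.valuation (x (some i)) ^ 2 :=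
        pow_lt_pow_left₀ hlt zero_le two_ne_zero
      rw [hxj, hxsq i hi, div_eq_mul_inv] at h1
      have h2 : V.valuation (x (some i) ^ 2 * c (some i)) ≤ 1 := (hv1 _).mp (hu i)
      have h3 : V.valuation (x (some i) ^ 2 * c (some i)) * (V.valuation (c j0))⁻¹ ≤
          1 * (V.valuation (c j0))⁻¹ := mul_le_mul_left h2 _
      rw [one_mul] at h3
      exact absurd h1 (not_lt.mpr h3)
    have hCval : ∀ i, V.valuation (c i * x (some j') ^ 2) =
        V.valuation (c i) / V.valuation (c j0) := by
      intro i
      rw [map_mul, map_pow, hxj, div_eq_mul_inv]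
    have hCmem : ∀ i, c i * x (some j') ^ 2 ∈ V := by
      intro i
      rw [hv1, hCval, div_le_one₀ hpos]
      exact hmax i
    let Y : Option ι → IsLocalRing.ResidueField V := fun i => res V (c i * x (some j') ^ 2)
    let Z : Option ι → IsLocalRing.ResidueField V :=
      fun i => if P i then res V (x i / x (some j')) else 0
    have hprod : ∀ i : ι, P (some i) →
        res V (x (some i) ^ 2 * c (some i)) = Z (some i) ^ 2 * Y (some i) := by
      intro i hi
      have h1 : x (some i) ^ 2 * c (some i) =
          (x (some i) / x (some j')) * (x (some i) / x (some j')) *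
            (c (some i) * x (some j') ^ 2) := by
        field_simp
      rw [h1, res_mul V (mul_mem (hXmem i hi) (hXmem i hi)) (hCmem _),
        res_mul V (hXmem i hi) (hXmem i hi)]
      simp only [Y, Z, if_pos hi]
      ring
    let u : ι → Ω := fun i => x (some i) ^ 2 * c (some i)
    let P' := {i : ι // P (some i) ∧ (i ≠ k ∨ res V (u k) ≠ 0)}
    obtain ⟨M, hM1, hM2⟩ := restrict_space (P' := P') (fun p => some p.1)
      (fun a b h => Subtype.ext (Option.some_injective _ h)) P (perp L) Y Z
      (res_ext V hCmem (hc.mul _))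
      (fun i hi => by
        apply res_eq_zero
        rw [hCval, div_lt_one₀ hpos]
        exact lt_of_le_of_ne (hmax i) hi)
      (by
        intro z hz hzs
        have h1 : ∑ i, z i • (x i * (x (some j'))⁻¹) = 0 := (hx.mul _) z hz
        have h2 := res_lin V z (fun i => x i * (x (some j'))⁻¹) (fun i hi => by
          have hPi : P i := by
            by_contra hP
            exact hi (hzs i hP)
          cases i with
          | none => exact absurd hPi hPnone
          | some i =>
            have := hXmem i hPi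
            rwa [div_eq_mul_inv] at this)
        rw [h1, res_zero] at h2
        rw [h2]
        refine Finset.sum_congr rfl fun i _ => ?_
        by_cases hP : P i
        · simp only [Z, if_pos hP, div_eq_mul_inv]
        · rw [hzs i hP, zero_smul, zero_smul])
      (by
        intro i hi hir
        cases i with
        | none => exact absurd hi hPnone
        | some i =>
          have hik : i = k ∧ res V (u k) = 0 := by
            by_contra hcon
            apply hir
            refine ⟨⟨i, hi, ?_⟩, rfl⟩
            by_cases h1 : i = k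
            · right
              intro h2
              exact hcon ⟨h1, h2⟩
            · exact Or.inl h1
          obtain ⟨rfl, hik⟩ := hik
          have h1 := hprod i hi
          rw [show res V (x (some i) ^ 2 * c (some i)) = 0 from hik] at h1
          have h2 : Y (some i) ≠ 0 := by
            apply res_ne_zero V
            rw [hCval, (hPdef _).mp hi]
            exact div_self hpos.ne'
          rcases mul_eq_zero.mp h1.symm with h3 | h3
          · exact eq_zero_of_pow_eq_zero h3
          · exact absurd h3 h2)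
    obtain ⟨G, hG0, hG⟩ := dim_lemma (perp M) (fun p : P' => Z (some p.1))
      (fun p : P' => Y (some p.1))
      (by rw [perp_perp]; exact hM1) hM2 ⟨j', hjP, Or.inl hj'k⟩ (by
        show (if P (some j') then res V (x (some j') / x (some j')) else 0) = 1
        rw [if_pos hjP, div_self hxjne]
        exact res_one V)
    apply no_rel' V k u hu hS (fun i => P (some i)) G hG0
    have hfun : (fun p : P' => res V (u p.1)) = (fun p : P' => Z (some p.1) ^ 2 * Y (some p.1)) :=
      funext fun p => hprod p.1 p.2.1
    exact (congrArg (fun F : P' → IsLocalRing.ResidueField V =>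
      (MvPolynomial.aeval F : MvPolynomial P' ℂ →ₐ[ℂ] _) G) hfun).trans hG

omit [Fintype ι] in
theorem dichotomy {E : Type} [Fintype E] (L : Submodule ℂ (E → ℂ)) (S : E → Prop) (o : E)
    (ho : S o) :
    (∃ y ∈ perp L, (∀ i, ¬ S i → y i = 0) ∧ y o ≠ 0) ∨
    (∃ z ∈ L, z o = 1 ∧ ∀ i, S i → i ≠ o → z i = 0) := by
  classical
  by_cases hA : ∃ y ∈ perp L, (∀ i, ¬ S i → y i = 0) ∧ y o ≠ 0
  · exact Or.inl hA
  right
  push Not at hA
  let W : Submodule ℂ (E → ℂ) :=
    { carrier := {w | ∀ i, S i → w i = 0}
      add_mem' := by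
        intro a b ha hb i hi
        simp [ha i hi, hb i hi]
      zero_mem' := fun _ _ => rfl
      smul_mem' := by
        intro r a ha i hi
        simp [ha i hi] }
  have h1 : (fun i => if i = o then (1 : ℂ) else 0) ∈ L ⊔ W := by
    apply mem_of_perp
    intro y hy
    have h2 : y ∈ perp L := fun z hz => hy z (Submodule.mem_sup_left hz)
    have h3 : ∀ i, ¬ S i → y i = 0 := by
      intro i hi
      have hW : (fun j => if j = i then (1 : ℂ) else 0) ∈ W := by
        intro j hj
        have : j ≠ i := by rintro rfl; exact hi hj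
        simp [this]
      have := hy _ (Submodule.mem_sup_right hW)
      simpa using this
    have h4 := hA y h2 h3
    simp [h4]
  obtain ⟨z, hz, w, hw, hzw⟩ := Submodule.mem_sup.mp h1
  refine ⟨z, hz, ?_, ?_⟩
  · have := congrFun hzw o
    simpa [hw o ho] using this
  · intro i hi hio
    have := congrFun hzw i
    simpa [hw i hi, hio] using this

theorem val_c0 (L : Submodule ℂ (Option ι → ℂ))
    (x c : Option ι → Ω) (hx : Ext L x) (hc : Ext (perp L) c) (hx0 : x none = 1)
    (hu : ∀ i : ι, x (some i) ^ 2 * c (some i) ∈ V) : c none ∈ V := by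
  classical
  have hv1 : ∀ a : Ω, a ∈ V ↔ V.valuation a ≤ 1 :=
    fun a => (ValuationSubring.valuation_le_one_iff V a).symm
  by_contra hcon
  have h1 : 1 < V.valuation (c none) := not_le.mp ((hv1 _).not.mp hcon)
  have hpos : 0 < V.valuation (c none) := lt_trans zero_lt_one h1
  have hne : c none ≠ 0 := by
    intro h0
    rw [h0, map_zero] at hpos
    exact lt_irrefl _ hpos
  let S : Option ι → Prop := fun i => V.valuation (c none) ≤ V.valuation (c i)
  have hSx : ∀ i : ι, S (some i) → V.valuation (x (some i)) < 1 := by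
    intro i hi
    by_contra h2
    push Not at h2
    have h3 : V.valuation (x (some i) ^ 2 * c (some i)) ≤ 1 := (hv1 _).mp (hu i)
    rw [map_mul, map_pow] at h3
    have h4 : 1 < V.valuation (c (some i)) := lt_of_lt_of_le h1 hi
    have h5 : 1 ≤ V.valuation (x (some i)) ^ 2 := one_le_pow₀ h2
    have h6 : 1 < V.valuation (x (some i)) ^ 2 * V.valuation (c (some i)) :=
      lt_of_lt_of_le h4 (le_mul_of_one_le_left' h5)
    exact absurd h3 (not_le.mpr h6)
  rcases dichotomy L S none le_rfl with ⟨y, hy, hyS, hy0⟩ | ⟨z, hz, hz1, hzS⟩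
  · have h2 := res_lin V y x (by
      intro i hi
      have hSi : S i := by
        by_contra hP
        exact hi (hyS i hP)
      cases i with
      | none => rw [hx0]; exact one_mem V
      | some i => exact (hv1 _).mpr (hSx i hSi).le)
    rw [hx y hy, res_zero, Fintype.sum_option] at h2
    have h3 : ∑ i : ι, y (some i) • res V (x (some i)) = 0 := by
      refine Finset.sum_eq_zero fun i _ => ?_
      by_cases hSi : S (some i)
      · rw [res_eq_zero V (hSx i hSi), smul_zero]
      · rw [hyS _ hSi, zero_smul]
    rw [h3, add_zero, hx0, res_one] at h2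
    rcases smul_eq_zero.mp h2.symm with h4 | h4
    · exact hy0 h4
    · exact one_ne_zero h4
  · have h2 := res_lin V z (fun i => c i * (c none)⁻¹) (by
      intro i hi
      show c i * (c none)⁻¹ ∈ V
      by_cases hi0 : i = none
      · rw [hi0, mul_inv_cancel₀ hne]; exact one_mem V
      · by_cases hSi : S i
        · exact absurd (hzS i hSi hi0) hi
        · rw [← div_eq_mul_inv, hv1, map_div₀, div_le_one₀ hpos]
          exact (not_le.mp hSi).le)
    have h5 : ∑ i, z i • (c i * (c none)⁻¹) = 0 := ext_perp_apply (hc.mul _) hz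
    rw [h5, res_zero, Fintype.sum_option] at h2
    have h3 : ∑ i : ι, z (some i) • res V (c (some i) * (c none)⁻¹) = 0 := by
      refine Finset.sum_eq_zero fun i _ => ?_
      by_cases hSi : S (some i)
      · rw [hzS _ hSi (by simp), zero_smul]
      · rw [res_eq_zero V, smul_zero]
        rw [← div_eq_mul_inv, map_div₀, div_lt_one₀ hpos]
        exact not_le.mp hSi
    rw [h3, add_zero, mul_inv_cancel₀ hne, res_one, hz1, one_smul] at h2
    exact one_ne_zero h2.symm

end

end Pool.Agent.H286R3
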