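import Mathlib
import Pool.Agent.H286R3.Val
import Pool.Agent.H286R3.RankF
import Pool.Agent.H286R3.Beta

/-!
The rank of the universal algebra over the polynomial ring in the `u_i`.
-/

namespace Pool.Agent.H286R3

open Module

/-- multiplicativity of the fibre rank -/
theorem rank_quot_mul {R' A : Type} [CommRing R'] [IsDomain R'] [CommRing A] [IsDomain A]
    [Algebra R' A] (a b : A) (hb : b ≠ 0) :
    Module.rank R' (A ⧸ Ideal.span {a * b}) =
      Module.rank R' (A ⧸ Ideal.span {b}) + Module.rank R' (A ⧸ Ideal.span {a}) := by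
  let I := Ideal.span {a * b}
  let J := Ideal.span {b}
  let K := Ideal.span {a}
  have hIJ : I ≤ J := by
    rw [Ideal.span_singleton_le_span_singleton]
    exact ⟨a, by ring⟩
  let f : (A ⧸ I) →ₐ[R'] (A ⧸ J) := Ideal.Quotient.factorₐ R' hIJ
  have hfsurj : Function.Surjective f := by
    intro q
    obtain ⟨y, rfl⟩ := Ideal.Quotient.mk_surjective q
    exact ⟨Ideal.Quotient.mk I y, rfl⟩
  let g0 : A →ₗ[R'] (A ⧸ I) :=
    (Ideal.Quotient.mkₐ R' I).toLinearMap.comp (LinearMap.mulRight R' b)
  have hg0 : ∀ y, g0 y = Ideal.Quotient.mk I (y * b) := fun y => rfl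
  have hker : K.restrictScalars R' ≤ LinearMap.ker g0 := by
    intro y hy
    rw [LinearMap.mem_ker, hg0, Ideal.Quotient.eq_zero_iff_mem]
    obtain ⟨w, rfl⟩ := Ideal.mem_span_singleton'.mp hy
    exact Ideal.mem_span_singleton'.mpr ⟨w, by ring⟩
  have h1 := LinearMap.rank_range_add_rank_ker f.toLinearMap
  have h2 : Module.rank R' (LinearMap.range f.toLinearMap) = Module.rank R' (A ⧸ J) := by
    rw [LinearMap.range_eq_top.mpr hfsurj, rank_top]
  have h3 : Module.rank R' (LinearMap.ker f.toLinearMap) = Module.rank R' (A ⧸ K) := by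
    have h4 : LinearMap.range g0 = LinearMap.ker f.toLinearMap := by
      ext q
      constructor
      · rintro ⟨y, rfl⟩
        rw [LinearMap.mem_ker]
        show f (Ideal.Quotient.mk I (y * b)) = 0
        show Ideal.Quotient.mk J (y * b) = 0
        rw [Ideal.Quotient.eq_zero_iff_mem]
        exact Ideal.mem_span_singleton'.mpr ⟨y, rfl⟩
      · intro hq
        obtain ⟨y, rfl⟩ := Ideal.Quotient.mk_surjective q
        rw [LinearMap.mem_ker] at hq
        have h5 : Ideal.Quotient.mk J y = 0 := hq
        rw [Ideal.Quotient.eq_zero_iff_mem] at h5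
        obtain ⟨w, rfl⟩ := Ideal.mem_span_singleton'.mp h5
        exact ⟨w, rfl⟩
    rw [← h4]
    have h5 : LinearMap.ker g0 = K.restrictScalars R' := by
      apply le_antisymm _ hker
      intro y hy
      rw [LinearMap.mem_ker, hg0, Ideal.Quotient.eq_zero_iff_mem] at hy
      obtain ⟨w, hw⟩ := Ideal.mem_span_singleton'.mp hy
      have : w * a = y := by
        apply mul_right_cancel₀ hb
        rw [← hw]; ring
      exact Ideal.mem_span_singleton'.mpr ⟨w, this⟩
    rw [← (LinearMap.quotKerEquivRange g0).rank_eq, h5]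
    exact (Submodule.Quotient.restrictScalarsEquiv R' K).rank_eq
  rw [← h1, h2, h3]

/-- the statement proved by induction -/
def RankStmt (ι : Type) [Fintype ι] : Prop :=
  ∀ (L : Submodule ℂ (Option ι → ℂ)) (A : Type) [CommRing A] [Algebra ℂ A]
    [Algebra (MvPolynomial ι ℂ) A] [IsScalarTower ℂ (MvPolynomial ι ℂ) A]
    (x c : Option ι → A), IsUniv none L x c →
    (∀ i, algebraMap (MvPolynomial ι ℂ) A (MvPolynomial.X i) = x (some i) ^ 2 * c (some i)) →
    ∃ N : ℕ, Module.rank (MvPolynomial ι ℂ) A = N ∧ 2 * (N : ℤ) = 2 ^ finrank ℂ L * beta L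

theorem exists_one {E : Type} {L : Submodule ℂ (E → ℂ)} {e : E}
    (h : ¬ ∃ z ∈ L, z e = 1) : ∀ z ∈ L, z e = 0 := by
  intro z hz
  by_contra h0
  exact h ⟨(z e)⁻¹ • z, Submodule.smul_mem _ _ hz, by simp [h0]⟩

theorem x_ne_zero {E : Type} [Fintype E] {o e : E} {L : Submodule ℂ (E → ℂ)} {A : Type}
    [CommRing A] [Algebra ℂ A] {x c : E → A} (h : IsUniv o L x c) (h0 : ∃ z ∈ L, z o = 1)
    (he : ∃ w ∈ L, w e = 1) : x e ≠ 0 := by
  intro hx
  have h1 := (h.eq_zero_iff h0 (MvPolynomial.X (Sum.inl e))).mp (by simpa using hx)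
  simp only [MvPolynomial.eval_X, Sum.elim_inl] at h1
  obtain ⟨z, hz, hz1⟩ := h0
  obtain ⟨w, hw, hw1⟩ := he
  have hze := h1 z hz hz1 0 (zero_mem _)
  by_cases hwo : w o = 0
  · have := h1 (z + w) (add_mem hz hw) (by simp [hz1, hwo]) 0 (zero_mem _)
    simp [hze, hw1] at this
  · have := h1 ((w o)⁻¹ • w) (Submodule.smul_mem _ _ hw) (by simp [hwo]) 0 (zero_mem _)
    simp [hw1, hwo] at this

theorem c_ne_zero {E : Type} [Fintype E] {o e : E} {L : Submodule ℂ (E → ℂ)} {A : Type}
    [CommRing A] [Algebra ℂ A] {x c : E → A} (h : IsUniv o L x c) (h0 : ∃ z ∈ L, z o = 1)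
    (he : ∃ w ∈ perp L, w e = 1) : c e ≠ 0 := by
  intro hc
  have h1 := (h.eq_zero_iff h0 (MvPolynomial.X (Sum.inr e))).mp (by simpa using hc)
  simp only [MvPolynomial.eval_X, Sum.elim_inr] at h1
  obtain ⟨z, hz, hz1⟩ := h0
  obtain ⟨w, hw, hw1⟩ := he
  have := h1 z hz hz1 w hw
  rw [hw1] at this
  exact one_ne_zero this

theorem subsingleton_of_loop {E : Type} [Fintype E] {o : E} {L : Submodule ℂ (E → ℂ)} {A : Type}
    [CommRing A] [Algebra ℂ A] {x c : E → A} (h : IsUniv o L x c) (h0 : ∀ z ∈ L, z o = 0) :
    Subsingleton A := by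
  classical
  have h1 : (fun i => if i = o then (1 : ℂ) else 0) ∈ perp L := by
    intro z hz
    simp [h0 z hz]
  have h2 := h.hx _ h1
  simp only [ite_smul, one_smul, zero_smul, Finset.sum_ite_eq', Finset.mem_univ, if_true] at h2
  rw [h.hone] at h2
  exact subsingleton_of_zero_eq_one h2.symm

theorem x_eq_zero_of_loop {E : Type} [Fintype E] {o e : E} {L : Submodule ℂ (E → ℂ)} {A : Type}
    [CommRing A] [Algebra ℂ A] {x c : E → A} (h : IsUniv o L x c) (h0 : ∀ z ∈ L, z e = 0) :
    x e = 0 := by
  classical
  have h1 : (fun i => if i = e then (1 : ℂ) else 0) ∈ perp L := by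
    intro z hz
    simp [h0 z hz]
  have h2 := h.hx _ h1
  simpa using h2

theorem c_eq_zero_of_coloop {E : Type} [Fintype E] {o e : E} {L : Submodule ℂ (E → ℂ)} {A : Type}
    [CommRing A] [Algebra ℂ A] {x c : E → A} (h : IsUniv o L x c)
    (h0 : ∀ z ∈ perp L, z e = 0) : c e = 0 := by
  classical
  have h1 : (fun i => if i = e then (1 : ℂ) else 0) ∈ perp (perp L) := by
    intro z hz
    simp [h0 z hz]
  have h2 := h.hc _ h1
  simpa using h2

theorem nocoloop_of {E : Type} [Fintype E] {e : E} {L : Submodule ℂ (E → ℂ)}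
    (h : ∃ w ∈ perp L, w e = 1) : ∀ z ∈ L, (∀ i, i ≠ e → z i = 0) → z e = 0 := by
  classical
  obtain ⟨w, hw, hw1⟩ := h
  intro z hz h0
  have h1 := hw z hz
  rw [Finset.sum_eq_single e (fun i _ hi => by rw [h0 i hi, mul_zero])
    (fun h => absurd (Finset.mem_univ e) h), hw1, one_mul] at h1
  exact h1

/-- a nonzero polynomial not divisible by `X none` has nonzero constant coefficient -/
theorem coeff_ne_of_not_dvd {ι : Type} (G : MvPolynomial (Option ι) ℂ)
    (h : ¬ MvPolynomial.X none ∣ G) : (MvPolynomial.optionEquivLeft ℂ ι G).coeff 0 ≠ 0 := by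
  intro h0
  obtain ⟨g, hg⟩ := Polynomial.X_dvd_iff.mpr h0
  apply h
  refine ⟨(MvPolynomial.optionEquivLeft ℂ ι).symm g, ?_⟩
  apply (MvPolynomial.optionEquivLeft ℂ ι).injective
  rw [map_mul, AlgEquiv.apply_symm_apply, MvPolynomial.optionEquivLeft_X_none]
  exact hg

theorem rank_step {ι : Type} [Fintype ι] (ih : RankStmt ι) : RankStmt (Option ι) := by
  classical
  intro L A _ _ _ _ x c hU hX
  by_cases h0 : ∃ z ∈ L, z none = 1
  swap
  · have h1 := exists_one h0
    have := subsingleton_of_loop hU h1
    refine ⟨0, ?_, ?_⟩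
    · rw [Nat.cast_zero, rank_eq_zero_iff]
      intro a
      exact ⟨1, one_ne_zero, Subsingleton.elim _ _⟩
    · rw [beta_loop L none h1]; simp
  by_cases he : ∃ w ∈ L, w (some none) = 1
  swap
  · have h1 := exists_one he
    refine ⟨0, ?_, ?_⟩
    · rw [Nat.cast_zero, rank_eq_zero_iff]
      intro a
      refine ⟨MvPolynomial.X none, MvPolynomial.X_ne_zero _, ?_⟩
      rw [Algebra.smul_def, hX, x_eq_zero_of_loop hU h1]
      ring
    · rw [beta_loop L _ h1]; simp
  by_cases hco : ∃ w ∈ perp L, w (some none) = 1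
  swap
  · have h1 := exists_one hco
    refine ⟨0, ?_, ?_⟩
    · rw [Nat.cast_zero, rank_eq_zero_iff]
      intro a
      refine ⟨MvPolynomial.X none, MvPolynomial.X_ne_zero _, ?_⟩
      rw [Algebra.smul_def, hX, c_eq_zero_of_coloop hU h1]
      ring
    · rw [beta_coloop L (some none) none (by simp) ?_]
      · simp
      · refine ⟨fun i => if i = some none then 1 else 0, ?_, by simp, fun i hi => by simp [hi]⟩
        apply mem_of_perp
        intro y hy
        simp [h1 y hy]
  have hdom : IsDomain A := hU.isDomain h0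
  have hxe := x_ne_zero hU h0 he
  have hce := c_ne_zero hU h0 hco
  let eqv := MvPolynomial.optionEquivLeft ℂ ι
  letI algX : Algebra (Polynomial (MvPolynomial ι ℂ)) A :=
    ((algebraMap (MvPolynomial (Option ι) ℂ) A).comp
      (eqv.symm : Polynomial (MvPolynomial ι ℂ) →+* MvPolynomial (Option ι) ℂ)).toAlgebra
  letI algR' : Algebra (MvPolynomial ι ℂ) A :=
    ((algebraMap (Polynomial (MvPolynomial ι ℂ)) A).comp Polynomial.C).toAlgebra
  have hmapX : ∀ p : Polynomial (MvPolynomial ι ℂ), algebraMap (Polynomial (MvPolynomial ι ℂ)) A p =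
    algebraMap (MvPolynomial (Option ι) ℂ) A (eqv.symm p) := fun _ => rfl
  have hmapR' : ∀ p : MvPolynomial ι ℂ, algebraMap (MvPolynomial ι ℂ) A p =
    algebraMap (MvPolynomial (Option ι) ℂ) A (eqv.symm (Polynomial.C p)) := fun _ => rfl
  haveI tow1 : IsScalarTower (MvPolynomial ι ℂ) (Polynomial (MvPolynomial ι ℂ)) A :=
    IsScalarTower.of_algebraMap_eq (fun _ => rfl)
  haveI tow2 : IsScalarTower ℂ (MvPolynomial ι ℂ) A :=
    IsScalarTower.of_algebraMap_eq (fun r => by
      rw [hmapR', MvPolynomial.algebraMap_eq, MvPolynomial.optionEquivLeft_symm_C_C,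
        ← MvPolynomial.algebraMap_eq, ← IsScalarTower.algebraMap_apply])
  haveI tow3 : IsScalarTower ℂ (Polynomial (MvPolynomial ι ℂ)) A :=
    IsScalarTower.of_algebraMap_eq (fun r => by
      rw [hmapX, Polynomial.algebraMap_apply, MvPolynomial.algebraMap_eq,
        MvPolynomial.optionEquivLeft_symm_C_C,
        ← MvPolynomial.algebraMap_eq, ← IsScalarTower.algebraMap_apply])
  have hrank : Module.rank (MvPolynomial (Option ι) ℂ) A =
      Module.rank (Polynomial (MvPolynomial ι ℂ)) A := by
    apply rank_eq_of_equiv_equiv eqv (AddEquiv.refl A) eqv.bijective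
    intro r m
    show r • m = eqv r • m
    rw [Algebra.smul_def, Algebra.smul_def, hmapX, AlgEquiv.symm_apply_apply]
  have hXX : algebraMap (Polynomial (MvPolynomial ι ℂ)) A Polynomial.X =
      x (some none) * (x (some none) * c (some none)) := by
    rw [hmapX, MvPolynomial.optionEquivLeft_symm_X, hX]
    ring
  -- induction hypotheses
  obtain ⟨N1, hN1, hb1⟩ := ih (ctr L) (A ⧸ Ideal.span {x (some none)}) _ _ (hU.contract he) (by
    intro i
    have h1 : algebraMap (MvPolynomial ι ℂ) (A ⧸ Ideal.span {x (some none)}) (MvPolynomial.X i) =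
        Ideal.Quotient.mk _ (algebraMap (MvPolynomial ι ℂ) A (MvPolynomial.X i)) := rfl
    rw [h1, hmapR', MvPolynomial.optionEquivLeft_symm_C_X, hX, map_mul, map_pow]
    rfl)
  obtain ⟨N2, hN2, hb2⟩ := ih (del L) (A ⧸ Ideal.span {c (some none)}) _ _ (hU.delete hco) (by
    intro i
    have h1 : algebraMap (MvPolynomial ι ℂ) (A ⧸ Ideal.span {c (some none)}) (MvPolynomial.X i) =
        Ideal.Quotient.mk _ (algebraMap (MvPolynomial ι ℂ) A (MvPolynomial.X i)) := rfl
    rw [h1, hmapR', MvPolynomial.optionEquivLeft_symm_C_X, hX, map_mul, map_pow]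
    rfl)
  have hfib : Module.rank (MvPolynomial ι ℂ) (A ⧸ tIdeal (MvPolynomial ι ℂ) A) =
      ((N2 + N1 + N1 : ℕ) : Cardinal) := by
    rw [tIdeal, hXX, rank_quot_mul _ _ (mul_ne_zero hxe hce), rank_quot_mul _ _ hce, hN1, hN2]
    push_cast
    rfl
  refine ⟨N2 + N1 + N1, ?_, ?_⟩
  · rw [hrank]
    have ht : algebraMap (Polynomial (MvPolynomial ι ℂ)) A Polynomial.X ≠ 0 := by
      rw [hXX]
      exact mul_ne_zero hxe (mul_ne_zero hxe hce)
    by_cases hinj : Function.Injective (algebraMap (Polynomial (MvPolynomial ι ℂ)) A)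
    swap
    · obtain ⟨h1, h2⟩ := rank_fibre_noninj ht hinj
      rw [h1, ← hfib, h2]
    · let Ω := FractionRing A
      have hAΩ : Function.Injective (algebraMap A Ω) := IsFractionRing.injective A Ω
      refine rank_fibre_inj (Ω := Ω) hAΩ ht hinj (Set.range x ∪ Set.range c)
        ((Set.finite_range x).union (Set.finite_range c)) ?_ ?_ _ hfib
      · rw [eq_top_iff]
        intro a _
        have ha : a ∈ Algebra.adjoin ℂ (Set.range x ∪ Set.range c) := by rw [hU.gen]; trivial
        induction ha using Algebra.adjoin_induction with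
        | mem y hy => exact Algebra.subset_adjoin hy
        | algebraMap r =>
          rw [IsScalarTower.algebraMap_apply ℂ (Polynomial (MvPolynomial ι ℂ)) A]
          exact Subalgebra.algebraMap_mem _ _
        | add y z _ _ hy hz => exact add_mem (hy trivial) (hz trivial)
        | mul y z _ _ hy hz => exact mul_mem (hy trivial) (hz trivial)
      · intro g hg V hV
        have hmem : ∀ G : MvPolynomial (Option ι) ℂ,
            algebraMap A Ω (algebraMap (MvPolynomial (Option ι) ℂ) A G) ∈ V := by
          intro G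
          apply hV
          have h1 : algebraMap A Ω (algebraMap (MvPolynomial (Option ι) ℂ) A G) =
              algebraMap (Polynomial (MvPolynomial ι ℂ)) Ω (eqv G) := by
            rw [IsScalarTower.algebraMap_apply (Polynomial (MvPolynomial ι ℂ)) A Ω, hmapX,
              AlgEquiv.symm_apply_apply]
          rw [h1]
          exact algebraMap_mem_locSub _
        have hCV : ∀ r : ℂ, algebraMap ℂ Ω r ∈ V := by
          intro r
          have h1 := hmem (MvPolynomial.C r)
          rwa [← MvPolynomial.algebraMap_eq, ← IsScalarTower.algebraMap_apply,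
            ← IsScalarTower.algebraMap_apply] at h1
        letI : Algebra ℂ V := ((algebraMap ℂ Ω).codRestrict V hCV).toAlgebra
        haveI : IsScalarTower ℂ V Ω := IsScalarTower.of_algebraMap_eq (fun _ => rfl)
        let f : A →ₐ[ℂ] Ω := IsScalarTower.toAlgHom ℂ A Ω
        have hf : ∀ a, f a = algebraMap A Ω a := fun _ => rfl
        have haev : ∀ G : MvPolynomial (Option ι) ℂ,
            MvPolynomial.aeval (fun i : Option ι => f (x (some i)) ^ 2 * f (c (some i))) G =
            algebraMap A Ω (algebraMap (MvPolynomial (Option ι) ℂ) A G) := by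
          intro G
          have h1 : MvPolynomial.aeval
              (fun i : Option ι => f (x (some i)) ^ 2 * f (c (some i))) =
              f.comp (IsScalarTower.toAlgHom ℂ (MvPolynomial (Option ι) ℂ) A) := by
            apply MvPolynomial.algHom_ext
            intro i
            rw [MvPolynomial.aeval_X]
            show f (x (some i)) ^ 2 * f (c (some i)) =
              f (algebraMap (MvPolynomial (Option ι) ℂ) A (MvPolynomial.X i))
            rw [hX, map_mul, map_pow]
          rw [h1]
          rfl
        have key := val_finite V L none (nocoloop_of hco)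
          (by
            have : ∃ w ∈ perp (perp L), w (some none) = 1 := by rwa [perp_perp]
            exact nocoloop_of this)
          (fun i => f (x i)) (fun i => f (c i)) (hU.hx.map f) (hU.hc.map f)
          (by
            show f (x none) = 1
            rw [hU.hone, map_one])
          (by
            intro i
            show f (x (some i)) ^ 2 * f (c (some i)) ∈ V
            have h1 := hmem (MvPolynomial.X i)
            rw [hX, map_mul, map_pow] at h1
            exact h1)
          (by
            intro G hG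
            have h1 := coeff_ne_of_not_dvd G hG
            have h2 : algebraMap A Ω (algebraMap (MvPolynomial (Option ι) ℂ) A G) =
              algebraMap (Polynomial (MvPolynomial ι ℂ)) Ω (eqv G) := by
              rw [IsScalarTower.algebraMap_apply (Polynomial (MvPolynomial ι ℂ)) A Ω, hmapX,
                AlgEquiv.symm_apply_apply]
            have h3 := haev G
            rw [h2] at h3
            have h4 : algebraMap (Polynomial (MvPolynomial ι ℂ)) Ω (eqv G) ≠ 0 := by
              intro h5
              rw [IsScalarTower.algebraMap_apply (Polynomial (MvPolynomial ι ℂ)) A Ω] at h5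
              have h6 : algebraMap (Polynomial (MvPolynomial ι ℂ)) A (eqv G) = 0 :=
                hAΩ (by rw [h5, map_zero])
              have h7 : eqv G = 0 := hinj (by rw [h6, map_zero])
              apply h1
              show (eqv G).coeff 0 = 0
              rw [h7, Polynomial.coeff_zero]
            show MvPolynomial.aeval (fun i : Option ι => f (x (some i)) ^ 2 * f (c (some i))) G ≠ 0
              ∧ (MvPolynomial.aeval
                (fun i : Option ι => f (x (some i)) ^ 2 * f (c (some i))) G)⁻¹ ∈ V
            rw [h3]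
            refine ⟨h4, ?_⟩
            apply hV
            exact ⟨1, eqv G, h1, by rw [inv_mul_cancel₀ h4, map_one]⟩)
        rcases hg with ⟨i, rfl⟩ | ⟨i, rfl⟩
        · exact key.1 i
        · exact key.2 i
  · rw [beta_rec L (nocoloop_of hco) he]
    rw [finrank_del L (nocoloop_of hco)] at hb2
    have h5 : finrank ℂ L = finrank ℂ (ctr L) + 1 := by
      have := finrank_ctr L he
      omega
    push_cast
    rw [mul_add, h5, pow_succ]
    rw [h5, pow_succ] at hb2
    linear_combination hb2 + 2 * hb1

theorem rank_base : RankStmt Empty := by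
  classical
  intro L A _ _ _ _ x c hU hX
  by_cases h0 : ∃ z ∈ L, z none = 1
  swap
  · have h1 := exists_one h0
    have := subsingleton_of_loop hU h1
    refine ⟨0, ?_, ?_⟩
    · rw [Nat.cast_zero, rank_eq_zero_iff]
      intro a
      exact ⟨1, one_ne_zero, Subsingleton.elim _ _⟩
    · rw [beta_loop L none h1]; simp
  have hdom : IsDomain A := hU.isDomain h0
  have hperp : ∀ y ∈ perp L, y none = 0 := by
    intro y hy
    obtain ⟨z, hz, hz1⟩ := h0
    have := hy z hz
    rw [Fintype.sum_option] at this
    simpa [hz1] using this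
  have hc0 := c_eq_zero_of_coloop hU hperp
  have hsurjC : Function.Surjective (algebraMap ℂ A) := by
    intro a
    have ha : a ∈ Algebra.adjoin ℂ (Set.range x ∪ Set.range c) := by rw [hU.gen]; trivial
    have hle : Algebra.adjoin ℂ (Set.range x ∪ Set.range c) ≤ ⊥ := by
      rw [Algebra.adjoin_le_iff]
      rintro _ (⟨i, rfl⟩ | ⟨i, rfl⟩)
      · rcases i with _ | i
        · rw [hU.hone]; exact one_mem _
        · exact i.elim
      · rcases i with _ | i
        · rw [hc0]; exact zero_mem _
        · exact i.elim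
    exact Algebra.mem_bot.mp (hle ha)
  have hfin : finrank ℂ L = 1 := by
    have h1 := finrank_perp_add L
    have h2 : finrank ℂ L ≠ 0 := by
      intro h2
      rw [Submodule.finrank_eq_zero] at h2
      obtain ⟨z, hz, hz1⟩ := h0
      rw [h2, Submodule.mem_bot] at hz
      rw [hz] at hz1
      simp at hz1
    have h3 : Fintype.card (Option Empty) = 1 := rfl
    omega
  refine ⟨1, ?_, ?_⟩
  · have hinj : Function.Injective (algebraMap (MvPolynomial Empty ℂ) A) := by
      rw [injective_iff_map_eq_zero]
      intro p hp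
      rw [MvPolynomial.eq_C_of_isEmpty p, ← MvPolynomial.algebraMap_eq,
        ← IsScalarTower.algebraMap_apply] at hp
      have h1 : MvPolynomial.coeff 0 p = 0 := by
        apply (algebraMap ℂ A).injective
        rw [map_zero]
        exact hp
      rw [MvPolynomial.eq_C_of_isEmpty p, h1, map_zero]
    have hsurj : Function.Surjective (algebraMap (MvPolynomial Empty ℂ) A) := by
      intro a
      obtain ⟨r, rfl⟩ := hsurjC a
      exact ⟨MvPolynomial.C r, by
        rw [← MvPolynomial.algebraMap_eq, ← IsScalarTower.algebraMap_apply]⟩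
    have e := LinearEquiv.ofBijective (Algebra.linearMap (MvPolynomial Empty ℂ) A) ⟨hinj, hsurj⟩
    rw [← e.rank_eq, rank_self, Nat.cast_one]
  · rw [beta, hfin, sum_subsets _ none]
    have h1 : (Finset.univ.erase (none : Option Empty)) = ∅ := by
      ext i
      rcases i with _ | i
      · simp
      · exact i.elim
    have h2 : (insert (none : Option Empty) (∅ : Finset (Option Empty))) = Finset.univ := by
      rw [Finset.eq_univ_iff_forall]
      intro i
      rcases i with _ | i
      · exact Finset.mem_insert_self _ _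
      · exact i.elim
    rw [h1, Finset.powerset_empty, Finset.sum_singleton, h2, rk_univ, rk_empty, hfin]
    simp

/-- iterated `Option` -/
def OI : ℕ → Type
  | 0 => Empty
  | n + 1 => Option (OI n)

instance instFintypeOI : ∀ n, Fintype (OI n)
  | 0 => inferInstanceAs (Fintype Empty)
  | n + 1 => @instFintypeOption (OI n) (instFintypeOI n)

theorem card_OI (n : ℕ) : Fintype.card (OI n) = n := by
  induction n with
  | zero => rfl
  | succ n ih =>
    have : Fintype.card (OI (n + 1)) = Fintype.card (Option (OI n)) := rfl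
    rw [this, Fintype.card_option, ih]

theorem rank_main (n : ℕ) : RankStmt (OI n) := by
  induction n with
  | zero => exact rank_base
  | succ n ih => exact rank_step ih

end Pool.Agent.H286R3
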