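import Mathlib
import Pool.Agent.H286R3.Rec

/-!
Connectedness and positivity of the beta invariant (Tutte's lemma).
-/

namespace Pool.Agent.H286R3

open Module

/-- no separation -/
def Conn {E : Type} [Fintype E] (L : Submodule ℂ (E → ℂ)) : Prop :=
  ∀ S T : Finset E, S.Nonempty → T.Nonempty → (∀ i, i ∈ T ↔ i ∉ S) →
    rk L S + rk L T ≠ rk L Finset.univ

section
variable {E : Type} [Fintype E] [DecidableEq E]

theorem conn_iff (L : Submodule ℂ (E → ℂ)) : Conn L ↔
    ∀ S : Finset E, S.Nonempty → Sᶜ.Nonempty → rk L S + rk L Sᶜ ≠ rk L Finset.univ := by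
  constructor
  · intro h S h1 h2
    exact h S Sᶜ h1 h2 (fun i => Finset.mem_compl)
  · intro h S T h1 h2 h3
    have h4 : T = Sᶜ := by
      ext i; rw [h3, Finset.mem_compl]
    rw [h4] at h2 ⊢
    exact h S h1 h2

theorem rk_compl_ge (L : Submodule ℂ (E → ℂ)) (S : Finset E) :
    rk L Finset.univ ≤ rk L S + rk L Sᶜ := by
  have h := rk_submod L S Sᶜ
  rw [Finset.union_compl, Finset.inter_compl, rk_empty, add_zero] at h
  exact h

theorem Conn.ge {L : Submodule ℂ (E → ℂ)} (h : Conn L) {S : Finset E} (h1 : S.Nonempty)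
    (h2 : Sᶜ.Nonempty) : rk L Finset.univ + 1 ≤ rk L S + rk L Sᶜ := by
  have h3 := rk_compl_ge L S
  have h4 := (conn_iff L).mp h S h1 h2
  omega

theorem Conn.noloop {L : Submodule ℂ (E → ℂ)} (h : Conn L) (e o : E) (ho : o ≠ e) :
    ∃ z ∈ L, z e = 1 := by
  by_contra h0
  have h1 := exists_one h0
  apply (conn_iff L).mp h {e} ⟨e, Finset.mem_singleton_self e⟩ ⟨o, by simp [ho]⟩
  have h2 := rk_insert_loop L ∅ e h1
  rw [insert_empty_eq, rk_empty] at h2
  have h3 := rk_insert_loop L {e}ᶜ e h1
  have h4 : insert e ({e}ᶜ : Finset E) = Finset.univ := by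
    rw [Finset.eq_univ_iff_forall]
    intro i
    by_cases hi : i = e <;> simp [hi]
  rw [h4] at h3
  omega

theorem Conn.nocoloop {L : Submodule ℂ (E → ℂ)} (h : Conn L) (e o : E) (ho : o ≠ e) :
    ∀ z ∈ L, (∀ i, i ≠ e → z i = 0) → z e = 0 := by
  intro z hz hz0
  by_contra hze
  have h0 : ∃ z ∈ L, z e = 1 ∧ ∀ i, i ≠ e → z i = 0 :=
    ⟨(z e)⁻¹ • z, Submodule.smul_mem _ _ hz, by simp [hze], fun i hi => by simp [hz0 i hi]⟩
  apply (conn_iff L).mp h {e} ⟨e, Finset.mem_singleton_self e⟩ ⟨o, by simp [ho]⟩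
  have h2 := rk_insert_coloop L ∅ e (Finset.notMem_empty _) h0
  rw [insert_empty_eq, rk_empty] at h2
  have h3 := rk_insert_coloop L {e}ᶜ e (by simp) h0
  have h4 : insert e ({e}ᶜ : Finset E) = Finset.univ := by
    rw [Finset.eq_univ_iff_forall]
    intro i
    by_cases hi : i = e <;> simp [hi]
  rw [h4] at h3
  omega

end

section
variable {ι : Type} [Fintype ι] [DecidableEq ι] (L : Submodule ℂ (Option (Option ι) → ℂ))

omit [DecidableEq ι] in
theorem jS_univ_insert [DecidableEq (Option (Option ι))] :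
    insert (some none) (jS (Finset.univ : Finset (Option ι))) = Finset.univ := by
  rw [Finset.eq_univ_iff_forall]
  intro i
  by_cases hi : i = some none
  · rw [hi]; exact Finset.mem_insert_self _ _
  · obtain ⟨i', rfl⟩ := exists_jj i hi
    exact Finset.mem_insert_of_mem (mem_jS.mpr ⟨i', Finset.mem_univ _, rfl⟩)

theorem jS_compl (S : Finset (Option ι)) :
    (jS S)ᶜ = insert (some none) (jS Sᶜ) := by
  ext i
  rw [Finset.mem_compl, Finset.mem_insert]
  by_cases hi : i = some none
  · rw [hi]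
    simp [notMem_jS]
  · obtain ⟨i', rfl⟩ := exists_jj i hi
    simp only [mem_jS, jj_injective.eq_iff, exists_eq_right, Finset.mem_compl, hi, false_or]

theorem jS_compl' (S : Finset (Option ι)) :
    (insert (some none) (jS S))ᶜ = jS Sᶜ := by
  have := jS_compl Sᶜ
  rw [compl_compl] at this
  rw [← this, compl_compl]

theorem tutte_aux (h : Conn L) (A C : Finset (Option ι))
    (hA : rk L (jS A) + rk L (jS Aᶜ) ≤ rk L Finset.univ)
    (hC : rk L (insert (some none) (jS C)) + rk L (insert (some none) (jS Cᶜ)) ≤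
      rk L Finset.univ + 1) : A ∩ C = ∅ ∨ Aᶜ ∩ Cᶜ = ∅ := by
  by_contra hcon
  push Not at hcon
  obtain ⟨h1, h2⟩ := hcon
  have key : ∀ A C : Finset (Option ι), (A ∩ C).Nonempty →
      rk L Finset.univ + 1 ≤ rk L (jS (A ∩ C)) + rk L (insert (some none) (jS (Aᶜ ∪ Cᶜ))) := by
    intro A C hne
    have h3 : (jS (A ∩ C)).Nonempty := by
      obtain ⟨i, hi⟩ := hne
      exact ⟨jj i, mem_jS.mpr ⟨i, hi, rfl⟩⟩
    have h4 : (jS (A ∩ C))ᶜ.Nonempty := ⟨some none, by simp [notMem_jS]⟩
    have h5 := h.ge h3 h4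
    rw [jS_compl, Finset.compl_inter] at h5
    exact h5
  have sub : ∀ A C : Finset (Option ι),
      rk L (jS (A ∩ C)) + rk L (insert (some none) (jS (A ∪ C))) ≤
      rk L (jS A) + rk L (insert (some none) (jS C)) := by
    intro A C
    have h3 := rk_submod L (jS A) (insert (some none) (jS C))
    have h4 : jS A ∪ insert (some none) (jS C) = insert (some none) (jS (A ∪ C)) := by
      rw [Finset.union_insert]
      congr 1
      exact (Finset.map_union _ _).symm
    have h5 : jS A ∩ insert (some none) (jS C) = jS (A ∩ C) := by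
      rw [Finset.inter_insert_of_notMem (notMem_jS A)]
      exact (Finset.map_inter _ _).symm
    rw [h4, h5] at h3
    omega
  have k1 := key A C h1
  have k2 := key Aᶜ Cᶜ h2
  rw [compl_compl, compl_compl] at k2
  have s1 := sub A C
  have s2 := sub Aᶜ Cᶜ
  omega

theorem tutte (h : Conn L) (hl : ∃ w ∈ L, w (some none) = 1)
    (hco : ∀ z ∈ L, (∀ i, i ≠ some none → z i = 0) → z (some none) = 0)
    (h1 : ¬ Conn (del L)) : Conn (ctr L) := by
  rw [conn_iff]
  intro C hC1 hC2 hC
  apply h1
  rw [conn_iff]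
  intro A hA1 hA2 hA
  rw [rk_del L hco, rk_del L hco, rk_del L hco] at hA
  rw [rk_ctr L hl, rk_ctr L hl, rk_ctr L hl, jS_univ_insert] at hC
  have hle := rk_mono L (Finset.subset_univ (jS (Finset.univ : Finset (Option ι))))
  have t1 := tutte_aux L h A C (by omega) (by omega)
  have t2 := tutte_aux L h A Cᶜ (by omega) (by rw [compl_compl]; omega)
  rw [compl_compl] at t2
  have hsplit : ∀ X Y : Finset (Option ι), X ∩ Y = ∅ → X ∩ Yᶜ = ∅ → X = ∅ := by
    intro X Y h1 h2
    rw [Finset.eq_empty_iff_forall_notMem] at *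
    intro i hi
    by_cases hY : i ∈ Y
    · exact h1 i (Finset.mem_inter.mpr ⟨hi, hY⟩)
    · exact h2 i (Finset.mem_inter.mpr ⟨hi, Finset.mem_compl.mpr hY⟩)
  rcases t1 with t1 | t1 <;> rcases t2 with t2 | t2
  · exact hA1.ne_empty (hsplit A C t1 t2)
  · rw [Finset.inter_comm] at t1 t2
    exact hC1.ne_empty (hsplit C A t1 t2)
  · rw [Finset.inter_comm] at t1 t2
    exact hC2.ne_empty (hsplit Cᶜ A t2 t1)
  · exact hA2.ne_empty (hsplit Aᶜ C t2 t1)

end

theorem beta_nonneg (n : ℕ) (L : Submodule ℂ (Option (OI n) → ℂ)) : 0 ≤ beta L := by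
  classical
  by_cases h0 : ∃ z ∈ L, z none = 1
  swap
  · rw [beta_loop L none (exists_one h0)]
  obtain ⟨a, b, x, c, hU⟩ := exists_model h0
  letI : Algebra (MvPolynomial (OI n) ℂ) (MvPolynomial (Fin a ⊕ Fin b) ℂ) :=
    ((MvPolynomial.aeval (fun i => x (some i) ^ 2 * c (some i)) :
      MvPolynomial (OI n) ℂ →ₐ[ℂ] MvPolynomial (Fin a ⊕ Fin b) ℂ) :
      MvPolynomial (OI n) ℂ →+* MvPolynomial (Fin a ⊕ Fin b) ℂ).toAlgebra
  haveI : IsScalarTower ℂ (MvPolynomial (OI n) ℂ) (MvPolynomial (Fin a ⊕ Fin b) ℂ) :=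
    IsScalarTower.of_algebraMap_eq (fun r => by
      show _ = (MvPolynomial.aeval (fun i => x (some i) ^ 2 * c (some i)) :
        MvPolynomial (OI n) ℂ →ₐ[ℂ] MvPolynomial (Fin a ⊕ Fin b) ℂ) (algebraMap ℂ _ r)
      rw [AlgHom.commutes])
  obtain ⟨N, -, hN⟩ := rank_main n L _ x c hU (fun i => by
    show (MvPolynomial.aeval (fun i => x (some i) ^ 2 * c (some i)) :
        MvPolynomial (OI n) ℂ →ₐ[ℂ] MvPolynomial (Fin a ⊕ Fin b) ℂ) (MvPolynomial.X i) = _
    rw [MvPolynomial.aeval_X])
  have h1 : (0 : ℤ) < 2 ^ finrank ℂ L := by positivity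
  have h2 : 0 ≤ 2 ^ finrank ℂ L * beta L := by rw [← hN]; positivity
  exact nonneg_of_mul_nonneg_right h2 h1

theorem beta_base (L : Submodule ℂ (Option Empty → ℂ)) (h : L ≠ ⊥) : beta L = 1 := by
  classical
  have hfin : finrank ℂ L = 1 := by
    have h1 := finrank_perp_add L
    have h2 : finrank ℂ L ≠ 0 := by
      intro h2
      rw [Submodule.finrank_eq_zero] at h2
      exact h h2
    have h3 : Fintype.card (Option Empty) = 1 := rfl
    omega
  rw [beta, hfin, sum_subsets _ none]
  have h1 : (Finset.univ.erase (none : Option Empty)) = ∅ := by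
    ext i
    rcases i with _ | i
    · simp
    · exact i.elim
  have h2 : (insert (none : Option Empty) (∅ : Finset (Option Empty))) = Finset.univ := by
    rw [Finset.eq_univ_iff_forall]
    intro i
    rcases i with _ | i
    · exact Finset.mem_insert_self _ _
    · exact i.elim
  rw [h1, Finset.powerset_empty, Finset.sum_singleton, h2, rk_univ, rk_empty, hfin]
  simp

theorem pos_step {ι : Type} [Fintype ι]
    (hnn : ∀ L : Submodule ℂ (Option ι → ℂ), 0 ≤ beta L)
    (ih : ∀ L : Submodule ℂ (Option ι → ℂ), Conn L → L ≠ ⊥ → 0 < beta L)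
    (L : Submodule ℂ (Option (Option ι) → ℂ)) (hL : Conn L) (hne : L ≠ ⊥) : 0 < beta L := by
  classical
  have hl := hL.noloop (some none) none (by simp)
  have hco := hL.nocoloop (some none) none (by simp)
  have hrec := beta_rec L hco hl
  have hpos : 0 < beta (del L) ∨ 0 < beta (ctr L) := by
    have hfin0 : finrank ℂ L ≠ 0 := by
      rw [Ne, Submodule.finrank_eq_zero]; exact hne
    by_cases hd : Conn (del L)
    · left
      apply ih _ hd
      intro h0
      have := finrank_del L hco
      rw [h0, finrank_bot] at this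
      exact hfin0 this.symm
    · right
      have hc := tutte L hL hl hco hd
      apply ih _ hc
      intro h0
      apply hd
      have h1 := finrank_ctr L hl
      rw [h0, finrank_bot] at h1
      have h2 : finrank ℂ L = 1 := by
        have : (finrank ℂ L : ℤ) = 1 := by rw [h1]; simp
        exact_mod_cast this
      have hone : ∀ S : Finset (Option ι), S.Nonempty → rk (del L) S = 1 := by
        intro S hS
        rw [rk_del L hco]
        obtain ⟨i, hi⟩ := hS
        have hni : ∃ o, o ≠ jj i := by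
          rcases i with _ | i
          · exact ⟨some none, by simp⟩
          · exact ⟨none, by simp⟩
        obtain ⟨o, ho⟩ := hni
        obtain ⟨z, hz, hz1⟩ := hL.noloop (jj i) o ho
        have h3 : kerS L (jS S) = ⊥ := by
          rw [eq_bot_iff]
          rintro w ⟨hw, hw0⟩
          have h4 : ∃ r : ℂ, r • z = w := by
            have h5 := (finrank_eq_one_iff_of_nonzero' (⟨z, hz⟩ : L) (by
              intro h6
              have h7 : z = 0 := congrArg Subtype.val h6
              rw [h7] at hz1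
              simp at hz1)).mp h2 ⟨w, hw⟩
            obtain ⟨r, hr⟩ := h5
            exact ⟨r, congrArg Subtype.val hr⟩
          obtain ⟨r, rfl⟩ := h4
          have h8 := hw0 (jj i) (mem_jS.mpr ⟨i, hi, rfl⟩)
          simp only [Pi.smul_apply, hz1, smul_eq_mul, mul_one] at h8
          rw [h8, zero_smul]
          exact zero_mem _
        rw [rk, h3, finrank_bot, h2]
        simp
      rw [conn_iff]
      intro S hS1 hS2
      rw [hone S hS1, hone _ hS2, hone _ ⟨none, Finset.mem_univ _⟩]
      norm_num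
  have h1 := hnn (del L)
  have h2 := hnn (ctr L)
  rw [hrec]
  rcases hpos with h | h
  · omega
  · omega

theorem beta_pos (n : ℕ) : ∀ (L : Submodule ℂ (Option (OI n) → ℂ)), Conn L → L ≠ ⊥ →
    0 < beta L := by
  induction n with
  | zero =>
    intro L _ h
    exact (beta_base L h).symm ▸ one_pos
  | succ n ih =>
    exact pos_step (beta_nonneg n) ih

end Pool.Agent.H286R3
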