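import Mathlib
import Pool.Agent.H286R3.Conn
import Pool.Agent.H286R3.Bir

/-!
The hypersurface swept out by `x ^ 2 c`.
-/

namespace Pool.Agent.H286R3

open Module

theorem hom_eval {σ : Type*} {G : MvPolynomial σ ℂ} {k : ℕ} (hG : G.IsHomogeneous k)
    (w : σ → ℂ) (t : ℂ) :
    MvPolynomial.eval (fun i => t * w i) G = t ^ k * MvPolynomial.eval w G := by
  rw [MvPolynomial.eval_eq, MvPolynomial.eval_eq, Finset.mul_sum]
  refine Finset.sum_congr rfl fun d hd => ?_
  have h1 : d.degree = k := by
    by_contra hne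
    exact MvPolynomial.mem_support_iff.mp hd (hG.coeff_eq_zero hne)
  have h2 : ∏ i ∈ d.support, (t * w i) ^ d i = t ^ k * ∏ i ∈ d.support, w i ^ d i := by
    simp only [mul_pow]
    rw [Finset.prod_mul_distrib, Finset.prod_pow_eq_pow_sum, ← h1]
    rfl
  rw [h2]
  ring

/-- vanishing at all multiples of `w` gives vanishing of all homogeneous components -/
theorem comp_vanish {σ : Type*} (F : MvPolynomial σ ℂ) (w : σ → ℂ)
    (h : ∀ t : ℂ, MvPolynomial.eval (fun i => t * w i) F = 0) (k : ℕ) :
    MvPolynomial.eval w (MvPolynomial.homogeneousComponent k F) = 0 := by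
  let P : Polynomial ℂ := ∑ j ∈ Finset.range (F.totalDegree + 1),
    Polynomial.C (MvPolynomial.eval w (MvPolynomial.homogeneousComponent j F)) * Polynomial.X ^ j
  have hP : P = 0 := by
    apply Polynomial.funext
    intro t
    rw [Polynomial.eval_zero, ← h t]
    conv_rhs => rw [← MvPolynomial.sum_homogeneousComponent F]
    rw [map_sum, Polynomial.eval_finsetSum]
    refine Finset.sum_congr rfl fun j _ => ?_
    rw [hom_eval (MvPolynomial.homogeneousComponent_isHomogeneous j F), Polynomial.eval_mul,
      Polynomial.eval_C, Polynomial.eval_pow, Polynomial.eval_X, mul_comm]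
  by_cases hk : k < F.totalDegree + 1
  · have h1 := congrArg (fun p => Polynomial.coeff p k) hP
    simp only [P, Polynomial.finsetSum_coeff, Polynomial.coeff_C_mul, Polynomial.coeff_X_pow,
      Polynomial.coeff_zero] at h1
    rw [Finset.sum_eq_single k] at h1
    · simpa using h1
    · intro j _ hj
      rw [if_neg (fun h => hj h.symm), mul_zero]
    · intro h2
      exact absurd (Finset.mem_range.mpr hk) h2
  · rw [MvPolynomial.homogeneousComponent_eq_zero _ _ (by omega), map_zero]

/-- if all homogeneous components of `F ≠ 0` are divisible by `F` then `F` is homogeneous -/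
theorem homog_of_dvd {σ : Type*} (F : MvPolynomial σ ℂ)
    (h : ∀ k, F ∣ MvPolynomial.homogeneousComponent k F) : F.IsHomogeneous F.totalDegree := by
  have h1 : ∀ k, k ≠ F.totalDegree → MvPolynomial.homogeneousComponent k F = 0 := by
    intro k hk
    by_contra hne
    obtain ⟨Q, hQ⟩ := h k
    have h2 := (MvPolynomial.homogeneousComponent_isHomogeneous k F).totalDegree hne
    have hF0 : F ≠ 0 := by
      rintro rfl
      exact hne (by simp)
    have hQ0 : Q ≠ 0 := by
      rintro rfl
      exact hne (by rw [hQ, mul_zero])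
    rw [hQ, MvPolynomial.totalDegree_mul_of_isDomain hF0 hQ0] at h2
    have h3 : F.totalDegree < k := by omega
    exact hne (MvPolynomial.homogeneousComponent_eq_zero _ _ h3)
  have h2 : F = MvPolynomial.homogeneousComponent F.totalDegree F := by
    conv_lhs => rw [← MvPolynomial.sum_homogeneousComponent F]
    rw [Finset.sum_eq_single F.totalDegree]
    · intro k _ hk
      exact h1 k hk
    · intro h3
      exact absurd (Finset.mem_range.mpr (Nat.lt_succ_self _)) h3
  have h3 := MvPolynomial.homogeneousComponent_isHomogeneous F.totalDegree F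
  rwa [← h2] at h3

/-- the vanishing condition on the slice -/
def Van {ι : Type} [Fintype ι] (L : Submodule ℂ (Option ι → ℂ))
    (G : MvPolynomial (Option ι) ℂ) : Prop :=
  ∀ z ∈ L, z none = 1 → ∀ y ∈ perp L, MvPolynomial.eval (fun i => z i ^ 2 * y i) G = 0

theorem van_iff {ι : Type} [Fintype ι] {L : Submodule ℂ (Option ι → ℂ)} {A : Type}
    [CommRing A] [Algebra ℂ A] {x c : Option ι → A} (hU : IsUniv none L x c)
    (h0 : ∃ z ∈ L, z none = 1) (G : MvPolynomial (Option ι) ℂ) :
    MvPolynomial.aeval (fun i => x i ^ 2 * c i) G = 0 ↔ Van L G := by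
  let Φ : MvPolynomial (Option ι) ℂ →ₐ[ℂ] MvPolynomial (Option ι ⊕ Option ι) ℂ :=
    MvPolynomial.aeval (fun i => MvPolynomial.X (Sum.inl i) ^ 2 * MvPolynomial.X (Sum.inr i))
  have h1 := hU.eq_zero_iff h0 (Φ G)
  have h2 : MvPolynomial.aeval (Sum.elim x c) (Φ G) =
      MvPolynomial.aeval (fun i => x i ^ 2 * c i) G := by
    have := MvPolynomial.comp_aeval_apply
      (f := fun i : Option ι => (MvPolynomial.X (Sum.inl i) ^ 2 * MvPolynomial.X (Sum.inr i) :
        MvPolynomial (Option ι ⊕ Option ι) ℂ)) (MvPolynomial.aeval (Sum.elim x c)) G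
    refine this.trans ?_
    congr 2
    funext i
    simp
  have h3 : ∀ z y : Option ι → ℂ, MvPolynomial.eval (Sum.elim z y) (Φ G) =
      MvPolynomial.eval (fun i => z i ^ 2 * y i) G := by
    intro z y
    have := MvPolynomial.comp_aeval_apply
      (f := fun i : Option ι => (MvPolynomial.X (Sum.inl i) ^ 2 * MvPolynomial.X (Sum.inr i) :
        MvPolynomial (Option ι ⊕ Option ι) ℂ))
      (MvPolynomial.aeval (Sum.elim z y) : MvPolynomial (Option ι ⊕ Option ι) ℂ →ₐ[ℂ] ℂ) G
    rw [← MvPolynomial.coe_aeval_eq_eval, ← MvPolynomial.coe_aeval_eq_eval]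
    refine this.trans ?_
    show _ = MvPolynomial.aeval (fun i => z i ^ 2 * y i) G
    congr 2
    funext i
    simp
  rw [h2] at h1
  rw [h1]
  constructor
  · intro h z hz hz1 y hy
    rw [← h3]; exact h z hz hz1 y hy
  · intro h z hz hz1 y hy
    rw [h3]; exact h z hz hz1 y hy

theorem Van.comp {ι : Type} [Fintype ι] {L : Submodule ℂ (Option ι → ℂ)}
    {G : MvPolynomial (Option ι) ℂ} (h : Van L G) (k : ℕ) :
    Van L (MvPolynomial.homogeneousComponent k G) := by
  intro z hz hz1 y hy
  apply comp_vanish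
  intro t
  have := h z hz hz1 (t • y) (Submodule.smul_mem _ _ hy)
  rw [← this]
  congr 2
  funext i
  simp only [Pi.smul_apply, smul_eq_mul]
  ring

theorem isIntegral_c0 {ι : Type} [Fintype ι] {A : Type} [CommRing A] [IsDomain A]
    [Algebra ℂ A] [Algebra (MvPolynomial ι ℂ) A] [IsScalarTower ℂ (MvPolynomial ι ℂ) A]
    (L : Submodule ℂ (Option ι → ℂ)) (x c : Option ι → A) (hU : IsUniv none L x c)
    (hX : ∀ i, algebraMap (MvPolynomial ι ℂ) A (MvPolynomial.X i) = x (some i) ^ 2 * c (some i)) :
    IsIntegral (MvPolynomial ι ℂ) (c none) := by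
  let Ω := FractionRing A
  have hAΩ : Function.Injective (algebraMap A Ω) := IsFractionRing.injective A Ω
  let B : Subalgebra (MvPolynomial ι ℂ) Ω := ⊥
  have h1 : algebraMap A Ω (c none) ∈ (integralClosure B.toSubring Ω).toSubring := by
    have h2 := iInf_valuationSubring_superset (K := Ω) (s := (B.toSubring : Set Ω))
    rw [Subring.closure_eq] at h2
    rw [← h2, Subring.mem_iInf]
    rintro ⟨V, hV⟩
    have hmem : ∀ G : MvPolynomial ι ℂ, algebraMap (MvPolynomial ι ℂ) Ω G ∈ V :=
      fun G => hV (Subalgebra.algebraMap_mem B G)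
    have hCV : ∀ r : ℂ, algebraMap ℂ Ω r ∈ V := by
      intro r
      have h1 := hmem (MvPolynomial.C r)
      rwa [← MvPolynomial.algebraMap_eq, ← IsScalarTower.algebraMap_apply] at h1
    letI : Algebra ℂ V := ((algebraMap ℂ Ω).codRestrict V hCV).toAlgebra
    haveI : IsScalarTower ℂ V Ω := IsScalarTower.of_algebraMap_eq (fun _ => rfl)
    let f : A →ₐ[ℂ] Ω := IsScalarTower.toAlgHom ℂ A Ω
    exact val_c0 V L (fun i => f (x i)) (fun i => f (c i)) (hU.hx.map f) (hU.hc.map f)
      (by
        show f (x none) = 1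
        rw [hU.hone, map_one])
      (by
        intro i
        show f (x (some i)) ^ 2 * f (c (some i)) ∈ V
        have h1 := hmem (MvPolynomial.X i)
        rw [IsScalarTower.algebraMap_apply (MvPolynomial ι ℂ) A Ω, hX, map_mul, map_pow] at h1
        exact h1)
  have h2 : IsIntegral B (algebraMap A Ω (c none)) := h1
  have h3 : IsIntegral (MvPolynomial ι ℂ) (algebraMap A Ω (c none)) := by
    exact isIntegral_trans (R := MvPolynomial ι ℂ) (A := B) _ h2
  exact (isIntegral_algebraMap_iff hAΩ).mp h3

theorem alg_main' {ι : Type} [Fintype ι] (hR : RankStmt ι) (L : Submodule ℂ (Option ι → ℂ))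
    (hnl : ∀ i, ∃ z ∈ L, z i = 1) (hpos : 0 < beta L) :
    ∃ (F : MvPolynomial (Option ι) ℂ) (D : ℕ), Irreducible F ∧ F.IsHomogeneous D ∧
      2 * (D : ℤ) = 2 ^ finrank ℂ L * beta L ∧ ∀ G, Van L G ↔ F ∣ G := by
  classical
  have h0 : ∃ z ∈ L, z none = 1 := hnl none
  obtain ⟨a, b, x, c, hU⟩ := exists_model h0
  let A := MvPolynomial (Fin a ⊕ Fin b) ℂ
  let R := MvPolynomial ι ℂ
  letI algRA : Algebra R A :=
    ((MvPolynomial.aeval (fun i => x (some i) ^ 2 * c (some i)) : R →ₐ[ℂ] A) : R →+* A).toAlgebra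
  haveI towRA : IsScalarTower ℂ R A :=
    IsScalarTower.of_algebraMap_eq (fun r => by
      show _ = (MvPolynomial.aeval (fun i => x (some i) ^ 2 * c (some i)) : R →ₐ[ℂ] A)
        (algebraMap ℂ _ r)
      rw [AlgHom.commutes])
  have hX : ∀ i, algebraMap R A (MvPolynomial.X i) = x (some i) ^ 2 * c (some i) := by
    intro i
    show (MvPolynomial.aeval (fun i => x (some i) ^ 2 * c (some i)) : R →ₐ[ℂ] A)
      (MvPolynomial.X i) = _
    rw [MvPolynomial.aeval_X]
  obtain ⟨N, hN, hNb⟩ := hR L A x c hU hX
  have hNpos : 0 < N := by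
    have h1 : (0 : ℤ) < 2 ^ finrank ℂ L * beta L := by positivity
    rw [← hNb] at h1
    omega
  have hinj : Function.Injective (algebraMap R A) := by
    rw [injective_iff_map_eq_zero]
    intro p hp
    by_contra hp0
    have h1 : Module.rank R A = 0 := by
      rw [rank_eq_zero_iff]
      intro y
      exact ⟨p, hp0, by rw [Algebra.smul_def, hp, zero_mul]⟩
    rw [hN, Nat.cast_eq_zero] at h1
    omega
  have halg : Algebra.IsAlgebraic R A := algebraic_of_rank N hN
  have hx0 : ∀ i, x i ≠ 0 := fun i => x_ne_zero hU h0 (hnl i)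
  have hint : IsIntegral R (c none) := isIntegral_c0 L x c hU hX
  -- fraction fields
  let K := FractionRing R
  let Ω := FractionRing A
  haveI fs1 : FaithfulSMul R A := (faithfulSMul_iff_algebraMap_injective R A).mpr hinj
  haveI fs2 : FaithfulSMul R Ω := by
    rw [faithfulSMul_iff_algebraMap_injective, IsScalarTower.algebraMap_eq R A Ω]
    exact (IsFractionRing.injective A Ω).comp hinj
  letI : Algebra K Ω := FractionRing.liftAlgebra R Ω
  haveI : IsScalarTower R K Ω := FractionRing.isScalarTower_liftAlgebra R Ω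
  have hrankK : Module.rank K Ω = N := by
    rw [Algebra.IsAlgebraic.rank_of_isFractionRing R K A Ω, hN]
  haveI : FiniteDimensional K Ω := by
    apply Module.rank_lt_aleph0_iff.mp
    rw [hrankK]
    exact Cardinal.natCast_lt_aleph0
  have hfinK : finrank K Ω = N := by
    rw [finrank, hrankK, Cardinal.toNat_natCast]
  haveI : CharZero K := charZero_of_injective_algebraMap (algebraMap ℂ K).injective
  let T := AlgebraicClosure K
  have hprim : IntermediateField.adjoin K {algebraMap A Ω (c none)} = ⊤ := by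
    rw [Field.primitive_element_iff_algHom_eq_of_eval' K T (fun y => IsAlgClosed.splits _)]
    intro φ ψ h
    exact primitive_aux (K := K) (Ω := Ω) (T := T) L x c hU hX hx0 φ ψ h
  rw [Field.primitive_element_iff_minpoly_natDegree_eq, hfinK] at hprim
  let m := minpoly R (c none)
  have hmonic : m.Monic := minpoly.monic hint
  have hmdeg : m.natDegree = N := by
    have h1 := minpoly.isIntegrallyClosed_eq_field_fractions K Ω hint
    rw [h1, hmonic.natDegree_map] at hprim
    exact hprim
  haveI : Module.IsTorsionFree R A := inferInstance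
  have hdvd : ∀ p : Polynomial R, Polynomial.aeval (c none) p = 0 ↔ m ∣ p :=
    fun p => minpoly.isIntegrallyClosed_dvd_iff hint p
  let eqv := MvPolynomial.optionEquivLeft ℂ ι
  let F : MvPolynomial (Option ι) ℂ := eqv.symm m
  have heval : ∀ G : MvPolynomial (Option ι) ℂ,
      MvPolynomial.aeval (fun i => x i ^ 2 * c i) G = Polynomial.aeval (c none) (eqv G) := by
    intro G
    have h1 : (MvPolynomial.aeval (fun i => x i ^ 2 * c i) : MvPolynomial (Option ι) ℂ →ₐ[ℂ] A) =
        ((Polynomial.aeval (c none) : Polynomial R →ₐ[R] A).restrictScalars ℂ).comp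
          (eqv : MvPolynomial (Option ι) ℂ →ₐ[ℂ] Polynomial R) := by
      apply MvPolynomial.algHom_ext
      intro i
      rw [MvPolynomial.aeval_X]
      rcases i with _ | i
      · show x none ^ 2 * c none = Polynomial.aeval (c none) (eqv (MvPolynomial.X none))
        rw [MvPolynomial.optionEquivLeft_X_none, Polynomial.aeval_X, hU.hone]
        ring
      · show x (some i) ^ 2 * c (some i) =
          Polynomial.aeval (c none) (eqv (MvPolynomial.X (some i)))
        rw [MvPolynomial.optionEquivLeft_X_some, Polynomial.aeval_C, hX]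
    rw [h1]
    rfl
  have hF : ∀ G, Van L G ↔ F ∣ G := by
    intro G
    rw [← van_iff hU h0, heval, hdvd]
    constructor
    · rintro ⟨q, hq⟩
      refine ⟨eqv.symm q, ?_⟩
      apply eqv.injective
      rw [map_mul, AlgEquiv.apply_symm_apply, AlgEquiv.apply_symm_apply, hq]
    · rintro ⟨Q, hQ⟩
      refine ⟨eqv Q, ?_⟩
      rw [hQ, map_mul, AlgEquiv.apply_symm_apply]
  have hF0 : F ≠ 0 := by
    intro h
    have h1 : m = 0 := by
      have := congrArg eqv h
      rwa [AlgEquiv.apply_symm_apply, map_zero] at this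
    exact hmonic.ne_zero h1
  have hFprime : Prime F := by
    refine ⟨hF0, ?_, ?_⟩
    · intro hu
      have h1 : Van L 1 := (hF 1).mpr hu.dvd
      rw [← van_iff hU h0, map_one] at h1
      exact one_ne_zero h1
    · intro G H hGH
      rw [← hF, ← van_iff hU h0, map_mul, mul_eq_zero, van_iff hU h0, van_iff hU h0, hF,
        hF] at hGH
      exact hGH
  have hhom : F.IsHomogeneous F.totalDegree :=
    homog_of_dvd F (fun k => (hF _).mp (((hF F).mpr dvd_rfl).comp k))
  have hdeg : F.totalDegree = N := by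
    have h1 : MvPolynomial.coeff ((0 : ι →₀ ℕ).optionElim N) F = 1 := by
      rw [← MvPolynomial.optionEquivLeft_coeff_coeff]
      show MvPolynomial.coeff 0 ((eqv F).coeff N) = 1
      rw [AlgEquiv.apply_symm_apply, ← hmdeg, hmonic.coeff_natDegree, MvPolynomial.coeff_one]
      simp
    have h2 : ((0 : ι →₀ ℕ).optionElim N).degree = F.totalDegree := by
      by_contra hne
      rw [hhom.coeff_eq_zero hne] at h1
      exact zero_ne_one h1
    rw [← h2, Finsupp.degree_eq_sum, Fintype.sum_option]
    simp
  refine ⟨F, N, hFprime.irreducible, ?_, hNb, hF⟩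
  rw [← hdeg]
  exact hhom

end Pool.Agent.H286R3
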