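import Mathlib

/-!
Definitions: projective zero loci and Zariski closures, tangent spaces, dual varieties,
reciprocal linear spaces, the matroid of a family of linear forms and its beta invariant.

A point of `ℙ^n` is an element of `Projectivization ℂ (Fin (n + 1) → ℂ)`; hyperplanes of `ℙ^n`
are points of the dual projective space, which we write in dual coordinates: the point `[u]`
is the hyperplane `∑ i, u i * x i = 0`.
-/

namespace Pool.Agent.H286R3

open Module

/-- Projective space `ℙ^n` over `ℂ`. -/
abbrev PSpace (n : ℕ) := Projectivization ℂ (Fin (n + 1) → ℂ)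

/-- The (homogeneous) vanishing ideal of a subset `X` of `ℙ^n`: the polynomials that vanish at
every vector representing a point of `X`. -/
def vanIdeal {n : ℕ} (X : Set (PSpace n)) : Ideal (MvPolynomial (Fin (n + 1)) ℂ) where
  carrier := {f | ∀ (v : Fin (n + 1) → ℂ) (hv : v ≠ 0), Projectivization.mk ℂ v hv ∈ X →
    MvPolynomial.eval v f = 0}
  add_mem' := by
    intro a b ha hb v hv hX
    rw [map_add, ha v hv hX, hb v hv hX, add_zero]
  zero_mem' := by
    intro v hv _
    exact map_zero _
  smul_mem' := by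
    intro a b hb v hv hX
    rw [smul_eq_mul, map_mul, hb v hv hX, mul_zero]

/-- The set of points of `ℙ^n` at which all polynomials of `I` vanish (at all representatives). -/
def zeroSet {n : ℕ} (I : Set (MvPolynomial (Fin (n + 1)) ℂ)) : Set (PSpace n) :=
  {p | ∀ f ∈ I, ∀ (v : Fin (n + 1) → ℂ) (hv : v ≠ 0), Projectivization.mk ℂ v hv = p →
    MvPolynomial.eval v f = 0}

/-- The Zariski closure of a subset of `ℙ^n`. -/
def zarClosure {n : ℕ} (X : Set (PSpace n)) : Set (PSpace n) := zeroSet (vanIdeal X)

/-- The tangent space, at the vector `v`, of the affine cone over `X`: the common kernel of the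
differentials at `v` of all polynomials of the vanishing ideal of `X`. -/
def tangentAt {n : ℕ} (X : Set (PSpace n)) (v : Fin (n + 1) → ℂ) :
    Submodule ℂ (Fin (n + 1) → ℂ) where
  carrier := {w | ∀ f ∈ vanIdeal X, ∑ i, MvPolynomial.eval v (MvPolynomial.pderiv i f) * w i = 0}
  add_mem' := by
    intro a b ha hb f hf
    simp only [Pi.add_apply, mul_add, Finset.sum_add_distrib]
    rw [ha f hf, hb f hf, add_zero]
  zero_mem' := by intro f _; simp
  smul_mem' := by
    intro r a ha f hf
    simp only [Pi.smul_apply, smul_eq_mul, mul_left_comm _ r]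
    rw [← Finset.mul_sum, ha f hf, mul_zero]

/-- The embedded tangent space of `X` at the point `p`, as a linear subspace of `ℂ^{n+1}`. -/
noncomputable def tangentSpace {n : ℕ} (X : Set (PSpace n)) (p : PSpace n) :
    Submodule ℂ (Fin (n + 1) → ℂ) := tangentAt X p.rep

/-- `p` is a smooth point of `X`: it lies on `X` and the tangent space of `X` at `p` has the
smallest dimension among all points of `X`. For an irreducible projective variety `X` over `ℂ`
this is the Jacobian criterion: the smallest dimension is `dim X + 1`. -/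
def IsSmoothPoint {n : ℕ} (X : Set (PSpace n)) (p : PSpace n) : Prop :=
  p ∈ X ∧ ∀ q ∈ X, finrank ℂ (tangentSpace X p) ≤ finrank ℂ (tangentSpace X q)

/-- The hyperplane `H` (in dual coordinates) is tangent to `X` at `p`: it contains the embedded
tangent space of `X` at `p`. -/
def IsTangent {n : ℕ} (X : Set (PSpace n)) (p H : PSpace n) : Prop :=
  ∀ w ∈ tangentSpace X p, ∑ i, H.rep i * w i = 0

/-- The dual variety of `X`: the Zariski closure of the set of hyperplanes tangent to `X` at some
smooth point. -/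
def dualVariety {n : ℕ} (X : Set (PSpace n)) : Set (PSpace n) :=
  zarClosure {H | ∃ p, IsSmoothPoint X p ∧ IsTangent X p H}

/-- The reciprocal linear space `L^{-1}` of the linear forms `ℓ 0, …, ℓ n` on `ℂ^{d+1}`: the
Zariski closure of the points `(1 / ℓ 0 (t) : … : 1 / ℓ n (t))`, all `ℓ i (t) ≠ 0`. -/
def reciprocalSpace {n d : ℕ} (ℓ : Fin (n + 1) → Dual ℂ (Fin (d + 1) → ℂ)) : Set (PSpace n) :=
  zarClosure {p | ∃ t : Fin (d + 1) → ℂ, (∀ i, ℓ i t ≠ 0) ∧
    ∃ h : (fun i => (ℓ i t)⁻¹) ≠ 0, p = Projectivization.mk ℂ (fun i => (ℓ i t)⁻¹) h}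

/-- The rank function of the matroid represented by the vectors `ℓ 0, …, ℓ n`. -/
noncomputable def rankFn {n d : ℕ} (ℓ : Fin (n + 1) → Dual ℂ (Fin (d + 1) → ℂ))
    (S : Finset (Fin (n + 1))) : ℕ :=
  finrank ℂ (Submodule.span ℂ (ℓ '' (S : Set (Fin (n + 1)))))

/-- The matroid of `ℓ` is connected: its ground set is not the union of two disjoint nonempty
subsets whose ranks add up to the rank of the matroid. -/
def IsConnectedMatroid {n d : ℕ} (ℓ : Fin (n + 1) → Dual ℂ (Fin (d + 1) → ℂ)) : Prop :=
  ∀ S : Finset (Fin (n + 1)), S.Nonempty → S ≠ Finset.univ →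
    rankFn ℓ S + rankFn ℓ Sᶜ ≠ rankFn ℓ Finset.univ

/-- The beta invariant `(-1)^{r(E)} ∑_{S ⊆ E} (-1)^{|S|} r(S)`. -/
noncomputable def betaInv {n d : ℕ} (ℓ : Fin (n + 1) → Dual ℂ (Fin (d + 1) → ℂ)) : ℤ :=
  (-1) ^ rankFn ℓ Finset.univ * ∑ S : Finset (Fin (n + 1)), (-1) ^ S.card * (rankFn ℓ S : ℤ)

end Pool.Agent.H286R3
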