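import Mathlib
import Pool.Agent.H286R3.LinA
import Pool.Agent.H286R3.DualDefs

/-!
The conormal spaces of a reciprocal linear space.
-/

namespace Pool.Agent.H286R3

open Module Filter Topology

/-- chain rule for a polynomial along a curve -/
theorem chain_rule {σ : Type} [Fintype σ] (f : MvPolynomial σ ℂ) (γ : ℂ → σ → ℂ) (γ' : σ → ℂ)
    (t : ℂ) (h : ∀ i, HasDerivAt (fun s => γ s i) (γ' i) t) :
    HasDerivAt (fun s => MvPolynomial.eval (γ s) f)
      (∑ i, MvPolynomial.eval (γ t) (MvPolynomial.pderiv i f) * γ' i) t := by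
  classical
  induction f using MvPolynomial.induction_on with
  | C a =>
    simp only [MvPolynomial.eval_C, MvPolynomial.pderiv_C, map_zero, zero_mul,
      Finset.sum_const_zero]
    exact hasDerivAt_const t a
  | add p q hp hq =>
    simp only [map_add, add_mul, Finset.sum_add_distrib]
    exact hp.add hq
  | mul_X p j hp =>
    have h1 := hp.mul (h j)
    simp only [map_mul, MvPolynomial.eval_X]
    refine h1.congr_deriv ?_
    simp only [Derivation.leibniz, smul_eq_mul, map_add, map_mul, MvPolynomial.eval_X, add_mul,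
      Finset.sum_add_distrib, MvPolynomial.pderiv_X]
    have h2 : ∑ i, MvPolynomial.eval (γ t) p *
        MvPolynomial.eval (γ t) ((Pi.single i 1 : σ → MvPolynomial σ ℂ) j) * γ' i =
        MvPolynomial.eval (γ t) p * γ' j := by
      rw [Finset.sum_eq_single j]
      · simp
      · intro i _ hi
        rw [Pi.single_eq_of_ne (fun h => hi h.symm)]
        simp
      · intro h; exact absurd (Finset.mem_univ j) h
    rw [h2, add_comm, Finset.sum_mul]
    congr 1
    exact Finset.sum_congr rfl fun i _ => by ring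

variable {n : ℕ}

/-- the polynomial `∑ c i ∏_{j ≠ i} X j` -/
noncomputable def fc (c : Fin (n + 1) → ℂ) : MvPolynomial (Fin (n + 1)) ℂ :=
  ∑ i, MvPolynomial.C (c i) * ∏ j ∈ Finset.univ.erase i, MvPolynomial.X j

theorem eval_fc (c y : Fin (n + 1) → ℂ) (hy : ∀ i, y i ≠ 0) :
    MvPolynomial.eval y (fc c) = (∏ j, y j) * ∑ i, c i * (y i)⁻¹ := by
  rw [fc, map_sum, Finset.mul_sum]
  refine Finset.sum_congr rfl fun i _ => ?_
  rw [map_mul, MvPolynomial.eval_C, map_prod]
  simp only [MvPolynomial.eval_X]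
  rw [← Finset.mul_prod_erase Finset.univ y (Finset.mem_univ i)]
  have := hy i
  field_simp

theorem grad_fc (c y w : Fin (n + 1) → ℂ) (hy : ∀ i, y i ≠ 0) (h0 : ∑ i, c i * (y i)⁻¹ = 0) :
    ∑ i, MvPolynomial.eval y (MvPolynomial.pderiv i (fc c)) * w i =
      - (∏ j, y j) * ∑ i, c i * ((y i)⁻¹ ^ 2 * w i) := by
  have h1 := chain_rule (fc c) (fun s i => y i + s * w i) w 0 (fun i => by
    have := ((hasDerivAt_id (0 : ℂ)).mul_const (w i)).const_add (y i)
    simpa using this)
  simp only [zero_mul, add_zero] at h1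
  have h2 : HasDerivAt (fun s : ℂ => (∏ j, (y j + s * w j)) * ∑ i, c i * (y i + s * w i)⁻¹)
      (- (∏ j, y j) * ∑ i, c i * ((y i)⁻¹ ^ 2 * w i)) 0 := by
    have hy' : ∀ i, HasDerivAt (fun s : ℂ => y i + s * w i) (w i) 0 := fun i => by
      have := ((hasDerivAt_id (0 : ℂ)).mul_const (w i)).const_add (y i)
      simpa using this
    have hsum : HasDerivAt (fun s : ℂ => ∑ i, c i * (y i + s * w i)⁻¹)
        (∑ i, c i * (- w i / (y i) ^ 2)) 0 := by
      have := HasDerivAt.fun_sum (u := Finset.univ) (fun i _ =>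
        (((hy' i).inv (by simpa using hy i)).const_mul (c i)))
      simpa using this
    have hprod : DifferentiableAt ℂ (fun s : ℂ => ∏ j, (y j + s * w j)) 0 := by
      apply DifferentiableAt.fun_finset_prod
      intro i _
      exact (hy' i).differentiableAt
    have h3 := hprod.hasDerivAt.mul hsum
    simp only [zero_mul, add_zero] at h3
    rw [h0, mul_zero, zero_add] at h3
    refine h3.congr_deriv ?_
    rw [neg_mul, ← mul_neg, ← Finset.sum_neg_distrib]
    congr 1
    refine Finset.sum_congr rfl fun i _ => ?_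
    rw [div_eq_mul_inv, inv_pow]
    ring
  have h4 : (fun s : ℂ => MvPolynomial.eval (fun i => y i + s * w i) (fc c)) =ᶠ[𝓝 0]
      (fun s : ℂ => (∏ j, (y j + s * w j)) * ∑ i, c i * (y i + s * w i)⁻¹) := by
    have h5 : ∀ᶠ s in 𝓝 (0 : ℂ), ∀ i, y i + s * w i ≠ 0 := by
      rw [Filter.eventually_all]
      intro i
      have hc : ContinuousAt (fun s : ℂ => y i + s * w i) 0 := by fun_prop
      apply hc.eventually_ne
      simpa using hy i
    filter_upwards [h5] with s hs
    exact eval_fc c _ hs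
  exact h1.unique (h2.congr_of_eventuallyEq h4)

/-- the gradient space -/
def gradSpace (X : Set (PSpace n)) (v : Fin (n + 1) → ℂ) : Submodule ℂ (Fin (n + 1) → ℂ) where
  carrier := {u | ∃ f ∈ vanIdeal X, ∀ i, u i = MvPolynomial.eval v (MvPolynomial.pderiv i f)}
  add_mem' := by
    rintro a b ⟨f, hf, h⟩ ⟨g, hg, h'⟩
    exact ⟨f + g, add_mem hf hg, fun i => by simp [h i, h' i]⟩
  zero_mem' := ⟨0, zero_mem _, fun i => by simp⟩
  smul_mem' := by
    rintro r a ⟨f, hf, h⟩
    refine ⟨MvPolynomial.C r * f, Ideal.mul_mem_left _ _ hf, fun i => ?_⟩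
    simp [h i]

theorem tangentAt_eq (X : Set (PSpace n)) (v : Fin (n + 1) → ℂ) :
    tangentAt X v = perp (gradSpace X v) := by
  ext w
  constructor
  · rintro h u ⟨f, hf, hu⟩
    rw [← h f hf]
    exact Finset.sum_congr rfl fun i _ => by rw [hu i, mul_comm]
  · intro h f hf
    rw [← h (fun i => MvPolynomial.eval v (MvPolynomial.pderiv i f)) ⟨f, hf, fun _ => rfl⟩]
    exact Finset.sum_congr rfl fun i _ => by rw [mul_comm]

theorem vanIdeal_closure (X : Set (PSpace n)) : vanIdeal (zarClosure X) = vanIdeal X := by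
  apply le_antisymm
  · intro f hf v hv hX
    apply hf v hv
    intro g hg v' hv' h'
    apply hg v' hv'
    rw [h']; exact hX
  · intro f hf v hv hX
    exact hX f hf v hv rfl

/-- the set of points `1 / x` -/
def recSet (L : Submodule ℂ (Fin (n + 1) → ℂ)) : Set (PSpace n) :=
  {p | ∃ x ∈ L, (∀ i, x i ≠ 0) ∧ ∃ h : (fun i => (x i)⁻¹) ≠ 0,
    p = Projectivization.mk ℂ (fun i => (x i)⁻¹) h}

variable (L : Submodule ℂ (Fin (n + 1) → ℂ))

theorem inv_ne {x : Fin (n + 1) → ℂ} (hx : ∀ i, x i ≠ 0) : (fun i => (x i)⁻¹) ≠ 0 := by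
  intro h
  have := congrFun h 0
  exact inv_ne_zero (hx 0) this

/-- membership in the vanishing ideal of the reciprocal space -/
theorem mem_van_rec (f : MvPolynomial (Fin (n + 1)) ℂ) :
    f ∈ vanIdeal (zarClosure (recSet L)) ↔
      ∀ x ∈ L, (∀ i, x i ≠ 0) → MvPolynomial.eval (fun i => (x i)⁻¹) f = 0 := by
  rw [vanIdeal_closure]
  constructor
  · intro h x hx hx0
    exact h _ (inv_ne hx0) ⟨x, hx, hx0, inv_ne hx0, rfl⟩
  · rintro h v hv ⟨x, hx, hx0, hne, heq⟩
    rw [Projectivization.mk_eq_mk_iff'] at heq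
    obtain ⟨a, ha⟩ := heq
    have ha0 : a ≠ 0 := by
      rintro rfl
      rw [zero_smul] at ha
      exact hv ha.symm
    have h1 := h (a⁻¹ • x) (Submodule.smul_mem _ _ hx) (fun i => by simp [ha0, hx0 i])
    rw [← h1]
    congr 2
    rw [← ha]
    funext i
    simp [mul_comm]

/-- the tangent space at `1 / x` -/
theorem mem_tangent_rec {x : Fin (n + 1) → ℂ} (hx : x ∈ L) (hx0 : ∀ i, x i ≠ 0)
    (w : Fin (n + 1) → ℂ) :
    w ∈ tangentAt (zarClosure (recSet L)) (fun i => (x i)⁻¹) ↔ (fun i => x i ^ 2 * w i) ∈ L := by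
  constructor
  · intro h
    apply mem_of_perp
    intro c hc
    have hsum : ∀ z ∈ L, ∑ i, c i * z i = 0 := hc
    have hfc : fc c ∈ vanIdeal (zarClosure (recSet L)) := by
      rw [mem_van_rec]
      intro z hz hz0
      rw [eval_fc c _ (fun i => inv_ne_zero (hz0 i))]
      simp only [inv_inv]
      rw [hsum z hz, mul_zero]
    have h1 := h (fc c) hfc
    rw [grad_fc c _ w (fun i => inv_ne_zero (hx0 i)) (by simpa using hsum x hx)] at h1
    have h2 : (∏ j, (x j)⁻¹) ≠ 0 := Finset.prod_ne_zero_iff.mpr fun i _ => inv_ne_zero (hx0 i)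
    have h3 : ∑ i, c i * ((x i) ^ 2 * w i) = 0 := by
      rcases mul_eq_zero.mp h1 with h4 | h4
      · exact absurd (neg_eq_zero.mp h4) h2
      · simpa using h4
    rw [← h3]
    exact Finset.sum_congr rfl fun i _ => mul_comm _ _
  · intro h f hf
    rw [mem_van_rec] at hf
    have hder : ∀ i, HasDerivAt (fun s : ℂ => (x i - s * (x i ^ 2 * w i))⁻¹) (w i) 0 := by
      intro i
      have h1 : HasDerivAt (fun s : ℂ => x i - s * (x i ^ 2 * w i)) (-(x i ^ 2 * w i)) 0 := by
        have := ((hasDerivAt_id (0 : ℂ)).mul_const (x i ^ 2 * w i)).const_sub (x i)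
        simpa using this
      have h2 := h1.inv (by simpa using hx0 i)
      refine h2.congr_deriv ?_
      simp only [zero_mul, sub_zero, neg_neg]
      have := hx0 i
      field_simp
    have h1 := chain_rule f (fun s i => (x i - s * (x i ^ 2 * w i))⁻¹) w 0 hder
    simp only [zero_mul, sub_zero] at h1
    have h2 : (fun s : ℂ => MvPolynomial.eval (fun i => (x i - s * (x i ^ 2 * w i))⁻¹) f) =ᶠ[𝓝 0]
        (fun _ => (0 : ℂ)) := by
      have h5 : ∀ᶠ s in 𝓝 (0 : ℂ), ∀ i, x i - s * (x i ^ 2 * w i) ≠ 0 := by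
        rw [Filter.eventually_all]
        intro i
        have hc : ContinuousAt (fun s : ℂ => x i - s * (x i ^ 2 * w i)) 0 := by fun_prop
        apply hc.eventually_ne
        simpa using hx0 i
      filter_upwards [h5] with s hs
      refine hf (fun i => x i - s * (x i ^ 2 * w i)) ?_ hs
      exact sub_mem hx (Submodule.smul_mem _ s h)
    have h3 : HasDerivAt (fun s : ℂ => MvPolynomial.eval
        (fun i => (x i - s * (x i ^ 2 * w i))⁻¹) f) 0 0 :=
      (hasDerivAt_const (0 : ℂ) (0 : ℂ)).congr_of_eventuallyEq h2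
    exact h1.unique h3

theorem finrank_tangent_rec {x : Fin (n + 1) → ℂ} (hx : x ∈ L) (hx0 : ∀ i, x i ≠ 0) :
    finrank ℂ (tangentAt (zarClosure (recSet L)) (fun i => (x i)⁻¹)) = finrank ℂ L := by
  let e : (Fin (n + 1) → ℂ) ≃ₗ[ℂ] (Fin (n + 1) → ℂ) :=
    LinearEquiv.piCongrRight (fun i => LinearEquiv.smulOfNeZero ℂ ℂ (x i ^ 2)
      (pow_ne_zero 2 (hx0 i)))
  have h1 : (tangentAt (zarClosure (recSet L)) (fun i => (x i)⁻¹)).map
      (e : (Fin (n + 1) → ℂ) →ₗ[ℂ] (Fin (n + 1) → ℂ)) = L := by
    ext z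
    rw [Submodule.mem_map]
    constructor
    · rintro ⟨w, hw, rfl⟩
      exact (mem_tangent_rec L hx hx0 w).mp hw
    · intro hz
      refine ⟨e.symm z, ?_, e.apply_symm_apply z⟩
      rw [mem_tangent_rec L hx hx0]
      have : (fun i => x i ^ 2 * e.symm z i) = z := e.apply_symm_apply z
      rw [this]; exact hz
  conv_rhs => rw [← h1]
  exact (LinearEquiv.finrank_map_eq e _).symm

/-- a gradient at `1 / x` is of the form `x ^ 2 c` -/
theorem grad_rec {x : Fin (n + 1) → ℂ} (hx : x ∈ L) (hx0 : ∀ i, x i ≠ 0)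
    {f : MvPolynomial (Fin (n + 1)) ℂ} (hf : f ∈ vanIdeal (zarClosure (recSet L))) :
    ∃ c ∈ perp L, ∀ i, MvPolynomial.eval (fun i => (x i)⁻¹) (MvPolynomial.pderiv i f) =
      x i ^ 2 * c i := by
  refine ⟨fun i => MvPolynomial.eval (fun i => (x i)⁻¹) (MvPolynomial.pderiv i f) / x i ^ 2,
    ?_, ?_⟩
  · intro z hz
    have h1 : (fun i => z i / x i ^ 2) ∈ tangentAt (zarClosure (recSet L)) (fun i => (x i)⁻¹) := by
      rw [mem_tangent_rec L hx hx0]
      have : (fun i => x i ^ 2 * (z i / x i ^ 2)) = z := by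
        funext i
        have := hx0 i
        field_simp
      rw [this]; exact hz
    have h2 := h1 f hf
    rw [← h2]
    refine Finset.sum_congr rfl fun i _ => ?_
    ring
  · intro i
    have := hx0 i
    field_simp

/-- every vector orthogonal to the tangent space at a point of the reciprocal space is in the
closure of the set of `x ^ 2 c` -/
theorem conormal_closed (G : MvPolynomial (Fin (n + 1)) ℂ)
    (hG : ∀ x ∈ L, (∀ i, x i ≠ 0) → ∀ c ∈ perp L, MvPolynomial.eval (fun i => x i ^ 2 * c i) G = 0)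
    {v : Fin (n + 1) → ℂ} (hv : v ≠ 0)
    (hvX : Projectivization.mk ℂ v hv ∈ zarClosure (recSet L)) {u : Fin (n + 1) → ℂ}
    (hu : ∀ w ∈ tangentAt (zarClosure (recSet L)) v, ∑ i, u i * w i = 0) :
    MvPolynomial.eval u G = 0 := by
  have h1 : u ∈ gradSpace (zarClosure (recSet L)) v := by
    rw [← perp_perp (gradSpace (zarClosure (recSet L)) v), ← tangentAt_eq]
    exact hu
  obtain ⟨f, hf, hfu⟩ := h1
  let Ψ : MvPolynomial (Fin (n + 1)) ℂ := MvPolynomial.bind₁ (fun i => MvPolynomial.pderiv i f) G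
  have hΨ : ∀ y : Fin (n + 1) → ℂ, MvPolynomial.eval y Ψ =
      MvPolynomial.eval (fun i => MvPolynomial.eval y (MvPolynomial.pderiv i f)) G := by
    intro y
    simp only [Ψ]
    rw [MvPolynomial.eval, MvPolynomial.eval₂Hom_bind₁]
    rfl
  have h2 : Ψ ∈ vanIdeal (zarClosure (recSet L)) := by
    rw [mem_van_rec]
    intro x hx hx0
    obtain ⟨c, hc, hcx⟩ := grad_rec L hx hx0 hf
    rw [hΨ]
    have : (fun i => MvPolynomial.eval (fun i => (x i)⁻¹) (MvPolynomial.pderiv i f)) =
        fun i => x i ^ 2 * c i := funext hcx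
    rw [this]
    exact hG x hx hx0 c hc
  have h3 := h2 v hv hvX
  rw [hΨ] at h3
  rw [← h3]
  congr 2
  funext i
  exact hfu i

/-- the tangent spaces of the reciprocal space have dimension at least `dim L` -/
theorem finrank_tangent_ge {v : Fin (n + 1) → ℂ} (hv : v ≠ 0)
    (hvX : Projectivization.mk ℂ v hv ∈ zarClosure (recSet L)) :
    finrank ℂ L ≤ finrank ℂ (tangentAt (zarClosure (recSet L)) v) := by
  by_contra hlt
  push Not at hlt
  set N := gradSpace (zarClosure (recSet L)) v with hN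
  have h1 := finrank_perp_add N
  have h2 := finrank_perp_add L
  rw [← tangentAt_eq] at h1
  let k := finrank ℂ (perp L)
  have h3 : k + 1 ≤ finrank ℂ N := by
    show finrank ℂ (perp L) + 1 ≤ _
    omega
  -- k+1 independent gradients
  let B := finBasis ℂ N
  let g : Fin (k + 1) → (Fin (n + 1) → ℂ) := fun j => (B (Fin.castLE h3 j) : Fin (n + 1) → ℂ)
  have hgind : LinearIndependent ℂ g := by
    have h4 : LinearIndependent ℂ (fun j => (B j : Fin (n + 1) → ℂ)) :=
      B.linearIndependent.map' N.subtype (LinearMap.ker_eq_bot.mpr N.injective_subtype)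
    exact h4.comp _ (Fin.castLE_injective h3)
  have hgN : ∀ j, ∃ f ∈ vanIdeal (zarClosure (recSet L)),
      ∀ i, g j i = MvPolynomial.eval v (MvPolynomial.pderiv i f) := fun j => (B _).2
  choose f hf hfg using hgN
  -- a left inverse of the map sending the basis to `g`
  have hker : LinearMap.ker (Fintype.linearCombination ℂ g) = ⊥ :=
    LinearMap.ker_eq_bot.mpr (linearIndependent_iff_injective_fintypeLinearCombination.mp hgind)
  obtain ⟨P, hP⟩ := LinearMap.exists_leftInverse_of_injective (Fintype.linearCombination ℂ g) hker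
  have hPg : ∀ j l, P (g j) l = if j = l then 1 else 0 := by
    intro j l
    have h4 := LinearMap.congr_fun hP (Pi.single j 1)
    rw [LinearMap.comp_apply, Fintype.linearCombination_apply_single, one_smul,
      LinearMap.id_apply] at h4
    rw [h4, Pi.single_apply]
    simp [eq_comm]
  have hPlin : ∀ (u : Fin (n + 1) → ℂ) (l), P u l = ∑ i, P (Pi.single i 1) l * u i := by
    intro u l
    have hz : u = ∑ j, u j • (Pi.single j (1 : ℂ) : Fin (n + 1) → ℂ) := by
      funext i
      simp [Finset.sum_apply, Pi.single_apply]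
    conv_lhs => rw [hz]
    rw [map_sum, Finset.sum_apply]
    refine Finset.sum_congr rfl fun j _ => ?_
    rw [map_smul, Pi.smul_apply, smul_eq_mul, mul_comm]
  let Mx : Matrix (Fin (k + 1)) (Fin (k + 1)) (MvPolynomial (Fin (n + 1)) ℂ) :=
    Matrix.of fun j l => ∑ i, MvPolynomial.C (P (Pi.single i 1) l) * MvPolynomial.pderiv i (f j)
  have hMx : ∀ (y : Fin (n + 1) → ℂ), MvPolynomial.eval y Mx.det =
      (Matrix.of fun j l => P (fun i => MvPolynomial.eval y (MvPolynomial.pderiv i (f j))) l).det := by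
    intro y
    rw [RingHom.map_det]
    congr 1
    ext j l
    show MvPolynomial.eval y (∑ i, MvPolynomial.C (P (Pi.single i 1) l) *
      MvPolynomial.pderiv i (f j)) =
      P (fun i => MvPolynomial.eval y (MvPolynomial.pderiv i (f j))) l
    rw [hPlin, map_sum]
    refine Finset.sum_congr rfl fun i _ => ?_
    rw [map_mul, MvPolynomial.eval_C]
  have h6 : Mx.det ∈ vanIdeal (zarClosure (recSet L)) := by
    rw [mem_van_rec]
    intro x hx hx0
    rw [hMx]
    choose c hc hcx using fun j => grad_rec L hx hx0 (hf j)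
    let c' : Fin (k + 1) → perp L := fun j => ⟨c j, hc j⟩
    have hdep : ¬ LinearIndependent ℂ c' := by
      intro h7
      have := h7.fintype_card_le_finrank
      rw [Fintype.card_fin] at this
      have h8 : k = finrank ℂ (perp L) := rfl
      omega
    rw [Fintype.not_linearIndependent_iff] at hdep
    obtain ⟨lam, hlam, j0, hj0⟩ := hdep
    rw [← Matrix.exists_vecMul_eq_zero_iff]
    refine ⟨lam, fun h => hj0 (congrFun h j0), ?_⟩
    funext l
    rw [Matrix.vecMul, Pi.zero_apply]
    show ∑ j, lam j * P (fun i => MvPolynomial.eval (fun i => (x i)⁻¹)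
      (MvPolynomial.pderiv i (f j))) l = 0
    have h8 : ∀ j, (fun i => MvPolynomial.eval (fun i => (x i)⁻¹)
      (MvPolynomial.pderiv i (f j))) = fun i => x i ^ 2 * c j i := fun j => funext (hcx j)
    simp only [h8]
    have h9 : ∑ j, lam j • (fun i => x i ^ 2 * c j i) = (0 : Fin (n + 1) → ℂ) := by
      funext i
      have h10 := congrArg (fun w : perp L => (w : Fin (n + 1) → ℂ) i) hlam
      simp only [AddSubmonoidClass.coe_finsetSum, Finset.sum_apply] at h10
      rw [Finset.sum_apply]
      have h11 : ∑ j, lam j * c j i = 0 := h10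
      have h12 : ∑ j, (lam j • (fun i => x i ^ 2 * c j i)) i = x i ^ 2 * ∑ j, lam j * c j i := by
        rw [Finset.mul_sum]
        refine Finset.sum_congr rfl fun j _ => ?_
        show lam j * (x i ^ 2 * c j i) = _
        ring
      rw [h12, h11, mul_zero]
      rfl
    have h13 := congrArg (fun w => P w l) h9
    simp only [map_sum, map_smul, map_zero] at h13
    rw [Finset.sum_apply] at h13
    exact h13
  have h7 := h6 v hv hvX
  rw [hMx] at h7
  have h8 : (Matrix.of fun j l => P (fun i => MvPolynomial.eval v (MvPolynomial.pderiv i (f j))) l) =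
      (1 : Matrix (Fin (k + 1)) (Fin (k + 1)) ℂ) := by
    ext j l
    rw [Matrix.of_apply, Matrix.one_apply, ← hPg]
    have h9 : (fun i => MvPolynomial.eval v (MvPolynomial.pderiv i (f j))) = g j := by
      funext i
      exact (hfg j i).symm
    rw [h9]
  rw [h8, Matrix.det_one] at h7
  exact one_ne_zero h7

end Pool.Agent.H286R3
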