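import Mathlib
import Pool.Agent.H286R3.Geo

/-!
The dual variety of a reciprocal linear space as the closure of the set of `x ^ 2 c`.
-/

namespace Pool.Agent.H286R3

open Module

variable {n : ℕ} (L : Submodule ℂ (Fin (n + 1) → ℂ))

/-- vanishing on all `x ^ 2 c` -/
def VanT {E : Type} [Fintype E] (L : Submodule ℂ (E → ℂ)) (G : MvPolynomial E ℂ) : Prop :=
  ∀ x ∈ L, (∀ i, x i ≠ 0) → ∀ c ∈ perp L, MvPolynomial.eval (fun i => x i ^ 2 * c i) G = 0

theorem rep_smul (v : Fin (n + 1) → ℂ) (hv : v ≠ 0) :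
    ∃ a : ℂ, a ≠ 0 ∧ (Projectivization.mk ℂ v hv).rep = a • v := by
  obtain ⟨a, ha⟩ := Projectivization.exists_smul_eq_mk_rep ℂ v hv
  exact ⟨a, a.ne_zero, ha.symm⟩

theorem smooth_rec {x : Fin (n + 1) → ℂ} (hx : x ∈ L) (hx0 : ∀ i, x i ≠ 0)
    (h : (fun i => (x i)⁻¹) ≠ 0) :
    IsSmoothPoint (zarClosure (recSet L)) (Projectivization.mk ℂ (fun i => (x i)⁻¹) h) := by
  constructor
  · intro f hf v hv hvp
    apply hf v hv
    rw [hvp]
    exact ⟨x, hx, hx0, h, rfl⟩
  · intro q hq
    obtain ⟨a, ha0, ha⟩ := rep_smul _ h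
    have h1 : (Projectivization.mk ℂ (fun i => (x i)⁻¹) h).rep =
        fun i => ((a⁻¹ • x) i)⁻¹ := by
      rw [ha]
      funext i
      simp [mul_comm]
    rw [tangentSpace, h1, finrank_tangent_rec L (Submodule.smul_mem _ _ hx)
      (fun i => by simp [ha0, hx0 i])]
    apply finrank_tangent_ge L (Projectivization.rep_nonzero q)
    rw [Projectivization.mk_rep]
    exact hq

theorem tangent_rec {x c : Fin (n + 1) → ℂ} (hx : x ∈ L) (hx0 : ∀ i, x i ≠ 0)
    (hc : c ∈ perp L) (hw : (fun i => x i ^ 2 * c i) ≠ 0) :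
    IsTangent (zarClosure (recSet L)) (Projectivization.mk ℂ (fun i => (x i)⁻¹) (inv_ne hx0))
      (Projectivization.mk ℂ (fun i => x i ^ 2 * c i) hw) := by
  intro w' hw'
  obtain ⟨a, ha0, ha⟩ := rep_smul _ (inv_ne hx0)
  have h1 : (Projectivization.mk ℂ (fun i => (x i)⁻¹) (inv_ne hx0)).rep =
      fun i => ((a⁻¹ • x) i)⁻¹ := by
    rw [ha]
    funext i
    simp [mul_comm]
  rw [tangentSpace, h1, mem_tangent_rec L (Submodule.smul_mem _ _ hx)
    (fun i => by simp [ha0, hx0 i])] at hw'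
  obtain ⟨b, hb0, hb⟩ := rep_smul _ hw
  rw [hb]
  have h3 := hc _ hw'
  have h4 : ∑ j, (b • fun i => x i ^ 2 * c i) j * w' j =
      b * a ^ 2 * ∑ j, c j * ((a⁻¹ • x) j ^ 2 * w' j) := by
    rw [Finset.mul_sum]
    refine Finset.sum_congr rfl fun j _ => ?_
    simp only [Pi.smul_apply, smul_eq_mul]
    field_simp
  rw [h4, h3, mul_zero]

theorem dual_eq (F : MvPolynomial (Fin (n + 1)) ℂ)
    (hF : ∀ G : MvPolynomial (Fin (n + 1)) ℂ, VanT L G ↔ F ∣ G) :
    dualVariety (zarClosure (recSet L)) = zeroSet {F} := by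
  ext H
  constructor
  · intro hH f hf v hv hvH
    rw [Set.mem_singleton_iff] at hf
    subst hf
    apply hH _ _ v hv hvH
    intro v' hv' ⟨p, hp, ht⟩
    obtain ⟨a, ha0, ha⟩ := rep_smul v' hv'
    apply conormal_closed L f ((hF f).mpr dvd_rfl) (Projectivization.rep_nonzero p)
      (by rw [Projectivization.mk_rep]; exact hp.1)
    intro w hw
    have h1 := ht w hw
    rw [ha] at h1
    have h2 : a * ∑ i, v' i * w i = 0 := by
      rw [← h1, Finset.mul_sum]
      exact Finset.sum_congr rfl fun i _ => by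
        show _ = a * v' i * w i
        ring
    rcases mul_eq_zero.mp h2 with h3 | h3
    · exact absurd h3 ha0
    · exact h3
  · intro hH G hG v hv hvH
    have hFv : MvPolynomial.eval v F = 0 := hH F rfl v hv hvH
    obtain ⟨i, hi⟩ : ∃ i, v i ≠ 0 := by
      by_contra hcon
      push Not at hcon
      exact hv (funext hcon)
    have h1 : VanT L (G * MvPolynomial.X i) := by
      intro x hx hx0 c hc
      rw [map_mul, MvPolynomial.eval_X]
      by_cases hw : (fun i => x i ^ 2 * c i) = 0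
      · have := congrFun hw i
        simp only [Pi.zero_apply] at this
        rw [this, mul_zero]
      · have h2 : MvPolynomial.eval (fun i => x i ^ 2 * c i) G = 0 := by
          apply hG _ hw
          refine ⟨Projectivization.mk ℂ (fun i => (x i)⁻¹) (inv_ne hx0), smooth_rec L hx hx0 _, ?_⟩
          exact tangent_rec L hx hx0 hc hw
        rw [h2, zero_mul]
    obtain ⟨Q, hQ⟩ := (hF _).mp h1
    have h2 := congrArg (MvPolynomial.eval v) hQ
    rw [map_mul, map_mul, hFv, zero_mul, MvPolynomial.eval_X] at h2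
    rcases mul_eq_zero.mp h2 with h3 | h3
    · exact h3
    · exact absurd h3 hi

end Pool.Agent.H286R3
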