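import Mathlib
import Pool.Agent.H286R3.Alg
import Pool.Agent.H286R3.Geo2

/-!
Assembly: transport to `Fin (n + 1)`, comparison of the rank functions.
-/

namespace Pool.Agent.H286R3

open Module

theorem vanT_iff {ι : Type} [Fintype ι] {L : Submodule ℂ (Option ι → ℂ)}
    (hnl : ∀ i, ∃ z ∈ L, z i = 1) (G : MvPolynomial (Option ι) ℂ) : VanT L G ↔ Van L G := by
  constructor
  · intro h
    obtain ⟨a, b, x, c, hU⟩ := exists_model (hnl none)
    let Φ : MvPolynomial (Option ι) ℂ →ₐ[ℂ] MvPolynomial (Option ι ⊕ Option ι) ℂ :=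
      MvPolynomial.aeval (fun i => MvPolynomial.X (Sum.inl i) ^ 2 * MvPolynomial.X (Sum.inr i))
    have h3 : ∀ z y : Option ι → ℂ, MvPolynomial.eval (Sum.elim z y) (Φ G) =
        MvPolynomial.eval (fun i => z i ^ 2 * y i) G := by
      intro z y
      have := MvPolynomial.comp_aeval_apply
        (f := fun i : Option ι => (MvPolynomial.X (Sum.inl i) ^ 2 * MvPolynomial.X (Sum.inr i) :
          MvPolynomial (Option ι ⊕ Option ι) ℂ))
        (MvPolynomial.aeval (Sum.elim z y) : MvPolynomial (Option ι ⊕ Option ι) ℂ →ₐ[ℂ] ℂ) G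
      rw [← MvPolynomial.coe_aeval_eq_eval, ← MvPolynomial.coe_aeval_eq_eval]
      refine this.trans ?_
      show _ = MvPolynomial.aeval (fun i => z i ^ 2 * y i) G
      congr 2
      funext i
      simp
    have h4 : MvPolynomial.aeval (Sum.elim x c)
        (Φ G * ∏ i : Option ι, MvPolynomial.X (Sum.inl i)) = 0 := by
      rw [hU.eq_zero_iff (hnl none)]
      intro z hz hz1 y hy
      rw [map_mul, h3, map_prod]
      simp only [MvPolynomial.eval_X, Sum.elim_inl]
      by_cases hall : ∀ i, z i ≠ 0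
      · rw [h z hz hall y hy, zero_mul]
      · push Not at hall
        obtain ⟨i, hi⟩ := hall
        rw [Finset.prod_eq_zero (Finset.mem_univ i) hi, mul_zero]
    rw [map_mul, map_prod] at h4
    simp only [MvPolynomial.aeval_X, Sum.elim_inl] at h4
    rcases mul_eq_zero.mp h4 with h5 | h5
    · rw [hU.eq_zero_iff (hnl none)] at h5
      intro z hz hz1 y hy
      rw [← h3]
      exact h5 z hz hz1 y hy
    · exact absurd h5 (Finset.prod_ne_zero_iff.mpr fun i _ => x_ne_zero hU (hnl none) (hnl i))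
  · intro h z hz hz0 y hy
    have h1 := h ((z none)⁻¹ • z) (Submodule.smul_mem _ _ hz) (by simp [hz0 none])
      ((z none) ^ 2 • y) (Submodule.smul_mem _ _ hy)
    rw [← h1]
    congr 2
    funext i
    have := hz0 none
    simp only [Pi.smul_apply, smul_eq_mul]
    field_simp

/-- transport along an equivalence -/
def tr {E E' : Type} (e : E ≃ E') (L : Submodule ℂ (E → ℂ)) : Submodule ℂ (E' → ℂ) where
  carrier := {z | (fun i => z (e i)) ∈ L}
  add_mem' := by
    intro a b ha hb
    exact L.add_mem ha hb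
  zero_mem' := L.zero_mem
  smul_mem' := by
    intro r a ha
    exact L.smul_mem r ha

section
variable {E E' : Type} [Fintype E] [Fintype E'] (e : E ≃ E') (L : Submodule ℂ (E → ℂ))

theorem mem_tr {z : E' → ℂ} : z ∈ tr e L ↔ (fun i => z (e i)) ∈ L := Iff.rfl

theorem mem_tr' {z : E → ℂ} : (fun i => z (e.symm i)) ∈ tr e L ↔ z ∈ L := by
  rw [mem_tr]; simp

theorem perp_tr : perp (tr e L) = tr e (perp L) := by
  ext y
  rw [mem_tr, mem_perp, mem_perp]
  constructor
  · intro h z hz
    have h1 := h _ ((mem_tr' e L).mpr hz)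
    rw [← h1]
    exact Fintype.sum_equiv e _ _ (fun i => by simp)
  · intro h z hz
    have h1 := h _ ((mem_tr e L).mp hz)
    rw [← h1]
    exact (Fintype.sum_equiv e _ _ (fun i => rfl)).symm

theorem finrank_tr : finrank ℂ (tr e L) = finrank ℂ L := by
  let f : (E → ℂ) ≃ₗ[ℂ] (E' → ℂ) := LinearEquiv.funCongrLeft ℂ ℂ e.symm
  have : tr e L = L.map (f : (E → ℂ) →ₗ[ℂ] (E' → ℂ)) := by
    ext z
    rw [Submodule.mem_map]
    constructor
    · intro h
      refine ⟨_, (mem_tr e L).mp h, ?_⟩
      funext i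
      show z (e (e.symm i)) = z i
      simp
    · rintro ⟨w, hw, rfl⟩
      rw [mem_tr]
      show (fun i => w (e.symm (e i))) ∈ L
      simpa using hw
  rw [this]
  exact LinearEquiv.finrank_map_eq f L

theorem kerS_tr (S : Finset E) : kerS (tr e L) (S.map e.toEmbedding) = tr e (kerS L S) := by
  ext z
  rw [mem_kerS, mem_tr, mem_tr, mem_kerS]
  constructor
  · rintro ⟨h1, h2⟩
    exact ⟨h1, fun i hi => h2 (e i) (Finset.mem_map_of_mem _ hi)⟩
  · rintro ⟨h1, h2⟩
    refine ⟨h1, fun i hi => ?_⟩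
    obtain ⟨j, hj, rfl⟩ := Finset.mem_map.mp hi
    exact h2 j hj

theorem rk_tr (S : Finset E) : rk (tr e L) (S.map e.toEmbedding) = rk L S := by
  rw [rk, rk, kerS_tr, finrank_tr, finrank_tr]

theorem beta_tr : beta (tr e L) = beta L := by
  rw [beta, beta, finrank_tr]
  congr 1
  symm
  refine Fintype.sum_equiv (Equiv.finsetCongr e) _ _ (fun S => ?_)
  rw [Equiv.finsetCongr_apply, rk_tr, Finset.card_map]

theorem conn_tr (h : Conn L) : Conn (tr e L) := by
  intro S T hS hT hST
  obtain ⟨S', rfl⟩ := (Equiv.finsetCongr e).surjective S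
  obtain ⟨T', rfl⟩ := (Equiv.finsetCongr e).surjective T
  rw [Equiv.finsetCongr_apply] at *
  rw [Equiv.finsetCongr_apply] at *
  have h1 : (Finset.univ : Finset E') = (Finset.univ : Finset E).map e.toEmbedding := by
    rw [Finset.map_univ_equiv]
  rw [h1, rk_tr, rk_tr, rk_tr]
  apply h
  · exact Finset.map_nonempty.mp hS
  · exact Finset.map_nonempty.mp hT
  · intro i
    have := hST (e i)
    simpa using this

theorem vanT_tr (G : MvPolynomial E ℂ) : VanT (tr e L) (MvPolynomial.rename e G) ↔ VanT L G := by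
  constructor
  · intro h x hx hx0 c hc
    have h1 := h (fun i => x (e.symm i)) ((mem_tr' e L).mpr hx) (fun i => hx0 _)
      (fun i => c (e.symm i)) (by rw [perp_tr]; exact (mem_tr' e _).mpr hc)
    rw [MvPolynomial.eval_rename] at h1
    rw [← h1]
    congr 2
    funext i
    simp
  · intro h x hx hx0 c hc
    rw [perp_tr] at hc
    have h1 := h _ ((mem_tr e L).mp hx) (fun i => hx0 _) _ ((mem_tr e _).mp hc)
    rw [MvPolynomial.eval_rename, ← h1]
    rfl

end

theorem noloops_of_conn {E : Type} [Fintype E] {L : Submodule ℂ (E → ℂ)} (h : Conn L)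
    (hne : L ≠ ⊥) (i : E) : ∃ z ∈ L, z i = 1 := by
  classical
  by_cases ho : ∃ o, o ≠ i
  · obtain ⟨o, ho⟩ := ho
    exact h.noloop i o ho
  · push Not at ho
    by_contra hcon
    have h1 := exists_one hcon
    apply hne
    rw [eq_bot_iff]
    intro z hz
    rw [Submodule.mem_bot]
    funext j
    rw [ho j]
    exact h1 z hz

/-- the algebraic theorem over `Fin (n + 1)` -/
theorem alg_final (n : ℕ) (L : Submodule ℂ (Fin (n + 1) → ℂ)) (hc : Conn L) (hne : L ≠ ⊥) :
    ∃ (F : MvPolynomial (Fin (n + 1)) ℂ) (D : ℕ), Irreducible F ∧ F.IsHomogeneous D ∧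
      2 * (D : ℤ) = 2 ^ finrank ℂ L * beta L ∧ ∀ G, VanT L G ↔ F ∣ G := by
  have hcard : Fintype.card (Fin (n + 1)) = Fintype.card (Option (OI n)) := by
    rw [Fintype.card_fin, Fintype.card_option, card_OI]
  let e : Fin (n + 1) ≃ Option (OI n) := Fintype.equivOfCardEq hcard
  have hc' := conn_tr e L hc
  have hne' : tr e L ≠ ⊥ := by
    intro h
    have h1 := finrank_tr e L
    rw [h, finrank_bot] at h1
    exact hne (Submodule.finrank_eq_zero.mp h1.symm)
  have hnl := noloops_of_conn hc' hne'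
  obtain ⟨F, D, h1, h2, h3, h4⟩ := alg_main' (rank_main n) (tr e L) hnl (beta_pos n _ hc' hne')
  let r := MvPolynomial.renameEquiv ℂ e.symm
  refine ⟨MvPolynomial.rename e.symm F, D, ?_, ?_, ?_, ?_⟩
  · have : Irreducible (r F) := (MulEquiv.irreducible_iff r).mpr h1
    exact this
  · exact h2.rename_isHomogeneous
  · rw [h3, finrank_tr, beta_tr]
  · intro G
    rw [← vanT_tr e L, vanT_iff hnl, h4]
    constructor
    · rintro ⟨Q, hQ⟩
      refine ⟨MvPolynomial.rename e.symm Q, ?_⟩
      have := congrArg (MvPolynomial.rename e.symm) hQ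
      rw [MvPolynomial.rename_rename, map_mul] at this
      simpa using this
    · rintro ⟨Q, hQ⟩
      refine ⟨MvPolynomial.rename e Q, ?_⟩
      have := congrArg (MvPolynomial.rename e) hQ
      rw [map_mul, MvPolynomial.rename_rename] at this
      simpa using this

section
variable {n d : ℕ} (ℓ : Fin (n + 1) → Dual ℂ (Fin (d + 1) → ℂ))

/-- the evaluation map -/
def evMap : (Fin (d + 1) → ℂ) →ₗ[ℂ] (Fin (n + 1) → ℂ) := LinearMap.pi ℓ

theorem evMap_inj (hspan : Submodule.span ℂ (Set.range ℓ) = ⊤) :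
    Function.Injective (evMap ℓ) := by
  rw [← LinearMap.ker_eq_bot, eq_bot_iff]
  intro t ht
  rw [LinearMap.mem_ker] at ht
  rw [Submodule.mem_bot, ← Module.forall_dual_apply_eq_zero_iff ℂ]
  intro φ
  have hφ : φ ∈ Submodule.span ℂ (Set.range ℓ) := by rw [hspan]; trivial
  induction hφ using Submodule.span_induction with
  | mem x hx =>
    obtain ⟨i, rfl⟩ := hx
    exact congrFun ht i
  | zero => rfl
  | add x y _ _ hx hy => rw [LinearMap.add_apply, hx, hy, add_zero]
  | smul a x _ hx => rw [LinearMap.smul_apply, hx, smul_zero]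

theorem finrank_range (hspan : Submodule.span ℂ (Set.range ℓ) = ⊤) :
    finrank ℂ (LinearMap.range (evMap ℓ)) = d + 1 := by
  rw [LinearMap.finrank_range_of_inj (evMap_inj ℓ hspan), finrank_fintype_fun_eq_card,
    Fintype.card_fin]

theorem rk_range (hspan : Submodule.span ℂ (Set.range ℓ) = ⊤) (S : Finset (Fin (n + 1))) :
    rk (LinearMap.range (evMap ℓ)) S = rankFn ℓ S := by
  let W := Submodule.span ℂ (ℓ '' (S : Set (Fin (n + 1))))
  have h1 := Subspace.finrank_add_finrank_dualCoannihilator_eq W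
  rw [finrank_fintype_fun_eq_card, Fintype.card_fin] at h1
  have h2 : kerS (LinearMap.range (evMap ℓ)) S = W.dualCoannihilator.map (evMap ℓ) := by
    ext z
    rw [mem_kerS, Submodule.mem_map]
    constructor
    · rintro ⟨⟨t, rfl⟩, h⟩
      refine ⟨t, ?_, rfl⟩
      rw [Submodule.mem_dualCoannihilator]
      intro φ hφ
      induction hφ using Submodule.span_induction with
      | mem x hx =>
        obtain ⟨i, hi, rfl⟩ := hx
        exact h i hi
      | zero => rfl
      | add x y _ _ hx hy => rw [LinearMap.add_apply, hx, hy, add_zero]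
      | smul a x _ hx => rw [LinearMap.smul_apply, hx, smul_zero]
    · rintro ⟨t, ht, rfl⟩
      rw [Submodule.mem_dualCoannihilator] at ht
      refine ⟨⟨t, rfl⟩, fun i hi => ?_⟩
      exact ht _ (Submodule.subset_span ⟨i, hi, rfl⟩)
  have h3 : finrank ℂ (kerS (LinearMap.range (evMap ℓ)) S) =
      finrank ℂ W.dualCoannihilator := by
    rw [h2]
    exact (Submodule.equivMapOfInjective (evMap ℓ) (evMap_inj ℓ hspan) _).finrank_eq.symm
  rw [rk, h3, finrank_range ℓ hspan, rankFn]
  show ((d + 1 : ℕ) : ℤ) - (finrank ℂ W.dualCoannihilator : ℤ) = (finrank ℂ W : ℤ)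
  omega

theorem rankFn_univ (hspan : Submodule.span ℂ (Set.range ℓ) = ⊤) :
    rankFn ℓ Finset.univ = d + 1 := by
  have h := rk_range ℓ hspan Finset.univ
  rw [rk_univ, finrank_range ℓ hspan] at h
  exact_mod_cast h.symm

theorem beta_range (hspan : Submodule.span ℂ (Set.range ℓ) = ⊤) :
    beta (LinearMap.range (evMap ℓ)) = betaInv ℓ := by
  rw [beta, betaInv, finrank_range ℓ hspan, rankFn_univ ℓ hspan]
  congr 1
  exact Finset.sum_congr rfl fun S _ => by rw [rk_range ℓ hspan]

theorem conn_range (hspan : Submodule.span ℂ (Set.range ℓ) = ⊤) (h : IsConnectedMatroid ℓ) :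
    Conn (LinearMap.range (evMap ℓ)) := by
  rw [conn_iff]
  intro S h1 h2 h3
  rw [rk_range ℓ hspan, rk_range ℓ hspan, rk_range ℓ hspan] at h3
  apply h S h1
  · rintro rfl
    rw [Finset.compl_univ] at h2
    exact Finset.not_nonempty_empty h2
  · exact_mod_cast h3

theorem recip_eq : reciprocalSpace ℓ = zarClosure (recSet (LinearMap.range (evMap ℓ))) := by
  unfold reciprocalSpace
  congr 1
  ext p
  constructor
  · rintro ⟨t, ht, h, rfl⟩
    exact ⟨evMap ℓ t, ⟨t, rfl⟩, ht, h, rfl⟩
  · rintro ⟨_, ⟨t, rfl⟩, ht, h, rfl⟩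
    exact ⟨t, ht, h, rfl⟩

/-- the vanishing ideal of the dual variety -/
theorem vanIdeal_dual (hn : 0 < n) (L : Submodule ℂ (Fin (n + 1) → ℂ))
    (F : MvPolynomial (Fin (n + 1)) ℂ) (hF0 : Irreducible F)
    (hF : ∀ G : MvPolynomial (Fin (n + 1)) ℂ, VanT L G ↔ F ∣ G) :
    vanIdeal (dualVariety (zarClosure (recSet L))) = Ideal.span {F} := by
  have hprime : Prime F := UniqueFactorizationMonoid.irreducible_iff_prime.mp hF0
  apply le_antisymm
  · intro G hG
    rw [dualVariety, vanIdeal_closure] at hG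
    rw [Ideal.mem_span_singleton]
    have h1 : ∀ i, F ∣ G * MvPolynomial.X i := by
      intro i
      rw [← hF]
      intro x hx hx0 c hc
      rw [map_mul, MvPolynomial.eval_X]
      by_cases hw : (fun i => x i ^ 2 * c i) = 0
      · have := congrFun hw i
        simp only [Pi.zero_apply] at this
        rw [this, mul_zero]
      · have h2 : MvPolynomial.eval (fun i => x i ^ 2 * c i) G = 0 := by
          apply hG _ hw
          refine ⟨Projectivization.mk ℂ (fun i => (x i)⁻¹) (inv_ne hx0), smooth_rec L hx hx0 _, ?_⟩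
          exact tangent_rec L hx hx0 hc hw
        rw [h2, zero_mul]
    by_contra hcon
    have h2 : ∀ i, F ∣ MvPolynomial.X i := fun i => (hprime.dvd_or_dvd (h1 i)).resolve_left hcon
    have h3 : ∀ i : Fin (n + 1), Irreducible (MvPolynomial.X i : MvPolynomial (Fin (n + 1)) ℂ) :=
      fun i => MvPolynomial.X_prime.irreducible
    have h4 : Associated F (MvPolynomial.X 0) := hF0.associated_of_dvd (h3 0) (h2 0)
    have h5 : (MvPolynomial.X 0 : MvPolynomial (Fin (n + 1)) ℂ) ∣ MvPolynomial.X (Fin.last n) :=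
      h4.symm.dvd.trans (h2 _)
    rw [MvPolynomial.X_dvd_X] at h5
    have h6 : (0 : Fin (n + 1)) = Fin.last n := by simpa using h5
    have h7 := congrArg Fin.val h6
    simp only [Fin.val_zero, Fin.val_last] at h7
    omega
  · rw [Ideal.span_singleton_le_iff_mem]
    intro v hv hvX
    have : Projectivization.mk ℂ v hv ∈ zeroSet {F} := by rw [← dual_eq L F hF]; exact hvX
    exact this F rfl v hv rfl

/-- the smooth points are the points with tangent space of dimension `d + 1` -/
theorem smooth_iff (L : Submodule ℂ (Fin (n + 1) → ℂ))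
    (F : MvPolynomial (Fin (n + 1)) ℂ) (hF0 : Irreducible F)
    (hF : ∀ G : MvPolynomial (Fin (n + 1)) ℂ, VanT L G ↔ F ∣ G) (p : PSpace n) :
    IsSmoothPoint (zarClosure (recSet L)) p ↔ p ∈ zarClosure (recSet L) ∧
      finrank ℂ (tangentSpace (zarClosure (recSet L)) p) = finrank ℂ L := by
  obtain ⟨x, hx, hx0⟩ : ∃ x ∈ L, ∀ i, x i ≠ 0 := by
    by_contra hcon
    push Not at hcon
    have h1 : VanT L 1 := by
      intro x hx hx0
      obtain ⟨i, hi⟩ := hcon x hx
      exact absurd hi (hx0 i)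
    exact hF0.not_isUnit (isUnit_of_dvd_one ((hF 1).mp h1))
  have hge : ∀ q ∈ zarClosure (recSet L),
      finrank ℂ L ≤ finrank ℂ (tangentSpace (zarClosure (recSet L)) q) := by
    intro q hq
    apply finrank_tangent_ge L (Projectivization.rep_nonzero q)
    rw [Projectivization.mk_rep]
    exact hq
  have hs := smooth_rec L hx hx0 (inv_ne hx0)
  have hle : finrank ℂ (tangentSpace (zarClosure (recSet L))
      (Projectivization.mk ℂ (fun i => (x i)⁻¹) (inv_ne hx0))) = finrank ℂ L := by
    obtain ⟨a, ha0, ha⟩ := rep_smul _ (inv_ne hx0)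
    have h1 : (Projectivization.mk ℂ (fun i => (x i)⁻¹) (inv_ne hx0)).rep =
        fun i => ((a⁻¹ • x) i)⁻¹ := by
      rw [ha]
      funext i
      simp [mul_comm]
    rw [tangentSpace, h1, finrank_tangent_rec L (Submodule.smul_mem _ _ hx)
      (fun i => by simp [ha0, hx0 i])]
  constructor
  · rintro ⟨h1, h2⟩
    refine ⟨h1, le_antisymm ?_ (hge p h1)⟩
    rw [← hle]
    exact h2 _ hs.1
  · rintro ⟨h1, h2⟩
    refine ⟨h1, fun q hq => ?_⟩
    rw [h2]
    exact hge q hq

/-- the main theorem -/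
theorem main_thm (hspan : Submodule.span ℂ (Set.range ℓ) = ⊤) (hconn : IsConnectedMatroid ℓ) :
    ∃ F : MvPolynomial (Fin (n + 1)) ℂ, Irreducible F ∧ F.IsHomogeneous F.totalDegree ∧
      (F.totalDegree : ℤ) = 2 ^ d * betaInv ℓ ∧
      dualVariety (reciprocalSpace ℓ) = zeroSet {F} ∧
      (0 < n → vanIdeal (dualVariety (reciprocalSpace ℓ)) = Ideal.span {F}) ∧
      ∀ p, IsSmoothPoint (reciprocalSpace ℓ) p ↔ p ∈ reciprocalSpace ℓ ∧
        finrank ℂ (tangentSpace (reciprocalSpace ℓ) p) = d + 1 := by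
  have hne : LinearMap.range (evMap ℓ) ≠ ⊥ := by
    intro h
    have h1 := finrank_range ℓ hspan
    rw [h, finrank_bot] at h1
    omega
  obtain ⟨F, D, h1, h2, h3, h4⟩ := alg_final n (LinearMap.range (evMap ℓ))
    (conn_range ℓ hspan hconn) hne
  have hD : F.totalDegree = D := h2.totalDegree h1.ne_zero
  refine ⟨F, h1, by rw [hD]; exact h2, ?_, ?_, ?_, ?_⟩
  · rw [hD]
    rw [finrank_range ℓ hspan, beta_range ℓ hspan, pow_succ] at h3
    linarith
  · rw [recip_eq]
    exact dual_eq _ F h4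
  · intro hn
    rw [recip_eq]
    exact vanIdeal_dual hn _ F h1 h4
  · intro p
    rw [recip_eq, smooth_iff _ F h1 h4, finrank_range ℓ hspan]

end

end Pool.Agent.H286R3
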